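import Pool.Agent.Mg.F32357ep.Gc2ad41

set_option linter.all false

set_option autoImplicit false

open Complex Set Filter Topology Metric MeasureTheory

namespace Pool.Agent.MP_32357e_an.H

lemma xmono_der {g : ℂ → ℂ} (hg : DifferentiableOn ℂ g HP) {v : ℂ} (hv : v ∈ HP) :
    HasDerivAt g (deriv g v) v :=
  (hg.differentiableAt (isOpen_HP.mem_nhds hv)).hasDerivAt

lemma xmono_mem {t : ℝ} (y : ℝ) (ht : 0 < t) : (t : ℂ) + y * I ∈ HP := by
  simpa [mem_HP] using ht

lemma xmono_hor {g : ℂ → ℂ} (hg : DifferentiableOn ℂ g HP) (y : ℝ) {t : ℝ} (ht : 0 < t) :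
    HasDerivAt (fun t : ℝ => t ^ 4 * ‖g (t + y * I)‖ ^ 2)
      (4 * t ^ 3 * ‖g (t + y * I)‖ ^ 2 +
        t ^ 4 * (2 * inner ℝ (g (t + y * I)) (deriv g (t + y * I)))) t := by
  have h1 : HasDerivAt (fun w : ℂ => g (w + y * I)) (deriv g (t + y * I)) (t : ℂ) :=
    HasDerivAt.comp_add_const _ _ (xmono_der hg (xmono_mem y ht))
  have h2 := h1.comp_ofReal.norm_sq
  exact ((hasDerivAt_pow 4 t).mul h2).congr_deriv (by norm_num)

theorem mono : MonoStmt := by
  intro g hg hk
  constructor
  · intro x₁ x₂ y h1 h12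
    have hm : MonotoneOn (fun t : ℝ => t ^ 4 * ‖g (t + y * I)‖ ^ 2) (Ioi 0) := by
      refine monotoneOn_of_deriv_nonneg (convex_Ioi 0)
        (fun t ht => (xmono_hor hg y ht).continuousAt.continuousWithinAt)
        (fun t ht => (xmono_hor hg y (interior_subset ht)).differentiableAt.differentiableWithinAt)
        (fun t ht => ?_)
      have ht' : 0 < t := interior_subset ht
      rw [(xmono_hor hg y ht').deriv]
      have a := hk _ (xmono_mem y ht')
      have e : ((t : ℂ) + y * I).re = t := by simp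
      rw [e] at a
      have b := neg_abs_le (inner ℝ (g (t + y * I)) (deriv g (t + y * I)))
      have c := abs_real_inner_le_norm (g (t + y * I)) (deriv g (t + y * I))
      generalize inner ℝ (g (t + y * I)) (deriv g (t + y * I)) = s at *
      have n0 := norm_nonneg (g (t + y * I))
      generalize ‖g (t + y * I)‖ = n at *
      generalize ‖deriv g (t + y * I)‖ = m at *
      have d : -(n * m) ≤ s := by linarith
      have f : 0 ≤ 2 * n ^ 2 + t * s := by nlinarith [mul_le_mul_of_nonneg_left a n0]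
      have : 4 * t ^ 3 * n ^ 2 + t ^ 4 * (2 * s) = 2 * t ^ 3 * (2 * n ^ 2 + t * s) := by ring
      rw [this]; positivity
    have h := hm h1 (h1.trans_le h12) h12
    refine (pow_le_pow_iff_left₀ (by positivity) (by positivity) two_ne_zero).1 ?_
    simpa only [mul_pow, ← pow_mul] using h
  · intro x y hx
    have hmem : ∀ t : ℝ, (x : ℂ) + (t : ℂ) * (y * I) ∈ HP := fun t => by
      simpa [mem_HP] using hx
    have hd : ∀ t : ℝ, HasDerivAt (fun t : ℝ => g (x + t * (y * I)))
        (deriv g (x + t * (y * I)) * (y * I)) t := fun t => by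
      have h1 : HasDerivAt (fun w : ℂ => (x : ℂ) + w * (y * I)) (y * I) (t : ℂ) := by
        simpa using ((hasDerivAt_id (t : ℂ)).mul_const ((y : ℂ) * I)).const_add (x : ℂ)
      exact ((xmono_der hg (hmem t)).comp (t : ℂ) h1).comp_ofReal
    have h := norm_le_gronwallBound_of_norm_deriv_right_le (a := 0) (b := 1) (δ := ‖g x‖)
      (K := 2 * |y| / x) (ε := 0) (fun t _ => (hd t).continuousAt.continuousWithinAt)
      (fun t _ => (hd t).hasDerivWithinAt) (by simp) (fun t _ => by
        have a := hk _ (hmem t)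
        have e : ((x : ℂ) + t * (y * I)).re = x := by simp
        rw [e] at a
        rw [norm_mul, norm_mul, norm_I, mul_one, norm_real, Real.norm_eq_abs, add_zero,
          div_mul_eq_mul_div, le_div_iff₀ hx]
        nlinarith [mul_le_mul_of_nonneg_left a (abs_nonneg y)]) 1 ⟨zero_le_one, le_rfl⟩
    rw [gronwallBound_ε0] at h
    simpa using h

theorem rigid : RigidStmt := by
  intro k α hk hb hc
  have real : ∀ x : ℝ, 0 < x → (x : ℂ) * deriv k x + 2 * k x = 0 := by
    intro x hx
    have h1 := xmono_hor hk 0 hx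
    simp only [ofReal_zero, zero_mul, add_zero] at h1
    have h2 : HasDerivAt (fun t : ℝ => t ^ 4 * ‖k t‖ ^ 2) 0 x := by
      refine (hasDerivAt_const x (α ^ 2)).congr_of_eventuallyEq ?_
      filter_upwards [Ioi_mem_nhds hx] with t ht
      rw [← hc t ht]; ring
    have h3 := h1.unique h2
    have h4 : 2 * ‖k x‖ ^ 2 + x * inner ℝ (k x) (deriv k x) = 0 := by
      have : 2 * x ^ 3 * (2 * ‖k x‖ ^ 2 + x * inner ℝ (k x) (deriv k x)) = 0 := by
        rw [← h3]; ring
      exact (mul_eq_zero.1 this).resolve_left (by positivity)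
    have a := hb x (by simpa [mem_HP] using hx)
    rw [ofReal_re] at a
    have e : (x : ℂ) * deriv k x + 2 * k x = (2 : ℝ) • k x + x • deriv k x := by
      simp; ring
    rw [e, ← norm_eq_zero]
    have h5 := norm_add_sq_real ((2 : ℝ) • k x) (x • deriv k x)
    rw [norm_smul, norm_smul, real_inner_smul_left, real_inner_smul_right, Real.norm_eq_abs,
      Real.norm_eq_abs, abs_of_pos hx, abs_two] at h5
    have h6 : (x * ‖deriv k x‖) ^ 2 ≤ (2 * ‖k x‖) ^ 2 := pow_le_pow_left₀ (by positivity) a 2
    have h7 : ‖(2 : ℝ) • k x + x • deriv k x‖ ^ 2 ≤ 0 := by nlinarith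
    exact pow_eq_zero_iff (two_ne_zero) |>.1 (le_antisymm h7 (by positivity))
  have an := hk.analyticOnNhd isOpen_HP
  have an2 : AnalyticOnNhd ℂ (fun v => v * deriv k v + 2 * k v) HP :=
    (analyticOnNhd_id.mul an.deriv).add (analyticOnNhd_const.mul an)
  have one : (1 : ℂ) ∈ HP := by simp [mem_HP]
  have fr : ∃ᶠ v in 𝓝[≠] (1 : ℂ), v * deriv k v + 2 * k v = 0 := by
    have t : Tendsto (fun x : ℝ => (x : ℂ)) (𝓝[>] 1) (𝓝[≠] 1) := by
      refine tendsto_nhdsWithin_iff.2 ⟨?_, ?_⟩
      · exact (continuous_ofReal.tendsto' 1 1 (by simp)).mono_left nhdsWithin_le_nhds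
      · filter_upwards [self_mem_nhdsWithin] with x hx
        intro h
        have h' : (x : ℂ) = 1 := h
        exact (ne_of_gt (show (1 : ℝ) < x from hx)) (by exact_mod_cast h')
    refine t.frequently (Eventually.frequently ?_)
    filter_upwards [self_mem_nhdsWithin] with x hx
    exact real x (zero_lt_one.trans hx)
  have z := an2.eqOn_zero_of_preconnected_of_frequently_eq_zero convex_HP.isPreconnected one fr
  have hd : ∀ v ∈ HP, HasDerivAt (fun v => v ^ 2 * k v) 0 v := fun v hv => by
    have h := (hasDerivAt_pow 2 v).mul (xmono_der hk hv)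
    have h0 : v * deriv k v + 2 * k v = 0 := z hv
    refine h.congr_deriv ?_
    simp only [Nat.cast_ofNat, Nat.add_one_sub_one, pow_one]
    linear_combination v * h0
  refine ⟨k 1, by simpa using hc 1 one_pos, fun v hv => ?_⟩
  have h := isOpen_HP.is_const_of_deriv_eq_zero convex_HP.isPreconnected
    (fun v hv => (hd v hv).differentiableAt.differentiableWithinAt)
    (fun v hv => (hd v hv).deriv) hv one
  have v0 : v ≠ 0 := fun h => by simp [h, mem_HP] at hv
  simp only [one_pow, one_mul] at h
  rw [← h]; field_simp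

end Pool.Agent.MP_32357e_an.H
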