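import Pool.Agent.Mg.F32357ep.G8008cf

set_option linter.all false

/-! One normalised step with a prescribed majorant. -/

set_option autoImplicit false

open Complex Set Filter Topology Metric

namespace Pool.Agent.MP_32357e_an.H

lemma xsnu_Mf {W : ℂ} (hW : 0 ≤ W.re) : ‖W‖ * ‖Mf W‖ ≤ 2 * Real.exp Real.pi := by
  set x : ℂ := 1 + (1 + I) * W with hx
  have h0 : 0 < ‖x‖ := norm_pos_iff.2 (slitPlane_ne_zero (slit_of_re_nonneg hW))
  have h1 : ‖W‖ ≤ ‖x‖ := by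
    refine le_of_sq_le_sq ?_ (norm_nonneg _)
    rw [Complex.sq_norm, Complex.sq_norm, normSq_apply, normSq_apply, hx]
    simp
    nlinarith [sq_nonneg (W.im - 1), sq_nonneg W.re]
  have h2 : ((I - 1) * log x).re = -arg x - Real.log ‖x‖ := by
    simp [log_re, log_im]
    ring
  rw [Mf, norm_exp, ← hx, h2, Real.exp_sub, Real.exp_log h0]
  have h3 : Real.exp (-arg x) ≤ Real.exp Real.pi :=
    Real.exp_le_exp.2 (by linarith [neg_pi_lt_arg x])
  rw [← mul_div_assoc, div_le_iff₀ h0]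
  have := Real.exp_pos Real.pi
  have := Real.exp_pos (-arg x)
  nlinarith [norm_nonneg W]

lemma xsnu_up {b σ s d L : ℝ} {B : ℂ} (hb : 0 < b) (hσ : 0 < σ) (hs : 0 < s) (hsd : s ≤ d)
    (hL : 0 ≤ L) (hB : B ∈ HP) (hn : ‖B‖ ≤ L + σ / d) :
    s * ‖Af b B‖ ≤ 2 * Real.exp Real.pi * (2 * s * L ^ 2 + L * σ + 2 * σ ^ 2 / max s (b * σ)) := by
  have hd : 0 < d := by linarith
  have hre : 0 ≤ ((b : ℂ) * B).re := by
    rw [re_ofReal_mul]
    exact mul_nonneg hb.le (le_of_lt hB)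
  set K : ℝ := 2 * Real.exp Real.pi with hK
  have hK0 : 0 < K := by positivity
  have hm : 0 < max s (b * σ) := lt_max_of_lt_left hs
  rw [Af, norm_mul, norm_pow]
  rcases le_or_gt (b * σ) d with h | h
  · have h1 := xcore_norm_Mf hre
    have h2 : s / d ^ 2 ≤ 1 / max s (b * σ) := by
      rw [div_le_div_iff₀ (by positivity) hm, one_mul, sq]
      exact mul_le_mul hsd (max_le hsd h) hm.le hd.le
    have h3 : ‖B‖ ^ 2 ≤ 2 * L ^ 2 + 2 * (σ / d) ^ 2 := by
      have := pow_le_pow_left₀ (norm_nonneg _) hn 2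
      nlinarith [sq_nonneg (L - σ / d)]
    calc s * (‖B‖ ^ 2 * ‖Mf (b * B)‖) ≤ s * ((2 * L ^ 2 + 2 * (σ / d) ^ 2) * K) := by gcongr
      _ = K * (2 * s * L ^ 2 + 0 + 2 * σ ^ 2 * (s / d ^ 2)) := by field_simp; ring
      _ ≤ K * (2 * s * L ^ 2 + L * σ + 2 * σ ^ 2 * (1 / max s (b * σ))) := by
        gcongr
        positivity
      _ = _ := by ring
  · have h1 := xsnu_Mf hre
    rw [norm_mul, norm_real, Real.norm_of_nonneg hb.le] at h1
    rw [max_eq_right (by linarith)]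
    have h2 : s * ‖B‖ ≤ b * σ * L + σ := by
      calc s * ‖B‖ ≤ s * (L + σ / d) := by gcongr
        _ = s * L + s * (σ / d) := by ring
        _ ≤ b * σ * L + d * (σ / d) := by
          gcongr
          linarith
        _ = _ := by field_simp
    calc s * (‖B‖ ^ 2 * ‖Mf (b * B)‖) = (s * ‖B‖) * (b * ‖B‖ * ‖Mf (b * B)‖) / b := by
          field_simp
      _ ≤ (b * σ * L + σ) * K / b := by gcongr
      _ = K * (0 + L * σ + 1 * σ ^ 2 / (b * σ)) := by field_simp; ring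
      _ ≤ _ := by
        gcongr
        · positivity
        · norm_num

lemma xsnu_reg {ω : ℝ → ℝ} (h : Reg ω) {s t : ℝ} (hs : 0 < s) (hs1 : s ≤ 1) (ht : 0 < t)
    (ht1 : t ≤ 1) : t * ω (1 - t) ≤ max s t * ω (1 - s) := by
  have ms : 1 - s ∈ Ico (0 : ℝ) 1 := ⟨by linarith, by linarith⟩
  have mt : 1 - t ∈ Ico (0 : ℝ) 1 := ⟨by linarith, by linarith⟩
  rcases le_total s t with e | e
  · rw [max_eq_right e]
    exact mul_le_mul_of_nonneg_left (h.1 mt ms (by linarith)) ht.le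
  · rw [max_eq_left e]
    simpa using h.2.1 ms mt (by linarith)

lemma xsnu_inj {a α : ℝ} (ha : 0 < a) (hα : 0 < α) {p q : ℂ} (hp : 0 < p.re) (hq : 0 < q.re)
    (e : 1 - a * p + α / p = 1 - a * q + α / q) : p = q := by
  have p0 : p ≠ 0 := by rintro rfl; simp at hp
  have q0 : q ≠ 0 := by rintro rfl; simp at hq
  have h1 : (p - q) * (a * p + α * q⁻¹) = 0 := by
    have e2 : (p - q) * (a * p + α * q⁻¹) =
        p * ((1 - a * q + α / q) - (1 - a * p + α / p)) := by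
      field_simp
      ring
    rw [e2, e, sub_self, mul_zero]
  rcases mul_eq_zero.1 h1 with h | h
  · exact sub_eq_zero.1 h
  · have := congrArg Complex.re h
    rw [add_re, re_ofReal_mul, re_ofReal_mul, zero_re] at this
    have := mul_pos hα (xstepn_inv_re hq)
    have := mul_pos ha hp
    linarith

lemma xsnu_close {a α b M μ η δ : ℝ} {u w : ℂ} (ha : 0 < a) (hα : 0 < α) (hb : 0 < b)
    (hμ : 0 < μ) (h1 : μ ≤ ‖u‖) (h2 : ‖u‖ ≤ M) (haM : a * M ≤ 1) (h3 : a * M ^ 2 ≤ η / 3)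
    (h4 : α ≤ μ) (h5 : 5 * α ≤ η / 3 * (2 * a * μ)) (h6 : b * 3 < δ)
    (hδ : ∀ W : ℂ, ‖W‖ < δ → ‖Mf W - 1‖ ≤ η / 3 * (2 * a) / 9) :
    ‖1 / (2 * a) * Af b (1 - a * u + α / u) + (w - 1 / (2 * a)) - (w - u)‖ ≤ η := by
  have a0 : (a : ℂ) ≠ 0 := ofReal_ne_zero.2 ha.ne'
  have an : ‖(a : ℂ)‖ = a := by rw [Complex.norm_real, Real.norm_of_nonneg ha.le]
  have n2 : ‖(1 / (2 * a) : ℂ)‖ = 1 / (2 * a) := by
    rw [norm_div, norm_mul, an, norm_one, Complex.norm_two]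
  have b1 : ‖(α : ℂ) / u‖ ≤ α / μ := by
    rw [norm_div, Complex.norm_real, Real.norm_of_nonneg hα.le]
    gcongr
  have b2 : α / μ ≤ 1 := (div_le_one hμ).2 h4
  have b3 : ‖1 - a * u‖ ≤ 2 := by
    refine (norm_sub_le _ _).trans ?_
    rw [norm_one, norm_mul, an]
    nlinarith
  generalize (α : ℂ) / u = t at b1
  have b4 : ‖1 - a * u + t‖ ≤ 3 := (norm_add_le _ _).trans (by linarith)
  have b5 := hδ (b * (1 - a * u + t)) (by
    rw [norm_mul, Complex.norm_real, Real.norm_of_nonneg hb.le]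
    nlinarith)
  have e : 1 / (2 * a) * Af b (1 - a * u + t) + (w - 1 / (2 * a)) - (w - u) =
      a * u ^ 2 / 2 + 1 / (2 * a) * (t * (2 * (1 - a * u) + t)) +
        1 / (2 * a) * ((1 - a * u + t) ^ 2 * (Mf (b * (1 - a * u + t)) - 1)) := by
    rw [Af]
    generalize Mf (b * (1 - a * u + t)) = m
    field_simp
    ring
  rw [e]
  refine norm_add₃_le.trans ?_
  have c1 : ‖(a : ℂ) * u ^ 2 / 2‖ ≤ η / 3 := by
    rw [norm_div, norm_mul, norm_pow, an, Complex.norm_two]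
    have : a * ‖u‖ ^ 2 ≤ a * M ^ 2 := by gcongr
    have : 0 ≤ a * ‖u‖ ^ 2 := by positivity
    linarith
  have c2 : ‖1 / (2 * (a : ℂ)) * (t * (2 * (1 - a * u) + t))‖ ≤ η / 3 := by
    have i1 : ‖2 * (1 - a * u) + t‖ ≤ 5 := by
      refine (norm_add_le _ _).trans ?_
      rw [norm_mul, Complex.norm_two]
      linarith
    rw [norm_mul, norm_mul, n2]
    calc 1 / (2 * a) * (‖t‖ * ‖2 * (1 - a * u) + t‖) ≤ 1 / (2 * a) * (α / μ * 5) := by gcongr
      _ = 5 * α / (2 * a * μ) := by field_simp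
      _ ≤ η / 3 := by rwa [div_le_iff₀ (by positivity)]
  have c3 : ‖1 / (2 * (a : ℂ)) * ((1 - a * u + t) ^ 2 * (Mf (b * (1 - a * u + t)) - 1))‖
      ≤ η / 3 := by
    rw [norm_mul, norm_mul, norm_pow, n2]
    calc 1 / (2 * a) * (‖1 - a * u + t‖ ^ 2 * ‖Mf (b * (1 - a * u + t)) - 1‖)
        ≤ 1 / (2 * a) * (3 ^ 2 * (η / 3 * (2 * a) / 9)) := by gcongr
      _ = η / 3 := by field_simp; ring
  linarith

theorem stepNU : ∃ c : ℝ, 0 < c ∧ StepNUStmt c := by
  obtain ⟨m, K₀, μ₀, hm, hm1, hK₀, hμ₀, hcore⟩ := coreU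
  set K : ℝ := 2 * Real.exp Real.pi with hK
  have hK0 : 0 < K := by positivity
  refine ⟨m ^ 2 * μ₀ / (8 * K), by positivity, ?_⟩
  intro ω hω u R₀ w hR₀ hu hi hu1 hHP r η hr hη
  have h1m : (1 : ℂ) ∈ ball (0 : ℂ) R₀ := by simpa using hR₀
  have hsub : ball (0 : ℂ) 1 ⊆ ball 0 R₀ := ball_subset_ball hR₀.le
  set U : ℂ → ℂ := fun z => -dslope u 1 z with hUdef
  have hUd : DifferentiableOn ℂ U (ball 0 R₀) :=
    ((differentiableOn_dslope (isOpen_ball.mem_nhds h1m)).2 hu).neg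
  have hU0 : ∀ z ∈ ball (0 : ℂ) R₀, U z ≠ 0 := fun z hz =>
    neg_ne_zero.2 (Pool.Agent.MP_1a2790_an.dslope_ne_zero_of_injOn isOpen_ball hu hi h1m hz)
  have huU : ∀ z, u z = (1 - z) * U z := by
    intro z
    have := sub_smul_dslope u 1 z
    rw [hu1, sub_zero, smul_eq_mul] at this
    rw [← this, hUdef]; ring
  obtain ⟨l, hl, hUl⟩ := xstepn_real (hU0 1 h1m) fun d hd =>
    xstepn_cone (hUd.differentiableAt (isOpen_ball.mem_nhds h1m)).continuousAt
      (fun z hz => by rw [← huU]; exact hHP z hz) hd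
  have hu0 : ∀ z ∈ ball (0 : ℂ) 1, u z ≠ 0 := by
    intro z hz h
    have := hHP z hz
    rw [h] at this
    simp [mem_HP] at this
  obtain ⟨M, hM⟩ := (isCompact_closedBall (0 : ℂ) 1).exists_bound_of_continuousOn
    (hu.continuousOn.mono (closedBall_subset_ball hR₀))
  have hM0 : 0 ≤ M := (norm_nonneg _).trans (hM 0 (by simp))
  obtain ⟨a, ⟨haM, haη⟩, ha⟩ := (((xcore_ev (φ := fun a => a * M) (t := 1) (by fun_prop)
    (by simp)).and (xcore_ev (φ := fun a => a * M ^ 2) (t := η / 3) (by fun_prop)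
    (by simpa using hη))).and self_mem_nhdsWithin).exists
  have ha : 0 < a := ha
  have a0 : (a : ℂ) ≠ 0 := ofReal_ne_zero.2 ha.ne'
  have an : ‖(a : ℂ)‖ = a := by rw [Complex.norm_real, Real.norm_of_nonneg ha.le]
  set V : ℂ → ℂ := fun z => (U z)⁻¹ with hVdef
  have hVd : DifferentiableOn ℂ V (ball 0 R₀) := hUd.inv hU0
  have hV1 : V 1 = ((l⁻¹ : ℝ) : ℂ) := by simp [hVdef, hUl]
  have hAd : DifferentiableOn ℂ (fun z => 1 - a * u z) (ball 0 R₀) :=
    (differentiableOn_const _).sub (hu.const_mul _)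
  have hz1 : ∀ z ∈ ball (0 : ℂ) 1, (1 : ℂ) - z ≠ 0 := by
    intro z hz h
    rw [← sub_eq_zero.1 h] at hz
    simp at hz
  have hNB : ∀ α : ℝ, ∀ z : ℂ, α * V z / (1 - z) = α / u z := by
    intro α z
    rw [hVdef, huU z]
    simp only
    rw [← div_eq_mul_inv, div_div, mul_comm (U z)]
  have hBHP : ∀ α : ℝ, 0 < α → ∀ z ∈ ball (0 : ℂ) 1,
      1 - a * u z + α * V z / (1 - z) ∈ HP := by
    intro α hα z hz
    rw [hNB α z, mem_HP, add_re, sub_re, one_re, re_ofReal_mul, div_eq_mul_inv, re_ofReal_mul]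
    have b1 := mul_pos hα (xstepn_inv_re (hHP z hz))
    have b2 : (u z).re ≤ M := (Complex.re_le_norm _).trans (hM z (ball_subset_closedBall hz))
    nlinarith
  have hκ : (1 / (2 * a) : ℂ) ≠ 0 := one_div_ne_zero (mul_ne_zero two_ne_zero a0)
  have n2 : ‖(1 / (2 * a) : ℂ)‖ = 1 / (2 * a) := by
    rw [norm_div, norm_mul, an, norm_one, Complex.norm_two]
  set κ : ℝ := 1 / (2 * a) with hκd
  have hκ0 : 0 < κ := by positivity
  obtain ⟨δ, hδ, hcore⟩ := hcore (fun z => 1 - a * u z) V R₀ l⁻¹ (1 / (2 * a)) (w - 1 / (2 * a))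
    hR₀ (by positivity) hκ hAd hVd hV1 hBHP
  obtain ⟨LV, hLV, hbV⟩ := xcore_bounds hR₀ hVd
  rw [hV1] at hbV
  set L : ℝ := 2 + LV with hL
  have hL0 : 0 < L := by positivity
  have hω0 : 0 < ω 0 := hω.pos ⟨le_rfl, one_pos⟩
  set c₁ : ℝ := ‖(w - 1 / (2 * a) : ℂ)‖ with hc₁
  have hc10 : 0 ≤ c₁ := norm_nonneg _
  obtain ⟨s₁, ⟨hs1, hs2⟩, hs0⟩ := (((xcore_ev (φ := fun s => s) (t := 1 - r) (by fun_prop)
    (by simpa using hr)).and (xcore_ev (φ := fun s => s * (c₁ + κ * K * (2 * L ^ 2)))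
    (t := ω 0 / 8) (by fun_prop) (by simpa using hω0))).and self_mem_nhdsWithin).exists
  have hs0 : 0 < s₁ := hs0
  obtain ⟨μ, hμ, hμ'⟩ := (isCompact_closedBall (0 : ℂ) (1 - s₁)).exists_forall_le'
    (f := fun z => ‖u z‖) (a := 0)
    (hu.continuousOn.mono (closedBall_subset_ball (by linarith))).norm
    (fun z hz => norm_pos_iff.2 (hu0 z (closedBall_subset_ball (by linarith) hz)))
  obtain ⟨δ', hδ', hδ''⟩ := Metric.continuousAt_iff.1
    (differentiableAt_Mf (W := 0) (by simp)).continuousAt (η / 3 * (2 * a) / 9) (by positivity)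
  have ev : ∀ {φ : ℝ → ℝ} {t : ℝ}, Continuous φ → φ 0 < t → ∀ᶠ b in 𝓝 (0 : ℝ), φ b < t :=
    fun hφ h => hφ.continuousAt.eventually_lt continuousAt_const h
  have eσ : ∀ᶠ σ : ℝ in 𝓝 0, σ * l < δ ∧ σ * l < 1 ∧ σ * l < μ ∧
      5 * (σ * l) < η / 3 * (2 * a * μ) ∧ δ * (σ * l) * 3 < δ' ∧ κ * K * (L * σ) < ω 0 / 8 :=
    (ev (by fun_prop) (by simpa using hδ)).and ((ev (by fun_prop) (by simp)).and
      ((ev (by fun_prop) (by simpa using hμ)).and ((ev (by fun_prop)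
        (by simpa using by positivity)).and ((ev (by fun_prop) (by simpa using hδ')).and
          (ev (by fun_prop) (by simpa using hω0))))))
  have t1 : Tendsto (fun s : ℝ => 1 - s) (𝓝[>] 0) (𝓝[<] 1) := by
    refine tendsto_nhdsWithin_iff.2 ⟨?_, ?_⟩
    · have : Continuous fun s : ℝ => 1 - s := by fun_prop
      simpa using (this.tendsto 0).mono_left (nhdsWithin_le_nhds (s := Ioi 0))
    · filter_upwards [self_mem_nhdsWithin] with s hs
      have : 0 < s := hs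
      simpa using this
  have t2 : Tendsto (fun s : ℝ => Real.sqrt (s * ω (1 - s) / (8 * κ * K))) (𝓝[>] 0) (𝓝 0) := by
    have := ((hω.2.2.2.comp t1).div_const (8 * κ * K)).sqrt
    simpa [Function.comp_def] using this
  obtain ⟨s, ⟨⟨g1, g2, g3, g4, g5, g6⟩, g7, g8, g9⟩, hs⟩ := (((t2.eventually eσ).and
    (((hω.2.2.1.comp t1).eventually_ge_atTop (8 * κ * K / (δ * l))).and
    ((xcore_ev (φ := fun s => s) (t := 1) (by fun_prop) one_pos).and
    (xcore_ev (φ := fun s => K₀ * s) (t := 1 - r) (by fun_prop) (by simpa using hr))))).and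
    self_mem_nhdsWithin).exists
  have hs : 0 < s := hs
  have hωs : 0 < ω (1 - s) := hω.pos ⟨by linarith, by linarith⟩
  set σ : ℝ := Real.sqrt (s * ω (1 - s) / (8 * κ * K)) with hσd
  have hσ2 : σ ^ 2 = s * ω (1 - s) / (8 * κ * K) := Real.sq_sqrt (by positivity)
  have hσ : 0 < σ := Real.sqrt_pos.2 (by positivity)
  clear_value σ
  set α : ℝ := σ * l with hαd
  have hα : 0 < α := by positivity
  set b : ℝ := s / σ with hbd
  have hb : 0 < b := by positivity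
  have hbσ : b * σ = s := by rw [hbd]; field_simp
  have hαν : α * l⁻¹ = σ := by rw [hαd]; field_simp
  have hbαν : b * α * l⁻¹ = s := by rw [mul_assoc, hαν, hbσ]
  have hbδ : b ≤ δ * α := by
    have g7' : 8 * κ * K / (δ * l) ≤ ω (1 - s) := g7
    rw [div_le_iff₀ (by positivity)] at g7'
    rw [hbd, div_le_iff₀ hσ, hαd]
    calc s = s * (8 * κ * K) / (8 * κ * K) := by field_simp
      _ ≤ s * (ω (1 - s) * (δ * l)) / (8 * κ * K) := by gcongr
      _ = δ * l * σ ^ 2 := by rw [hσ2]; field_simp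
      _ = _ := by ring
  obtain ⟨hAfd, hAfi⟩ := spiral b hb
  have hBd : DifferentiableOn ℂ (fun z => 1 - a * u z + α * V z / (1 - z)) (ball 0 1) :=
    (hAd.mono hsub).add (((hVd.mono hsub).const_mul _).div
      ((differentiableOn_const _).sub differentiableOn_id) hz1)
  have hgd : DifferentiableOn ℂ (fun z => 1 / (2 * a) * Af b (1 - a * u z + α * V z / (1 - z)) +
      (w - 1 / (2 * a))) (ball 0 1) :=
    ((hAfd.comp hBd (hBHP α hα)).const_mul _).add_const _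
  obtain ⟨G, hG0, hG⟩ := hgd.isExactOn_ball.with_val_at 0 0
  have hclose : ∀ z : ℂ, ‖z‖ ≤ 1 - s₁ → ‖1 / (2 * a) * Af b (1 - a * u z + α * V z / (1 - z)) +
      (w - 1 / (2 * a)) - (w - u z)‖ ≤ η := by
    intro z hz
    rw [hNB]
    refine xsnu_close ha hα hb hμ (hμ' z (mem_closedBall_zero_iff.2 hz))
      (hM z (mem_closedBall_zero_iff.2 (by linarith))) haM.le haη.le g3.le g4.le
      (δ := δ') (by linarith) fun W hW => ?_
    have := hδ'' (x := W) (by rwa [dist_zero_right])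
    rw [Mf_zero, dist_eq_norm] at this
    exact this.le
  refine ⟨_, G, hgd, ?_, hG0, hG, fun z hz => hclose z (by linarith), ?_, ?_⟩
  · intro z hz y hy e
    have e1 := hAfi (hBHP α hα z hz) (hBHP α hα y hy) (mul_left_cancel₀ hκ (add_right_cancel e))
    rw [hNB α z, hNB α y] at e1
    exact hi (hsub hz) (hsub hy) (xsnu_inj ha hα (hHP z hz) (hHP y hy) e1)
  · intro z hz
    rcases le_or_gt ‖z‖ (1 - s₁) with h | h
    · exact Or.inl (hclose z h)
    right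
    have hz' : ‖z‖ < 1 := mem_ball_zero_iff.1 hz
    have hn := norm_nonneg z
    have hd := xcore_one_sub z
    have hd0 : 0 < ‖1 - z‖ := by linarith
    have hBn : ‖1 - a * u z + α * V z / (1 - z)‖ ≤ L + σ / ‖1 - z‖ := by
      have i1 : ‖1 - a * u z‖ ≤ 2 := by
        refine (norm_sub_le _ _).trans ?_
        rw [norm_one, norm_mul, an]
        nlinarith [hM z (ball_subset_closedBall hz)]
      have i2 : ‖V z‖ ≤ l⁻¹ + LV * ‖1 - z‖ := by
        have j1 := (hbV z (ball_subset_closedBall hz)).2.2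
        have j2 := norm_sub_norm_le (V z) ((l⁻¹ : ℝ) : ℂ)
        rw [norm_real, Real.norm_of_nonneg (by positivity)] at j2
        linarith
      have i3 : ‖α * V z / (1 - z)‖ ≤ LV + σ / ‖1 - z‖ := by
        rw [norm_div, norm_mul, norm_real, Real.norm_of_nonneg hα.le]
        calc α * ‖V z‖ / ‖1 - z‖ ≤ α * (l⁻¹ + LV * ‖1 - z‖) / ‖1 - z‖ := by gcongr
          _ = α * LV + α * l⁻¹ / ‖1 - z‖ := by field_simp; ring
          _ ≤ 1 * LV + σ / ‖1 - z‖ := by rw [hαν]; gcongr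
          _ = _ := by ring
      linarith [norm_add_le (1 - a * u z) (α * V z / (1 - z))]
    have k1 := xsnu_up hb hσ (s := 1 - ‖z‖) (by linarith) hd hL0.le (hBHP α hα z hz) hBn
    rw [← hK, hbσ] at k1
    have k2 := xsnu_reg hω (s := 1 - ‖z‖) (t := s) (by linarith) (by linarith) hs g8.le
    rw [sub_sub_cancel] at k2
    have hmx : 0 < max (1 - ‖z‖) s := lt_max_of_lt_right hs
    have k3 : κ * K * (2 * σ ^ 2 / max (1 - ‖z‖) s) ≤ ω ‖z‖ / 4 := by
      rw [hσ2]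
      calc κ * K * (2 * (s * ω (1 - s) / (8 * κ * K)) / max (1 - ‖z‖) s)
          = s * ω (1 - s) / (4 * max (1 - ‖z‖) s) := by field_simp; ring
        _ ≤ max (1 - ‖z‖) s * ω ‖z‖ / (4 * max (1 - ‖z‖) s) := by gcongr
        _ = _ := by field_simp
    have k4 : ω 0 ≤ ω ‖z‖ := hω.1 ⟨le_rfl, one_pos⟩ ⟨hn, hz'⟩ hn
    have k5 : (1 - ‖z‖) * (c₁ + κ * K * (2 * L ^ 2)) ≤ s₁ * (c₁ + κ * K * (2 * L ^ 2)) := by
      gcongr
      linarith
    calc (1 - ‖z‖) * ‖1 / (2 * a) * Af b (1 - a * u z + α * V z / (1 - z)) + (w - 1 / (2 * a))‖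
        ≤ (1 - ‖z‖) * (κ * ‖Af b (1 - a * u z + α * V z / (1 - z))‖ + c₁) := by
          refine mul_le_mul_of_nonneg_left ((norm_add_le _ _).trans ?_) (by linarith)
          rw [norm_mul, n2]
      _ = κ * ((1 - ‖z‖) * ‖Af b (1 - a * u z + α * V z / (1 - z))‖) + (1 - ‖z‖) * c₁ := by ring
      _ ≤ κ * (K * (2 * (1 - ‖z‖) * L ^ 2 + L * σ + 2 * σ ^ 2 / max (1 - ‖z‖) s)) +
          (1 - ‖z‖) * c₁ := by gcongr
      _ = (1 - ‖z‖) * (c₁ + κ * K * (2 * L ^ 2)) + κ * K * (L * σ) +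
          κ * K * (2 * σ ^ 2 / max (1 - ‖z‖) s) := by ring
      _ ≤ ω ‖z‖ / 2 := by linarith
  · obtain ⟨z, hz0, k1, k2, k3⟩ := hcore α b hα g1.le hb hbδ G hG0 hG
    rw [hbαν] at k1 k2
    rw [n2] at k3
    have hms : 0 < m * s := by positivity
    have hn := norm_nonneg z
    refine ⟨z, by linarith, by linarith, hz0, ?_⟩
    have k4 := xsnu_reg hω (s := s) (t := 1 - ‖z‖) hs g8.le (by linarith) (by linarith)
    rw [sub_sub_cancel] at k4
    have hωz : 0 < ω ‖z‖ := hω.pos ⟨hn, by linarith⟩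
    have k5 : m * ω ‖z‖ ≤ ω (1 - s) := by
      rcases le_total s (1 - ‖z‖) with e | e
      · rw [max_eq_right e] at k4
        have := le_of_mul_le_mul_left k4 (by linarith)
        nlinarith
      · rw [max_eq_left e] at k4
        have : s * (m * ω ‖z‖) ≤ s * ω (1 - s) := by nlinarith
        exact le_of_mul_le_mul_left this hs
    generalize ‖1 / (2 * (a : ℂ)) * Af b (1 - a * u z + α * V z / (1 - z)) +
      (w - 1 / (2 * a))‖ = X at k3 ⊢
    have k6 : μ₀ * κ / b ^ 2 ≤ X := by rwa [div_le_iff₀' (by positivity)]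
    calc m ^ 2 * μ₀ / (8 * K) * ω ‖z‖ = m * μ₀ / (8 * K) * (m * ω ‖z‖) := by ring
      _ ≤ m * μ₀ / (8 * K) * ω (1 - s) := by gcongr
      _ = m * s * (μ₀ * κ / b ^ 2) := by
        rw [hbd, div_pow, hσ2]
        field_simp
      _ ≤ (1 - ‖z‖) * X := by
        gcongr
        linarith

end Pool.Agent.MP_32357e_an.H
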