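import Pool.Agent.Mg.F32357ep.Gc2ad41
import Pool.Agent.Mg.F32357ep.G406ad8

set_option linter.all false

section

/-! Change of variables for the logarithmic area, and the logarithmic area of an annulus. -/

set_option autoImplicit false

open Complex Set Filter Topology Metric MeasureTheory

namespace Pool.Agent.MP_32357e_an.H

lemma xlogcv_det (a : ℂ) :
    ((ContinuousLinearMap.toSpanSingleton ℂ a).restrictScalars ℝ).det = ‖a‖ ^ 2 := by
  rw [ContinuousLinearMap.det, ← LinearMap.det_toMatrix basisOneI, Matrix.det_fin_two]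
  simp only [LinearMap.toMatrix_apply, ContinuousLinearMap.coe_coe, coe_basisOneI,
    coe_basisOneI_repr, Complex.sq_norm, normSq_apply]
  simp

theorem logCV : LogCVStmt := by
  intro φ A hA hd hi
  have h1 : ∀ z ∈ A, HasFDerivWithinAt φ
      ((ContinuousLinearMap.toSpanSingleton ℂ (deriv φ z)).restrictScalars ℝ) A z := fun z hz =>
    ((hd.differentiableAt (hA.mem_nhds hz)).hasDerivAt.hasFDerivAt.restrictScalars
      ℝ).hasFDerivWithinAt
  rw [lintegral_image_eq_lintegral_abs_det_fderiv_mul volume hA.measurableSet h1 hi]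
  refine lintegral_congr fun z => ?_
  rw [xlogcv_det, abs_of_nonneg (by positivity), ← ENNReal.ofReal_mul (by positivity), norm_div,
    div_pow, mul_one_div]

theorem logAnn : LogAnnStmt := by
  intro ρ h0 h1
  have h2 : ρ ≤ 1 / ρ := h1.trans (one_le_one_div h0 h1)
  have h3 : 0 < 1 / ρ := by positivity
  have Am : MeasurableSet {w : ℂ | ρ ≤ ‖w‖ ∧ ‖w‖ ≤ 1 / ρ} :=
    ((isClosed_le continuous_const continuous_norm).inter
      (isClosed_le continuous_norm continuous_const)).measurableSet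
  have tm : MeasurableSet (polarCoord.target) := polarCoord.open_target.measurableSet
  have c1 : ContinuousOn (fun t : ℝ => 1 / t) (Icc ρ (1 / ρ)) :=
    continuousOn_const.div continuousOn_id fun t ht => (h0.trans_le ht.1).ne'
  have m1 : Measurable ((Icc ρ (1 / ρ)).indicator fun t : ℝ => ENNReal.ofReal (1 / t)) :=
    (measurable_const.div measurable_id).ennreal_ofReal.indicator measurableSet_Icc
  have hl : 0 ≤ Real.log (1 / ρ) := Real.log_nonneg (one_le_one_div h0 h1)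
  calc _ ≤ ∫⁻ p in Ioi (0 : ℝ) ×ˢ Ioo (-Real.pi) Real.pi,
        (Icc ρ (1 / ρ)).indicator (fun t : ℝ => ENNReal.ofReal (1 / t)) p.1 * 1 := by
        rw [← lintegral_indicator Am, ← Complex.lintegral_comp_polarCoord_symm]
        refine setLIntegral_mono' tm fun p hp => ?_
        have p1 : 0 < p.1 := hp.1
        have e : ‖Complex.polarCoord.symm p‖ = p.1 := by
          rw [Complex.norm_polarCoord_symm, abs_of_pos p1]
        by_cases hw : Complex.polarCoord.symm p ∈ {w : ℂ | ρ ≤ ‖w‖ ∧ ‖w‖ ≤ 1 / ρ}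
        · have hw' : p.1 ∈ Icc ρ (1 / ρ) := by rw [← e]; exact hw
          rw [indicator_of_mem hw, indicator_of_mem hw', smul_eq_mul, ← ENNReal.ofReal_mul p1.le, e,
            mul_one]
          apply le_of_eq
          congr 1
          field_simp
        · rw [indicator_of_notMem hw, smul_zero]; exact zero_le
    _ = (∫⁻ t in Ioi (0 : ℝ), (Icc ρ (1 / ρ)).indicator (fun t : ℝ => ENNReal.ofReal (1 / t)) t) *
        ∫⁻ _ in Ioo (-Real.pi) Real.pi, 1 := by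
        rw [Measure.volume_eq_prod, ← Measure.prod_restrict]
        exact lintegral_prod_mul (g := fun _ => 1) m1.aemeasurable aemeasurable_const
    _ ≤ ENNReal.ofReal (2 * Real.log (1 / ρ)) * ENNReal.ofReal (2 * Real.pi) := by
        refine mul_le_mul' ((setLIntegral_le_lintegral _ _).trans (le_of_eq ?_)) (le_of_eq ?_)
        · rw [lintegral_indicator measurableSet_Icc, ← ofReal_integral_eq_lintegral_ofReal
            c1.integrableOn_Icc, integral_Icc_eq_integral_Ioc, ← intervalIntegral.integral_of_le h2,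
            integral_one_div_of_pos h0 h3, Real.log_div h3.ne' h0.ne', one_div, Real.log_inv]
          · congr 1
            ring
          · refine (ae_restrict_iff' measurableSet_Icc).2 (Eventually.of_forall fun s hs => ?_)
            exact (one_div_pos.2 (h0.trans_le hs.1)).le
        · rw [setLIntegral_one, Real.volume_Ioo]
          congr 1
          ring
    _ = _ := by
        rw [← ENNReal.ofReal_mul (by positivity)]
        congr 1
        ring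

end Pool.Agent.MP_32357e_an.H

end

section

/-! Part A: reduction to the half-plane. -/

set_option autoImplicit false

open Complex Set Filter Topology Metric

namespace Pool.Agent.MP_32357e_an.H

lemma xparta_omit {f : ℂ → ℂ} (hf : DifferentiableOn ℂ f (ball 0 1)) (hi : InjOn f (ball 0 1)) :
    ∃ w : ℂ, ∀ z ∈ ball (0 : ℂ) 1, f z ≠ w := by
  by_contra hcon
  push Not at hcon
  obtain ⟨g, hg, hgf⟩ := Pool.Agent.MP_1a2790_an.exists_inverse isOpen_ball hf hi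
  have huniv : f '' ball 0 1 = univ := by
    refine eq_univ_of_forall fun w => ?_
    obtain ⟨z, hz, hw⟩ := hcon w
    exact ⟨z, hz, hw⟩
  rw [huniv, differentiableOn_univ] at hg
  have hb : Bornology.IsBounded (range g) := by
    refine (isBounded_ball (x := (0 : ℂ)) (r := 1)).subset ?_
    rintro _ ⟨w, rfl⟩
    obtain ⟨z, hz, rfl⟩ := hcon w
    rw [hgf z hz]
    exact hz
  have h := hg.apply_eq_apply_of_bounded hb (f 0) (f (1 / 2))
  have h0 : (0 : ℂ) ∈ ball (0 : ℂ) 1 := mem_ball_self one_pos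
  have h1 : (1 / 2 : ℂ) ∈ ball (0 : ℂ) 1 := by
    rw [mem_ball_zero_iff]
    norm_num
  rw [hgf _ h0, hgf _ h1] at h
  norm_num at h

lemma xparta_ne {v : ℂ} (hv : v ∈ HP) : 1 + v ≠ 0 := by
  intro h
  have h2 := congrArg Complex.re h
  have h3 : 0 < v.re := hv
  simp at h2
  linarith

lemma xparta_sq {ξ v : ℂ} (hξ : ‖ξ‖ = 1) (hv : v ∈ HP) :
    0 < 1 - ‖ξ * (1 - v) / (1 + v)‖ ^ 2 ∧ 1 - ‖ξ * (1 - v) / (1 + v)‖ ^ 2 ≤ 4 * v.re := by
  have h3 : 0 < v.re := hv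
  have e : ‖ξ * (1 - v) / (1 + v)‖ ^ 2 =
      ((1 - v.re) ^ 2 + v.im ^ 2) / ((1 + v.re) ^ 2 + v.im ^ 2) := by
    rw [norm_div, norm_mul, hξ, one_mul, div_pow, Complex.sq_norm, Complex.sq_norm,
      normSq_apply, normSq_apply]
    simp only [sub_re, one_re, sub_im, one_im, add_re, add_im]
    ring
  have hD : 1 ≤ (1 + v.re) ^ 2 + v.im ^ 2 := by nlinarith [sq_nonneg v.im]
  have hD0 : 0 < (1 + v.re) ^ 2 + v.im ^ 2 := by linarith
  have e2 : 1 - ‖ξ * (1 - v) / (1 + v)‖ ^ 2 = 4 * v.re / ((1 + v.re) ^ 2 + v.im ^ 2) := by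
    rw [e]
    field_simp
    ring
  rw [e2]
  refine ⟨by positivity, ?_⟩
  exact div_le_self (by positivity) hD

lemma xparta_mem {ξ v : ℂ} (hξ : ‖ξ‖ = 1) (hv : v ∈ HP) :
    ξ * (1 - v) / (1 + v) ∈ ball (0 : ℂ) 1 := by
  rw [mem_ball_zero_iff]
  have h := (xparta_sq hξ hv).1
  nlinarith [norm_nonneg (ξ * (1 - v) / (1 + v))]

lemma xparta_der (ξ : ℂ) {v : ℂ} (hv : v ∈ HP) :
    HasDerivAt (fun v : ℂ => ξ * (1 - v) / (1 + v)) (-2 * ξ / (1 + v) ^ 2) v := by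
  have h1 : HasDerivAt (fun v : ℂ => ξ * (1 - v)) (ξ * (-1)) v :=
    ((hasDerivAt_id v).const_sub 1).const_mul ξ
  have h2 : HasDerivAt (fun v : ℂ => 1 + v) 1 v := (hasDerivAt_id v).const_add 1
  refine (h1.div h2 (xparta_ne hv)).congr_deriv ?_
  ring

lemma xparta_add_ne {ξ z : ℂ} (hξ : ‖ξ‖ = 1) (hz : ‖z‖ < 1) : ξ + z ≠ 0 := by
  intro h
  have : z = -ξ := by linear_combination h
  rw [this, norm_neg, hξ] at hz
  exact lt_irrefl _ hz

lemma xparta_inv_mem {ξ z : ℂ} (hξ : ‖ξ‖ = 1) (hz : ‖z‖ < 1) : (ξ - z) / (ξ + z) ∈ HP := by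
  have hne := xparta_add_ne hξ hz
  have hN : 0 < normSq (ξ + z) := normSq_pos.2 hne
  have h1 : normSq ξ = 1 := by rw [← Complex.sq_norm, hξ]; norm_num
  have h2 : normSq z < 1 := by
    rw [← Complex.sq_norm]
    nlinarith [norm_nonneg z]
  rw [normSq_apply] at h1 h2
  rw [mem_HP, div_re, ← add_div]
  refine div_pos ?_ hN
  simp only [sub_re, add_re, sub_im, add_im]
  nlinarith

lemma xparta_inv {ξ z : ℂ} (hξ : ‖ξ‖ = 1) (hz : ‖z‖ < 1) :
    ξ * (1 - (ξ - z) / (ξ + z)) / (1 + (ξ - z) / (ξ + z)) = z := by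
  have hne := xparta_add_ne hξ hz
  have h0 : ξ ≠ 0 := by
    intro h
    rw [h, norm_zero] at hξ
    exact zero_ne_one hξ
  have e1 : 1 - (ξ - z) / (ξ + z) = 2 * z / (ξ + z) := by
    field_simp
    ring
  have e2 : 1 + (ξ - z) / (ξ + z) = 2 * ξ / (ξ + z) := by
    field_simp
    ring
  rw [e1, e2]
  field_simp

theorem partA (h1 : KoebeStmt) (h2 : BlowStmt) : PartAStmt := by
  intro f F hf hi hF c hc
  by_contra hcon
  push Not at hcon
  obtain ⟨w₀, hw₀⟩ := xparta_omit hf hi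
  have hR : ∀ n : ℕ, 1 - 1 / ((n : ℝ) + 1) < 1 := fun n => by
    have : (0 : ℝ) < 1 / ((n : ℝ) + 1) := by positivity
    linarith
  choose z hz1 hz2 hz3 using fun n : ℕ => hcon _ (hR n)
  obtain ⟨ξ, -, φ, hφ, hlim⟩ := (isCompact_closedBall (0 : ℂ) 1).tendsto_subseq (x := z)
    (fun n => mem_closedBall_zero_iff.2 (hz2 n).le)
  have hξ : ‖ξ‖ = 1 := by
    have ha : Tendsto (fun n => ‖z n‖) atTop (𝓝 1) := by
      have hl : Tendsto (fun n : ℕ => 1 - 1 / ((n : ℝ) + 1)) atTop (𝓝 1) := by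
        simpa using (tendsto_one_div_add_atTop_nhds_zero_nat (𝕜 := ℝ)).const_sub 1
      exact tendsto_of_tendsto_of_tendsto_of_le_of_le hl tendsto_const_nhds
        (fun n => (hz1 n).le) (fun n => (hz2 n).le)
    exact tendsto_nhds_unique hlim.norm (ha.comp hφ.tendsto_atTop)
  have h0 : ξ ≠ 0 := by
    intro h
    rw [h, norm_zero] at hξ
    exact zero_ne_one hξ
  set m : ℂ → ℂ := fun v => ξ * (1 - v) / (1 + v) with hm
  have hmd : DifferentiableOn ℂ m HP := fun v hv =>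
    (xparta_der ξ hv).differentiableAt.differentiableWithinAt
  have hmm : MapsTo m HP (ball 0 1) := fun v hv => xparta_mem hξ hv
  have hmi : InjOn m HP := by
    intro a ha b hb hab
    simp only [hm] at hab
    rw [div_eq_div_iff (xparta_ne ha) (xparta_ne hb)] at hab
    have : ξ * (2 * (b - a)) = 0 := by linear_combination hab
    rcases mul_eq_zero.1 this with h | h
    · exact absurd h h0
    · linear_combination (-1 / 2 : ℂ) * h
  have hgd : DifferentiableOn ℂ (fun v => f (m v) - w₀) HP := (hf.comp hmd hmm).sub_const w₀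
  have hgi : InjOn (fun v => f (m v) - w₀) HP := by
    intro a ha b hb hab
    have : f (m a) = f (m b) := by linear_combination hab
    exact hmi ha hb (hi (hmm ha) (hmm hb) this)
  have hK := h1 _ hgd hgi (fun v hv => sub_ne_zero.2 (hw₀ _ (hmm hv)))
  refine h2 (fun v => f (m v) - w₀) (fun v => F (m v) / ξ) w₀ (c / 16)
    (fun n => (ξ - z (φ n)) / (ξ + z (φ n))) hgd hK ?_ (by positivity)
    (fun n => xparta_inv_mem hξ (hz2 _)) ?_ ?_
  · intro u hu
    refine (((hF _ (hmm hu)).comp u (xparta_der ξ hu)).div_const ξ).congr_deriv ?_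
    have := xparta_ne hu
    simp only [hm]
    field_simp
    ring
  · have hne : ξ + ξ ≠ 0 := by
      intro h
      exact h0 (by linear_combination (1 / 2 : ℂ) * h)
    have := (hlim.const_sub ξ).div (hlim.const_add ξ) hne
    rw [sub_self, zero_div] at this
    exact this
  · intro n
    have hv := xparta_inv_mem hξ (hz2 (φ n))
    have e : m ((ξ - z (φ n)) / (ξ + z (φ n))) = z (φ n) := xparta_inv hξ (hz2 _)
    have hs := xparta_sq hξ hv
    rw [xparta_inv hξ (hz2 _)] at hs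
    simp only [e, sub_add_cancel, norm_div, hξ, div_one]
    have h3 := hz3 (φ n)
    rw [le_div_iff₀ (by positivity)] at h3
    have h4 : (1 - ‖z (φ n)‖ ^ 2) ^ 2 ≤ (4 * ((ξ - z (φ n)) / (ξ + z (φ n))).re) ^ 2 :=
      pow_le_pow_left₀ hs.1.le hs.2 2
    have h5 := mul_le_mul_of_nonneg_right h4 (norm_nonneg (f (z (φ n))))
    nlinarith

end Pool.Agent.MP_32357e_an.H

end

section

/-! The spiralling map is univalent in the half-plane. -/

set_option autoImplicit false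

open Complex Set Filter Topology Metric

namespace Pool.Agent.MP_32357e_an.H

lemma xspiral_convex : Convex ℝ {s : ℂ | |s.im| < Real.pi / 2} := by
  have h : {s : ℂ | |s.im| < Real.pi / 2}
      = {s : ℂ | -(Real.pi / 2) < s.im} ∩ {s : ℂ | s.im < Real.pi / 2} := by
    ext s
    simp [abs_lt]
  rw [h]
  exact (convex_halfSpace_im_gt _).inter (convex_halfSpace_im_lt _)

lemma xspiral_re {b : ℝ} (hb : 0 < b) {s : ℂ} (hs : |s.im| < Real.pi / 2) :
    0 < ((b : ℂ) * exp s).re := by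
  rw [re_ofReal_mul, exp_re]
  have := Real.cos_pos_of_mem_Ioo (x := s.im) (abs_lt.1 hs)
  have := Real.exp_pos s.re
  positivity

/-- The logarithm of the spiralling map minus the identity, in the strip. -/
noncomputable def xspiral_psi (b : ℝ) (s : ℂ) : ℂ :=
  s + (I - 1) * log (1 + (1 + I) * (b * exp s))

/-- Its derivative. -/
noncomputable def xspiral_d (b : ℝ) (s : ℂ) : ℂ :=
  (1 + (I - 1) * (b * exp s)) / (1 + (1 + I) * (b * exp s))

lemma xspiral_deriv {b : ℝ} (hb : 0 < b) {s : ℂ} (hs : |s.im| < Real.pi / 2) :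
    HasDerivAt (xspiral_psi b) (xspiral_d b s) s := by
  have h0 := (xspiral_re hb hs).le
  have h1 := (hasDerivAt_lg h0).comp s ((hasDerivAt_exp s).const_mul (b : ℂ))
  have h2 := (hasDerivAt_id s).add (h1.const_mul (I - 1))
  have hne := slitPlane_ne_zero (slit_of_re_nonneg h0)
  refine HasDerivAt.congr_deriv h2 ?_
  rw [xspiral_d]
  generalize (b : ℂ) * exp s = W at hne
  rw [eq_div_iff hne, add_mul, mul_assoc, mul_right_comm, div_mul_cancel₀ _ hne]
  linear_combination W * I_mul_I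

lemma xspiral_lt {b : ℝ} (hb : 0 < b) {s : ℂ} (hs : |s.im| < Real.pi / 2) :
    ‖xspiral_d b s‖ < 1 := by
  have h0 := xspiral_re hb hs
  have hne := slitPlane_ne_zero (slit_of_re_nonneg h0.le)
  rw [xspiral_d, norm_div, div_lt_one (norm_pos_iff.2 hne)]
  generalize (b : ℂ) * exp s = W at h0
  apply lt_of_pow_lt_pow_left₀ 2 (norm_nonneg _)
  rw [Complex.sq_norm, Complex.sq_norm, normSq_apply, normSq_apply]
  simp
  nlinarith

lemma xspiral_cont {b : ℝ} (hb : 0 < b) {s : ℂ} (hs : |s.im| < Real.pi / 2) :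
    ContinuousAt (xspiral_d b) s := by
  have hne := slitPlane_ne_zero (slit_of_re_nonneg (xspiral_re hb hs).le)
  unfold xspiral_d
  exact ContinuousAt.div (by fun_prop) (by fun_prop) hne

lemma xspiral_exp (b : ℝ) {u : ℂ} (hu : u ≠ 0) :
    exp (log u + xspiral_psi b (log u)) = Af b u := by
  rw [xspiral_psi, exp_add, exp_add, exp_log hu, Af, Mf]
  ring

theorem spiral : SpiralStmt := by
  intro b hb
  constructor
  · intro u hu
    have h0 : 0 ≤ ((b : ℂ) * u).re := by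
      rw [re_ofReal_mul]
      exact mul_nonneg hb.le (le_of_lt hu)
    have h1 : DifferentiableAt ℂ (fun u : ℂ => Mf (b * u)) u :=
      (differentiableAt_Mf h0).comp u (by fun_prop)
    exact ((differentiableAt_id.pow 2).mul h1).differentiableWithinAt
  · intro u hu v hv e
    have hu0 : u ≠ 0 := by
      rintro rfl
      simp [HP] at hu
    have hv0 : v ≠ 0 := by
      rintro rfl
      simp [HP] at hv
    have hs : |(log u).im| < Real.pi / 2 := by
      rw [log_im]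
      exact abs_arg_lt_pi_div_two_iff.2 (Or.inl hu)
    have ht : |(log v).im| < Real.pi / 2 := by
      rw [log_im]
      exact abs_arg_lt_pi_div_two_iff.2 (Or.inl hv)
    rw [← xspiral_exp b hu0, ← xspiral_exp b hv0, exp_eq_exp_iff_exists_int] at e
    obtain ⟨k, hk⟩ := e
    suffices h : log u = log v by rw [← exp_log hu0, h, exp_log hv0]
    generalize log u = s at hs hk
    generalize log v = t at ht hk
    have hsub : segment ℝ s t ⊆ {s : ℂ | |s.im| < Real.pi / 2} :=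
      xspiral_convex.segment_subset hs ht
    have hc : IsCompact (segment ℝ s t) := by
      rw [segment_eq_image]
      exact isCompact_Icc.image (by fun_prop)
    obtain ⟨x, hx, hmax⟩ := hc.exists_isMaxOn ⟨s, left_mem_segment ℝ s t⟩
      (f := fun x => ‖xspiral_d b x‖)
      (fun y hy => (xspiral_cont hb (hsub hy)).norm.continuousWithinAt)
    have hθ := xspiral_lt hb (hsub hx)
    have h1 := (convex_segment s t).norm_image_sub_le_of_norm_hasDerivWithin_le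
      (f := xspiral_psi b) (f' := xspiral_d b)
      (fun y hy => (xspiral_deriv hb (hsub hy)).hasDerivWithinAt) (fun y hy => hmax hy)
      (right_mem_segment ℝ s t) (left_mem_segment ℝ s t)
    have h2 : xspiral_psi b s - xspiral_psi b t = k * (2 * Real.pi * I) - (s - t) := by
      linear_combination hk
    rw [h2] at h1
    have hd : |(s - t).im| < Real.pi := by
      rw [sub_im]
      have := abs_sub s.im t.im
      linarith
    rw [← sub_eq_zero]
    generalize s - t = d at h1 hd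
    by_cases hk0 : k = 0
    · rw [hk0] at h1
      simp only [Int.cast_zero, zero_mul, zero_sub, norm_neg] at h1
      by_contra hne
      have := norm_pos_iff.2 hne
      nlinarith
    · exfalso
      have h3 : ‖k * (2 * Real.pi * I) - d‖ ≤ ‖d‖ := by nlinarith [norm_nonneg d]
      have h4 := pow_le_pow_left₀ (norm_nonneg _) h3 2
      rw [Complex.sq_norm, Complex.sq_norm, normSq_apply, normSq_apply] at h4
      simp at h4
      have h5 : (1 : ℝ) ≤ |(k : ℝ)| := by exact_mod_cast Int.one_le_abs hk0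
      have hpi := Real.pi_pos
      have h6 : (k : ℝ) * d.im ≤ |(k : ℝ)| * |d.im| := by
        rw [← abs_mul]
        exact le_abs_self _
      have h7 : (k : ℝ) ^ 2 = |(k : ℝ)| ^ 2 := (sq_abs _).symm
      have h8 : |(k : ℝ)| * |d.im| < |(k : ℝ)| * Real.pi := by gcongr
      have h9 : Real.pi * ((k : ℝ) ^ 2 * Real.pi) ≤ Real.pi * ((k : ℝ) * d.im) := by nlinarith
      have h10 := le_of_mul_le_mul_left h9 hpi
      rw [h7] at h10
      have h11 : |(k : ℝ)| * Real.pi ≤ |(k : ℝ)| ^ 2 * Real.pi := by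
        gcongr
        nlinarith
      linarith

end Pool.Agent.MP_32357e_an.H

end

section

/-! The two parts, unconditionally. -/

set_option autoImplicit false

namespace Pool.Agent.MP_32357e_an.H

theorem partA_holds : PartAStmt :=
  partA (koebe (be logLB logCV logAnn)) (blow mono (lim mono rigid))

theorem partB_holds : PartBStmt := partB (step (stepN spiral core))

end Pool.Agent.MP_32357e_an.H

end

section

/-! Statements for the version with a prescribed majorant. -/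

set_option autoImplicit false

open Complex Set Filter Topology Metric

namespace Pool.Agent.MP_32357e_an.H

/-- Regular majorants between bounded growth and the order `1 / (1 - t)`. -/
def Reg (ω : ℝ → ℝ) : Prop :=
  MonotoneOn ω (Ico 0 1) ∧ AntitoneOn (fun t => (1 - t) * ω t) (Ico 0 1) ∧
    Tendsto ω (𝓝[<] 1) atTop ∧ Tendsto (fun t => (1 - t) * ω t) (𝓝[<] 1) (𝓝 0)

lemma Reg.pos {ω : ℝ → ℝ} (h : Reg ω) {t : ℝ} (ht : t ∈ Ico (0 : ℝ) 1) : 0 < ω t := by
  obtain ⟨-, h2, h3, -⟩ := h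
  obtain ⟨s, hs, hs2⟩ := ((h3.eventually_gt_atTop 0).and (Ioo_mem_nhdsLT ht.2)).exists
  have h4 := h2 ht ⟨ht.1.trans hs2.1.le, hs2.2⟩ hs2.1.le
  have h5 : 0 < (1 - s) * ω s := mul_pos (by linarith [hs2.2]) hs
  exact (pos_iff_pos_of_mul_pos (h5.trans_le h4)).1 (by linarith [ht.2])

/-- Zero of the primitive, two scales. -/
def CoreUStmt : Prop :=
  ∃ m K μ : ℝ, 0 < m ∧ m ≤ 1 ∧ 0 < K ∧ 0 < μ ∧
    ∀ (A V : ℂ → ℂ) (R₀ ν : ℝ) (κ c₁ : ℂ), 1 < R₀ → 0 < ν → κ ≠ 0 →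
      DifferentiableOn ℂ A (ball 0 R₀) → DifferentiableOn ℂ V (ball 0 R₀) → V 1 = ν →
      (∀ α : ℝ, 0 < α → ∀ z ∈ ball (0 : ℂ) 1, A z + α * V z / (1 - z) ∈ HP) →
      ∃ δ : ℝ, 0 < δ ∧ ∀ α b : ℝ, 0 < α → α ≤ δ → 0 < b → b ≤ δ * α → ∀ G : ℂ → ℂ, G 0 = 0 →
        (∀ z ∈ ball (0 : ℂ) 1, HasDerivAt G (κ * Af b (A z + α * V z / (1 - z)) + c₁) z) →
        ∃ z : ℂ, G z = 0 ∧ m * (b * α * ν) ≤ 1 - ‖z‖ ∧ 1 - ‖z‖ ≤ K * (b * α * ν) ∧
          μ * ‖κ‖ ≤ b ^ 2 * ‖κ * Af b (A z + α * V z / (1 - z)) + c₁‖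

/-- One step with a majorant, normalised. -/
def StepNUStmt (c : ℝ) : Prop :=
  ∀ ω : ℝ → ℝ, Reg ω → ∀ (u : ℂ → ℂ) (R₀ : ℝ) (w : ℂ), 1 < R₀ →
    DifferentiableOn ℂ u (ball 0 R₀) → InjOn u (ball 0 R₀) → u 1 = 0 →
    (∀ z ∈ ball (0 : ℂ) 1, u z ∈ HP) → ∀ r η : ℝ, r < 1 → 0 < η → ∃ g G : ℂ → ℂ,
      DifferentiableOn ℂ g (ball 0 1) ∧ InjOn g (ball 0 1) ∧ G 0 = 0 ∧
      (∀ z ∈ ball (0 : ℂ) 1, HasDerivAt G (g z) z) ∧
      (∀ z : ℂ, ‖z‖ ≤ r → ‖g z - (w - u z)‖ ≤ η) ∧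
      (∀ z ∈ ball (0 : ℂ) 1, ‖g z - (w - u z)‖ ≤ η ∨ (1 - ‖z‖) * ‖g z‖ ≤ ω ‖z‖ / 2) ∧
      ∃ z : ℂ, r < ‖z‖ ∧ ‖z‖ < 1 ∧ G z = 0 ∧ c * ω ‖z‖ ≤ (1 - ‖z‖) * ‖g z‖

/-- One step with a majorant. -/
def StepUStmt (c : ℝ) : Prop :=
  ∀ ω : ℝ → ℝ, Reg ω → ∀ (f : ℂ → ℂ) (M : ℝ), DifferentiableOn ℂ f (ball 0 1) →
    InjOn f (ball 0 1) → 0 ≤ M → (∀ z ∈ ball (0 : ℂ) 1, (1 - ‖z‖) * ‖f z‖ ≤ ω ‖z‖ / 2 + M) →
    ∀ r η : ℝ, r < 1 → 0 < η → ∃ g G : ℂ → ℂ,
      DifferentiableOn ℂ g (ball 0 1) ∧ InjOn g (ball 0 1) ∧ G 0 = 0 ∧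
      (∀ z ∈ ball (0 : ℂ) 1, HasDerivAt G (g z) z) ∧
      (∀ z : ℂ, ‖z‖ ≤ r → ‖g z - f z‖ ≤ η) ∧
      (∀ z ∈ ball (0 : ℂ) 1, (1 - ‖z‖) * ‖g z‖ ≤ ω ‖z‖ / 2 + (M + η)) ∧
      ∃ z : ℂ, r < ‖z‖ ∧ ‖z‖ < 1 ∧ G z = 0 ∧ c * ω ‖z‖ ≤ (1 - ‖z‖) * ‖g z‖

/-- The theorem with a majorant. -/
def PartUStmt (c : ℝ) : Prop :=
  ∀ ω : ℝ → ℝ, Reg ω → ∀ f₀ : ℂ → ℂ, DifferentiableOn ℂ f₀ (ball 0 1) → InjOn f₀ (ball 0 1) →
    ∀ r η : ℝ, r < 1 → 0 < η → ∃ f F : ℂ → ℂ,
      DifferentiableOn ℂ f (ball 0 1) ∧ InjOn f (ball 0 1) ∧ F 0 = 0 ∧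
      (∀ z ∈ ball (0 : ℂ) 1, HasDerivAt F (f z) z) ∧
      (∀ z : ℂ, ‖z‖ ≤ r → ‖f z - f₀ z‖ ≤ η) ∧
      (∃ R : ℝ, R < 1 ∧ ∀ z : ℂ, R < ‖z‖ → ‖z‖ < 1 → (1 - ‖z‖) * ‖f z‖ ≤ ω ‖z‖) ∧
      ∀ R : ℝ, R < 1 → ∃ z : ℂ, R < ‖z‖ ∧ ‖z‖ < 1 ∧
        c * ω ‖z‖ ≤ (1 - ‖z‖) * ‖f z‖ / (1 + ‖F z‖ ^ 2)

end Pool.Agent.MP_32357e_an.H

end

section

/-! The zero of the primitive, with two independent small scales. -/

set_option autoImplicit false

open Complex Set Filter Topology Metric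

namespace Pool.Agent.MP_32357e_an.H

lemma xcoreu_log {h h' : ℂ → ℂ} {C₀ C : ℝ} (hC₀ : 0 ≤ C₀)
    (hd : ∀ z ∈ ball (0 : ℂ) 1, HasDerivAt h (h' z) z)
    (hb : ∀ z ∈ ball (0 : ℂ) 1, ‖h' z‖ ≤ C₀ + C / (1 - ‖z‖)) {z : ℂ} (hz : ‖z‖ < 1) :
    ‖h z - h 0‖ ≤ C₀ + C * -Real.log (1 - ‖z‖) := by
  have hn := norm_nonneg z
  have hmem : ∀ t ∈ Icc (0 : ℝ) 1, ‖(t : ℂ) * z‖ = t * ‖z‖ ∧ t * ‖z‖ < 1 := by
    intro t ht
    refine ⟨by rw [norm_mul, norm_real, Real.norm_of_nonneg ht.1], ?_⟩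
    nlinarith [ht.1, ht.2]
  have hf : ∀ t ∈ Icc (0 : ℝ) 1,
      HasDerivAt (fun t : ℝ => h (t * z) - h 0) (h' (t * z) * z) t := by
    intro t ht
    have a1 : HasDerivAt (fun w : ℂ => w * z) z (t : ℂ) := by
      simpa using (hasDerivAt_id (t : ℂ)).mul_const z
    have a2 := (hd (t * z) (by
      rw [mem_ball_zero_iff, (hmem t ht).1]; exact (hmem t ht).2)).comp (t : ℂ) a1
    exact (a2.comp_ofReal).sub_const _
  have hB : ∀ t ∈ Icc (0 : ℝ) 1,
      HasDerivAt (fun t : ℝ => C₀ * t + C * -Real.log (1 - t * ‖z‖))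
        (C₀ + C / (1 - t * ‖z‖) * ‖z‖) t := by
    intro t ht
    have a1 : HasDerivAt (fun t : ℝ => 1 - t * ‖z‖) (-‖z‖) t := by
      simpa using ((hasDerivAt_id t).mul_const ‖z‖).const_sub 1
    have a2 := ((hasDerivAt_id t).const_mul C₀).add
      (((a1.log (by linarith [(hmem t ht).2])).neg).const_mul C)
    refine HasDerivAt.congr_deriv a2 ?_
    ring
  have := image_norm_le_of_norm_deriv_right_le_deriv_boundary'
    (f := fun t : ℝ => h (t * z) - h 0) (f' := fun t : ℝ => h' (t * z) * z) (a := 0) (b := 1)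
    (fun t ht => (hf t ht).continuousAt.continuousWithinAt)
    (fun t ht => (hf t (Ico_subset_Icc_self ht)).hasDerivWithinAt)
    (B := fun t : ℝ => C₀ * t + C * -Real.log (1 - t * ‖z‖))
    (B' := fun t => C₀ + C / (1 - t * ‖z‖) * ‖z‖)
    (by simp)
    (fun t ht => (hB t ht).continuousAt.continuousWithinAt)
    (fun t ht => (hB t (Ico_subset_Icc_self ht)).hasDerivWithinAt)
    (fun t ht => by
      have ht' := hmem t (Ico_subset_Icc_self ht)
      have a1 := hb (t * z) (by rw [mem_ball_zero_iff, ht'.1]; exact ht'.2)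
      rw [ht'.1] at a1
      rw [norm_mul]
      refine (mul_le_mul_of_nonneg_right a1 hn).trans ?_
      rw [add_mul]
      nlinarith)
    (right_mem_Icc.2 zero_le_one)
  simpa using this

lemma xcoreu_approx {A V G : ℂ → ℂ} {R₀ ν L α b : ℝ} {κ c₁ : ℂ} (hR : 1 < R₀) (hν : 0 < ν)
    (hα : 0 < α) (hα1 : α ≤ 1) (hb : 0 < b) (hL : 0 < L)
    (hA : DifferentiableOn ℂ A (ball 0 R₀)) (hV : DifferentiableOn ℂ V (ball 0 R₀))
    (hB : ∀ z ∈ ball (0 : ℂ) 1, A z + α * V z / (1 - z) ∈ HP)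
    (hbA : ∀ z ∈ closedBall (0 : ℂ) 1, ‖A z‖ ≤ L ∧ ‖deriv A z‖ ≤ L)
    (hbV : ∀ z ∈ closedBall (0 : ℂ) 1, ‖V z‖ ≤ L ∧ ‖deriv V z‖ ≤ L ∧ ‖V z - ν‖ ≤ L * ‖1 - z‖)
    (hG0 : G 0 = 0)
    (hG : ∀ z ∈ ball (0 : ℂ) 1, HasDerivAt G (κ * Af b (A z + α * V z / (1 - z)) + c₁) z)
    {z : ℂ} (hz : ‖z‖ < 1) :
    ‖b * G z - κ * (α * ν) * (Pf (b * (A z + α * V z / (1 - z))) -
        Pf (b * (A 0 + α * V 0 / (1 - 0))))‖ ≤
      b * ((‖κ‖ * (2 * Real.exp Real.pi) * (L * L + ν * L) + ‖c₁‖) +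
        ‖κ‖ * (2 * Real.exp Real.pi) * (α * (3 * (L * L) + ν * L)) * -Real.log (1 - ‖z‖)) := by
  have hbc : (b : ℂ) ≠ 0 := by exact_mod_cast hb.ne'
  have key := xcoreu_log
    (h := fun z => G z - κ * (α * ν) * Pf (b * (A z + α * V z / (1 - z))) / b)
    (h' := fun z => κ * Mf (b * (A z + α * V z / (1 - z))) *
      ((A z * A z - α * ν * deriv A z) + (α * (2 * (A z * V z) - α * ν * deriv V z) / (1 - z) +
        α * α * (V z * (V z - ν)) / (1 - z) ^ 2)) + c₁)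
    (C₀ := ‖κ‖ * (2 * Real.exp Real.pi) * (L * L + ν * L) + ‖c₁‖)
    (C := ‖κ‖ * (2 * Real.exp Real.pi) * (α * (3 * (L * L) + ν * L))) (by positivity) ?_ ?_ hz
  · have e : b * G z - κ * (α * ν) * (Pf (b * (A z + α * V z / (1 - z))) -
        Pf (b * (A 0 + α * V 0 / (1 - 0)))) =
        b * ((G z - κ * (α * ν) * Pf (b * (A z + α * V z / (1 - z))) / b) -
          (G 0 - κ * (α * ν) * Pf (b * (A 0 + α * V 0 / (1 - 0))) / b)) := by
      rw [hG0]
      generalize Pf (b * (A z + α * V z / (1 - z))) = P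
      generalize Pf (b * (A 0 + α * V 0 / (1 - 0))) = Q
      field_simp
      ring
    rw [e, norm_mul, norm_real, Real.norm_of_nonneg hb.le]
    exact mul_le_mul_of_nonneg_left key hb.le
  · intro x hx
    have hx1 : ‖x‖ < 1 := mem_ball_zero_iff.1 hx
    have hne : (1 - x) ≠ 0 := norm_pos_iff.1 (by linarith [xcore_one_sub x])
    have a0 : HasDerivAt A (deriv A x) x :=
      (hA.differentiableAt (isOpen_ball.mem_nhds (ball_subset_ball hR.le hx))).hasDerivAt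
    have a1 : HasDerivAt V (deriv V x) x :=
      (hV.differentiableAt (isOpen_ball.mem_nhds (ball_subset_ball hR.le hx))).hasDerivAt
    have a2 : HasDerivAt (fun z : ℂ => 1 - z) (-1) x := by
      simpa using (hasDerivAt_id x).const_sub 1
    have a3 := (a0.add ((a1.const_mul (α : ℂ)).div a2 hne)).const_mul (b : ℂ)
    have hre : 0 ≤ ((b : ℂ) * (A x + α * V x / (1 - x))).re := by
      rw [re_ofReal_mul]
      exact mul_nonneg hb.le (le_of_lt (hB x hx))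
    have a4 := (hasDerivAt_Pf hre).comp x a3
    have a5 := (hG x hx).sub ((a4.const_mul (κ * (α * ν))).div_const (b : ℂ))
    refine HasDerivAt.congr_deriv a5 ?_
    rw [Af]
    generalize Mf (b * (A x + α * V x / (1 - x))) = P
    field_simp
    ring
  · intro x hx
    have hx1 : ‖x‖ < 1 := mem_ball_zero_iff.1 hx
    have h1 := xcore_one_sub x
    have h2 : 0 < 1 - ‖x‖ := by linarith
    have h3 : 0 < ‖1 - x‖ := by linarith
    obtain ⟨a1, a2⟩ := hbA x (ball_subset_closedBall hx)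
    obtain ⟨b1, b2, b3⟩ := hbV x (ball_subset_closedBall hx)
    have hre : 0 ≤ ((b : ℂ) * (A x + α * V x / (1 - x))).re := by
      rw [re_ofReal_mul]
      exact mul_nonneg hb.le (le_of_lt (hB x hx))
    have nα : ‖(α : ℂ)‖ = α := by rw [norm_real, Real.norm_of_nonneg hα.le]
    have nν : ‖(ν : ℂ)‖ = ν := by rw [norm_real, Real.norm_of_nonneg hν.le]
    have c0 : ‖A x * A x - α * ν * deriv A x‖ ≤ L * L + ν * L := by
      refine (norm_sub_le _ _).trans (add_le_add ?_ ?_)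
      · rw [norm_mul]
        gcongr
      · rw [norm_mul, norm_mul, nα, nν]
        calc α * ν * ‖deriv A x‖ ≤ 1 * ν * L := by gcongr
          _ = ν * L := by ring
    have c1 : ‖α * α * (V x * (V x - ν)) / (1 - x) ^ 2‖ ≤ α * (L * L) / (1 - ‖x‖) := by
      rw [norm_div, norm_mul, norm_mul, norm_mul, norm_pow, nα]
      calc α * α * (‖V x‖ * ‖V x - ν‖) / ‖1 - x‖ ^ 2
          ≤ α * 1 * (L * (L * ‖1 - x‖)) / ‖1 - x‖ ^ 2 := by gcongr
        _ = α * (L * L) / ‖1 - x‖ := by field_simp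
        _ ≤ α * (L * L) / (1 - ‖x‖) := by gcongr
    have c2 : ‖α * (2 * (A x * V x) - α * ν * deriv V x) / (1 - x)‖ ≤
        α * (2 * (L * L) + ν * L) / (1 - ‖x‖) := by
      rw [norm_div, norm_mul, nα]
      gcongr
      refine (norm_sub_le _ _).trans (add_le_add ?_ ?_)
      · rw [norm_mul, norm_mul, Complex.norm_two]
        gcongr
      · rw [norm_mul, norm_mul, nα, nν]
        calc α * ν * ‖deriv V x‖ ≤ 1 * ν * L := by gcongr
          _ = ν * L := by ring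
    have c4 : ‖(A x * A x - α * ν * deriv A x) +
        (α * (2 * (A x * V x) - α * ν * deriv V x) / (1 - x) +
        α * α * (V x * (V x - ν)) / (1 - x) ^ 2)‖ ≤
        (L * L + ν * L) + α * (3 * (L * L) + ν * L) / (1 - ‖x‖) := by
      refine (norm_add_le _ _).trans (add_le_add c0 ((norm_add_le _ _).trans
        ((add_le_add c2 c1).trans_eq ?_)))
      ring
    have c5 := xcore_norm_Mf hre
    refine (norm_add_le _ _).trans ?_
    rw [norm_mul, norm_mul]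
    calc _ ≤ ‖κ‖ * (2 * Real.exp Real.pi) *
          ((L * L + ν * L) + α * (3 * (L * L) + ν * L) / (1 - ‖x‖)) + ‖c₁‖ := by gcongr
      _ = _ := by ring

theorem coreU : CoreUStmt := by
  obtain ⟨ρ, m, hρ, hm, hρ1, hs⟩ := xcore_sphere
  obtain ⟨μ, hμ, hμ1⟩ := xcore_mu hρ hρ1
  have hp := xcore_W0_re
  set p : ℝ := W0.re with hpd
  set T : ℝ := ‖W0‖ + ρ with hT
  have hT0 : 0 < T := by positivity
  set m2 : ℝ := p / (2 * T ^ 2) with hm2
  have hm20 : 0 < m2 := by positivity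
  refine ⟨min 1 (m2 / 2), 2 / p, μ / 2, lt_min one_pos (by positivity), min_le_left _ _,
    by positivity, by positivity, ?_⟩
  intro A V R₀ ν κ c₁ hR hν hκ hA hV hV1 hB
  obtain ⟨LA, hLA, hbA⟩ := xcore_bounds hR hA
  obtain ⟨LV, hLV, hbV⟩ := xcore_bounds hR hV
  rw [hV1] at hbV
  set L : ℝ := LA + LV with hLd
  have hL : 0 < L := by positivity
  replace hbA : ∀ z ∈ closedBall (0 : ℂ) 1, ‖A z‖ ≤ L ∧ ‖deriv A z‖ ≤ L := fun z hz =>
    ⟨by linarith [(hbA z hz).1], by linarith [(hbA z hz).2.1]⟩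
  replace hbV : ∀ z ∈ closedBall (0 : ℂ) 1,
      ‖V z‖ ≤ L ∧ ‖deriv V z‖ ≤ L ∧ ‖V z - ν‖ ≤ L * ‖1 - z‖ := fun z hz =>
    ⟨by linarith [(hbV z hz).1], by linarith [(hbV z hz).2.1],
      (hbV z hz).2.2.trans (by gcongr; linarith)⟩
  have hκ0 : 0 < ‖κ‖ := norm_pos_iff.2 hκ
  set K : ℝ := 2 * Real.exp Real.pi with hK
  have hK0 : 0 < K := by positivity
  set C₀ : ℝ := ‖κ‖ * K * (L * L + ν * L) + ‖c₁‖ with hC₀
  have hC00 : 0 < C₀ := by positivity
  set C : ℝ := 3 * (L * L) + ν * L with hC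
  have hC0 : 0 < C := by positivity
  have ev : ∀ {φ : ℝ → ℝ} {t : ℝ}, Continuous φ → φ 0 < t → ∀ᶠ b in 𝓝 (0 : ℝ), φ b < t :=
    fun hφ h => hφ.continuousAt.eventually_lt continuousAt_const h
  have e0 : ∀ᶠ t in 𝓝 (0 : ℝ), t < 1 := ev (by fun_prop) one_pos
  have e1 : ∀ᶠ t in 𝓝 (0 : ℝ), t * ν < p / 2 := ev (by fun_prop) (by simpa using hp)
  have e3 : ∀ᶠ t in 𝓝 (0 : ℝ), 2 * L * t < ρ := ev (by fun_prop) (by simpa using hρ)
  have e4 : ∀ᶠ t in 𝓝 (0 : ℝ), t * ‖c₁‖ < ‖κ‖ * μ / 2 :=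
    ev (by fun_prop) (by simpa using by positivity)
  have e5 : ∀ᶠ t in 𝓝 (0 : ℝ), K * (2 * L * t) + K * (t * (2 * L)) + t * C₀ / (‖κ‖ * ν)
      < m / 10 := ev (by fun_prop) (by simpa using hm)
  have e6 : ∀ᶠ t in 𝓝 (0 : ℝ),
      K * C * (-(2 * (t * Real.log t)) - t * Real.log (ν * m2 / 2)) / ν < m / 10 := by
    refine ev ?_ (by simpa using hm)
    have := Real.continuous_mul_log
    fun_prop
  obtain ⟨δ₁, hδ₁, hE⟩ := Metric.eventually_nhds_iff.1 (e0.and (e1.and (e3.and (e4.and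
    (e5.and e6)))))
  obtain ⟨d0, d1, d3, d4, d5, -⟩ := hE (y := δ₁ / 2) (by
    rw [Real.dist_eq, sub_zero, abs_of_pos (by linarith)]; linarith)
  refine ⟨δ₁ / 2, by linarith, ?_⟩
  set δ : ℝ := δ₁ / 2 with hδd
  have hδ : 0 < δ := by linarith
  intro α b hα hαδ hb hbδ G hG0 hG
  have hα1 : α ≤ 1 := by linarith
  have hbα : b ≤ α := by nlinarith
  have hb1 : b ≤ δ := by linarith
  obtain ⟨-, -, -, -, -, d6⟩ := hE (y := b) (by
    rw [Real.dist_eq, sub_zero, abs_of_pos hb]; linarith)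
  replace hB := hB α hα
  set σ : ℝ := α * ν with hσd
  have hσ : 0 < σ := by positivity
  have hσc : (α * ν : ℂ) = σ := by rw [hσd]; push_cast; ring
  have hσ0 : (σ : ℂ) ≠ 0 := by exact_mod_cast hσ.ne'
  have hνc : (ν : ℂ) ≠ 0 := by exact_mod_cast hν.ne'
  have hαc : (α : ℂ) ≠ 0 := by exact_mod_cast hα.ne'
  have hbc : (b : ℂ) ≠ 0 := by exact_mod_cast hb.ne'
  have hbσ : b * σ ≤ p / 2 := by
    have : b * σ ≤ δ * (1 * ν) := by rw [hσd]; gcongr
    linarith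
  have main : ∀ W ∈ closedBall W0 ρ, W ≠ 0 ∧ b * σ * m2 / 2 ≤ 1 - ‖1 - b * σ / W‖ ∧
      ‖1 - b * σ / W‖ < 1 ∧ 1 - ‖1 - b * σ / W‖ ≤ 2 / p * (b * σ) ∧
      ‖b * (A (1 - b * σ / W) + α * V (1 - b * σ / W) / (1 - (1 - b * σ / W))) - W‖ ≤
        2 * L * δ := by
    intro W hW
    have a1 : p / 2 ≤ W.re := by linarith [xcore_re_ge hW]
    have a2 : ‖W‖ ≤ T := by
      have := norm_sub_norm_le W W0
      rw [mem_closedBall, dist_eq_norm] at hW
      linarith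
    have a3 : p / 2 ≤ ‖W‖ := a1.trans (Complex.re_le_norm W)
    have a4 : W ≠ 0 := norm_pos_iff.1 (by linarith)
    have a5 := xcore_pt hσ hb hp hbσ a1 a2
    have a5' : b * (σ * p / (2 * T ^ 2)) = b * σ * m2 := by rw [hm2]; ring
    rw [a5'] at a5
    have h0 := norm_nonneg (1 - b * σ / W)
    have h00 : 0 < b * σ * m2 := by positivity
    have a6 : ‖1 - b * σ / W‖ < 1 := by nlinarith
    have a7 : ‖(b * σ / W : ℂ)‖ = b * σ / ‖W‖ := by
      rw [norm_div, norm_mul, norm_real, norm_real, Real.norm_of_nonneg hb.le,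
        Real.norm_of_nonneg hσ.le]
    refine ⟨a4, by nlinarith, a6, ?_, ?_⟩
    · have := norm_sub_norm_le (1 : ℂ) (b * σ / W)
      rw [a7, norm_one] at this
      have a8 : b * σ / ‖W‖ ≤ b * σ / (p / 2) := by gcongr
      have a9 : b * σ / (p / 2) = 2 / p * (b * σ) := by field_simp
      linarith
    · have a8 := (hbV _ (mem_closedBall_zero_iff.2 a6.le)).2.2
      have a10 := (hbA _ (mem_closedBall_zero_iff.2 a6.le)).1
      rw [sub_sub_cancel, a7] at a8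
      have e : b * (A (1 - b * σ / W) + α * V (1 - b * σ / W) / (1 - (1 - b * σ / W))) - W =
          b * A (1 - b * σ / W) + (V (1 - b * σ / W) - ν) * W / ν := by
        rw [sub_sub_cancel]
        generalize A (1 - b * σ / W) = P
        generalize V (1 - b * σ / W) = Q
        rw [← hσc]
        field_simp
        ring
      have a9 : 0 < ‖W‖ := by linarith
      rw [e]
      refine (norm_add_le _ _).trans ?_
      rw [norm_div, norm_mul, norm_mul, norm_real, norm_real, Real.norm_of_nonneg hν.le,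
        Real.norm_of_nonneg hb.le]
      calc b * ‖A (1 - b * σ / W)‖ + ‖V (1 - b * σ / W) - ν‖ * ‖W‖ / ν
          ≤ b * L + L * (b * σ / ‖W‖) * ‖W‖ / ν := by gcongr
        _ = b * L + L * (b * α) := by rw [hσd]; field_simp
        _ ≤ δ * L + L * (δ * 1) := by gcongr
        _ = 2 * L * δ := by ring
  have hre : ∀ z ∈ ball (0 : ℂ) 1, 0 ≤ ((b : ℂ) * (A z + α * V z / (1 - z))).re := by
    intro z hz
    rw [re_ofReal_mul]
    exact mul_nonneg hb.le (le_of_lt (hB z hz))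
  obtain ⟨W, hW, hz⟩ := xcore_zero hρ hm hs (h := fun W => b * G (1 - b * σ / W) / (κ * σ))
    (by
      intro W hW
      obtain ⟨a1, -, a3, -, -⟩ := main W hW
      have a4 := (hG _ (mem_ball_zero_iff.2 a3)).differentiableAt
      have a5 : DifferentiableAt ℂ (fun W : ℂ => 1 - b * σ / W) W := by
        fun_prop (disch := exact a1)
      exact (((a4.comp W a5).const_mul (b : ℂ)).div_const _).differentiableWithinAt)
    (by
      intro W hW
      obtain ⟨a1, k2, a3, -, a5⟩ := main W hW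
      set z : ℂ := 1 - b * σ / W with hzd
      have k1 := xcoreu_approx hR hν hα hα1 hb hL hA hV hB hbA hbV hG0 hG a3
      rw [← hK, ← hC₀, ← hC, hσc] at k1
      have k3 : -Real.log (1 - ‖z‖) ≤ -(2 * Real.log b) - Real.log (ν * m2 / 2) := by
        have k31 : b ^ 2 * (ν * m2 / 2) ≤ 1 - ‖z‖ := by
          refine le_trans ?_ k2
          calc b ^ 2 * (ν * m2 / 2) = b * (b * ν) * m2 / 2 := by ring
            _ ≤ b * (α * ν) * m2 / 2 := by gcongr
        have k32 := Real.log_le_log (by positivity) k31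
        rw [Real.log_mul (by positivity) (by positivity), Real.log_pow] at k32
        push_cast at k32
        linarith
      have k4 : b * (C₀ + ‖κ‖ * K * (α * C) * -Real.log (1 - ‖z‖)) / (‖κ‖ * σ) ≤
          δ * C₀ / (‖κ‖ * ν) +
            K * C * (-(2 * (b * Real.log b)) - b * Real.log (ν * m2 / 2)) / ν := by
        calc b * (C₀ + ‖κ‖ * K * (α * C) * -Real.log (1 - ‖z‖)) / (‖κ‖ * σ)
            = b * C₀ / (‖κ‖ * σ) + K * C * (b * -Real.log (1 - ‖z‖)) / ν := by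
              rw [hσd]; field_simp
          _ ≤ δ * α * C₀ / (‖κ‖ * σ) +
              K * C * (b * (-(2 * Real.log b) - Real.log (ν * m2 / 2))) / ν := by gcongr
          _ = _ := by rw [hσd]; field_simp
      have k5 := xcore_lip (hre z (mem_ball_zero_iff.2 a3)) (V := W)
        (by linarith [xcore_re_ge hW])
      have k6 := xcore_lip (hre 0 (mem_ball_self one_pos)) (V := 0) (by simp)
      rw [Pf_zero, sub_zero (Pf _), sub_zero (_ * _), norm_mul, norm_real,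
        Real.norm_of_nonneg hb.le] at k6
      have k7 : ‖A 0 + α * V 0 / (1 - 0)‖ ≤ 2 * L := by
        refine (norm_add_le _ _).trans ?_
        rw [sub_zero, div_one, norm_mul, norm_real, Real.norm_of_nonneg hα.le]
        have i1 := (hbA 0 (mem_closedBall_self zero_le_one)).1
        have i2 := (hbV 0 (mem_closedBall_self zero_le_one)).1
        have i3 : α * ‖V 0‖ ≤ 1 * L := by gcongr
        linarith
      have e : b * G z / (κ * σ) - Pf W =
          (Pf (b * (A z + α * V z / (1 - z))) - Pf W) - Pf (b * (A 0 + α * V 0 / (1 - 0))) +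
          (b * G z - κ * σ * (Pf (b * (A z + α * V z / (1 - z))) -
            Pf (b * (A 0 + α * V 0 / (1 - 0))))) / (κ * σ) := by
        generalize Pf (b * (A z + α * V z / (1 - z))) = P
        generalize Pf (b * (A 0 + α * V 0 / (1 - 0))) = Q
        field_simp
        ring
      rw [e]
      have f1 : ‖Pf (b * (A z + α * V z / (1 - z))) - Pf W‖ ≤ K * (2 * L * δ) :=
        k5.trans (by gcongr)
      have f2 : ‖Pf (b * (A 0 + α * V 0 / (1 - 0)))‖ ≤ K * (δ * (2 * L)) :=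
        k6.trans (by gcongr)
      have f3 : ‖(b * G z - κ * σ * (Pf (b * (A z + α * V z / (1 - z))) -
            Pf (b * (A 0 + α * V 0 / (1 - 0))))) / (κ * σ)‖ ≤ δ * C₀ / (‖κ‖ * ν) +
            K * C * (-(2 * (b * Real.log b)) - b * Real.log (ν * m2 / 2)) / ν := by
        refine le_trans ?_ k4
        rw [norm_div, norm_mul κ, norm_real, Real.norm_of_nonneg hσ.le]
        gcongr
      have f4 := (norm_add_le _ _).trans (add_le_add ((norm_sub_le _ _).trans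
        (add_le_add f1 f2)) f3)
      linarith)
  obtain ⟨a1, a2, a3, a4, a5⟩ := main W hW
  set z : ℂ := 1 - b * σ / W with hzd
  have eσ : b * α * ν = b * σ := by rw [hσd]; ring
  refine ⟨z, ?_, ?_, by rwa [eσ], ?_⟩
  · simpa [hκ, hσ0, hbc] using hz
  · rw [eσ]
    refine le_trans ?_ a2
    calc min 1 (m2 / 2) * (b * σ) ≤ m2 / 2 * (b * σ) := by
          gcongr
          exact min_le_right _ _
      _ = _ := by ring
  · set U : ℂ := b * (A z + α * V z / (1 - z)) with hU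
    have k1 : U ∈ closedBall W0 (2 * ρ) := by
      rw [mem_closedBall, dist_eq_norm] at hW ⊢
      have := norm_sub_le_norm_sub_add_norm_sub U W W0
      linarith
    have k2 := hμ1 U k1
    have k3 : (b : ℂ) ^ 2 * (κ * Af b (A z + α * V z / (1 - z)) + c₁) =
        κ * (U ^ 2 * Mf U) + (b : ℂ) ^ 2 * c₁ := by
      rw [Af, hU]
      ring
    have k5 := congrArg norm k3
    rw [norm_mul, norm_pow, norm_real, Real.norm_of_nonneg hb.le] at k5
    have k6 := norm_sub_norm_le (κ * (U ^ 2 * Mf U)) (-((b : ℂ) ^ 2 * c₁))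
    rw [sub_neg_eq_add, norm_neg, norm_mul κ, norm_mul ((b : ℂ) ^ 2), norm_pow, norm_real,
      Real.norm_of_nonneg hb.le] at k6
    have k7 : ‖κ‖ * μ ≤ ‖κ‖ * ‖U ^ 2 * Mf U‖ := by gcongr
    have k8 : b ^ 2 * ‖c₁‖ ≤ δ * ‖c₁‖ := by
      gcongr
      nlinarith
    linarith

end Pool.Agent.MP_32357e_an.H

end

section

/-! One step with a majorant, reduction to the normalised case. -/

set_option autoImplicit false

open Complex Set Filter Topology Metric

namespace Pool.Agent.MP_32357e_an.H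

lemma xstepu_dil {ω : ℝ → ℝ} (hω : Reg ω) {f : ℂ → ℂ} {M ρ : ℝ} (ρ0 : 0 < ρ) (ρ1 : ρ < 1)
    (hM : ∀ z ∈ ball (0 : ℂ) 1, (1 - ‖z‖) * ‖f z‖ ≤ ω ‖z‖ / 2 + M) {z : ℂ}
    (hz : z ∈ ball (0 : ℂ) 1) : (1 - ‖z‖) * ‖f (ρ * z)‖ ≤ ω ‖z‖ / 2 + M := by
  rw [mem_ball_zero_iff] at hz
  have hn := norm_nonneg z
  have e : ‖(ρ : ℂ) * z‖ = ρ * ‖z‖ := by
    rw [norm_mul, norm_real, Real.norm_of_nonneg ρ0.le]
  have h1 : ρ * ‖z‖ ≤ ‖z‖ := by nlinarith
  have h0 : 0 ≤ ρ * ‖z‖ := mul_nonneg ρ0.le hn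
  have h2 := hM (ρ * z) (by rw [mem_ball_zero_iff, e]; linarith)
  rw [e] at h2
  have h3 : ω (ρ * ‖z‖) ≤ ω ‖z‖ := hω.1 ⟨h0, by linarith⟩ ⟨hn, hz⟩ h1
  have h4 : (1 - ‖z‖) * ‖f (ρ * z)‖ ≤ (1 - ρ * ‖z‖) * ‖f (ρ * z)‖ :=
    mul_le_mul_of_nonneg_right (by linarith) (norm_nonneg _)
  linarith

theorem stepU {c : ℝ} (h : StepNUStmt c) : StepUStmt c := by
  intro ω hω f M hf hi hM0 hM r η hr hη
  obtain ⟨ρ, ρ0, ρ1, hρ⟩ := xstep_rho hf hr (half_pos hη)
  have hR : 1 < 1 / ρ := one_lt_one_div ρ0 ρ1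
  have hρc : (ρ : ℂ) ≠ 0 := by exact_mod_cast ρ0.ne'
  have hmap : MapsTo (fun z : ℂ => (ρ : ℂ) * z) (ball 0 (1 / ρ)) (ball 0 1) := by
    intro z hz
    rw [mem_ball_zero_iff] at hz ⊢
    rw [norm_mul, norm_real, Real.norm_of_nonneg ρ0.le]
    rwa [lt_div_iff₀' ρ0] at hz
  have hf1 : DifferentiableOn ℂ (fun z : ℂ => f (ρ * z)) (ball 0 (1 / ρ)) :=
    hf.comp (by fun_prop) hmap
  have hi1 : InjOn (fun z : ℂ => f (ρ * z)) (ball 0 (1 / ρ)) := fun x hx y hy e =>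
    mul_left_cancel₀ hρc (hi (hmap hx) (hmap hy) e)
  obtain ⟨ξ, hξ, hmax⟩ := xstep_max hR hf1 hi1
  have hξ0 : ξ ≠ 0 := norm_pos_iff.1 (by rw [hξ]; exact one_pos)
  have hrot : ∀ R : ℝ, MapsTo (fun z : ℂ => ξ * z) (ball 0 R) (ball 0 R) := by
    intro R z hz
    rw [mem_ball_zero_iff] at hz ⊢
    rwa [norm_mul, hξ, one_mul]
  have hdiv : ∀ z : ℂ, ‖z / ξ‖ = ‖z‖ := fun z => by rw [norm_div, hξ, div_one]
  have hrot' : MapsTo (fun z : ℂ => z / ξ) (ball 0 1) (ball 0 1) := by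
    intro z hz
    rw [mem_ball_zero_iff] at hz ⊢
    rwa [hdiv]
  obtain ⟨g, G, hg, hgi, hG0, hG, happ, hdis, z, hz1, hz2, hz3, hz4⟩ :=
    h ω hω (fun z => f (ρ * ξ) - f (ρ * (ξ * z))) (1 / ρ) (f (ρ * ξ)) hR
    ((hf1.comp (by fun_prop) (hrot _)).const_sub _)
    (fun x hx y hy e => mul_left_cancel₀ hξ0 (hi1 (hrot _ hx) (hrot _ hy) (sub_right_injective e)))
    (by simp)
    (fun z hz => by
      rw [mem_HP, sub_re, sub_pos]
      exact hmax _ (hrot 1 hz))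
    r (η / 2) hr (half_pos hη)
  have ez : ξ * z / ξ = z := mul_div_cancel_left₀ z hξ0
  have en : ‖ξ * z‖ = ‖z‖ := by rw [norm_mul, hξ, one_mul]
  refine ⟨fun z => g (z / ξ), fun z => ξ * G (z / ξ), hg.comp (by fun_prop) hrot',
    fun x hx y hy e => (div_left_inj' hξ0).1 (hgi (hrot' hx) (hrot' hy) e), by simp [hG0],
    fun x hx => ?_, fun x hx => ?_, fun x hx => ?_, ξ * z, by rwa [en], by rwa [en],
    by simp only [ez, hz3, mul_zero], by simpa only [ez, en] using hz4⟩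
  · have a1 := ((hG _ (hrot' hx)).comp x ((hasDerivAt_id x).div_const ξ)).const_mul ξ
    refine HasDerivAt.congr_deriv a1 ?_
    field_simp
  · have a1 := happ (x / ξ) (by rwa [hdiv])
    rw [sub_sub_cancel, mul_div_cancel₀ _ hξ0] at a1
    have a2 := hρ x hx
    have a3 := norm_sub_le_norm_sub_add_norm_sub (g (x / ξ)) (f (ρ * x)) (f x)
    linarith
  · rcases hdis (x / ξ) (hrot' hx) with a1 | a1
    · rw [sub_sub_cancel, mul_div_cancel₀ _ hξ0] at a1
      have a2 := xstepu_dil hω ρ0 ρ1 hM hx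
      have a3 : ‖g (x / ξ)‖ ≤ ‖f (ρ * x)‖ + η / 2 := by
        have := norm_sub_norm_le (g (x / ξ)) (f (ρ * x))
        linarith
      have hx1 := mem_ball_zero_iff.1 hx
      have hn := norm_nonneg x
      have a4 : (1 - ‖x‖) * ‖g (x / ξ)‖ ≤ (1 - ‖x‖) * (‖f (ρ * x)‖ + η / 2) :=
        mul_le_mul_of_nonneg_left a3 (by linarith)
      have a5 : (1 - ‖x‖) * (η / 2) ≤ η := by nlinarith
      show (1 - ‖x‖) * ‖g (x / ξ)‖ ≤ ω ‖x‖ / 2 + (M + η)
      linarith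
    · rw [hdiv] at a1
      show (1 - ‖x‖) * ‖g (x / ξ)‖ ≤ ω ‖x‖ / 2 + (M + η)
      linarith

end Pool.Agent.MP_32357e_an.H

end

section

/-! Iteration of the one step construction with a majorant. -/

set_option autoImplicit false

open Complex Set Filter Topology Metric

namespace Pool.Agent.MP_32357e_an.H

/-- The invariant of the iteration. -/
def xpartu_J (ω : ℝ → ℝ) (M : ℝ) (s : XpartbSt) : Prop :=
  0 ≤ M - s.η ∧ ∀ z ∈ ball (0 : ℂ) 1, (1 - ‖z‖) * ‖s.f z‖ ≤ ω ‖z‖ / 2 + (M - s.η)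

/-- Every function close to `g` has a large spherical derivative of its primitive at one point. -/
def xpartu_Key (c : ℝ) (ω : ℝ → ℝ) (g : ℂ → ℂ) (r η R : ℝ) : Prop :=
  ∃ z : ℂ, R < ‖z‖ ∧ ‖z‖ < 1 ∧ ∀ f F : ℂ → ℂ, F 0 = 0 →
    (∀ x ∈ ball (0 : ℂ) 1, HasDerivAt F (f x) x) → (∀ x : ℂ, ‖x‖ ≤ r → ‖f x - g x‖ ≤ η) →
    c / 4 * ω ‖z‖ ≤ (1 - ‖z‖) * ‖f z‖ / (1 + ‖F z‖ ^ 2)

lemma xpartu_step {c : ℝ} (hc : 0 < c) (h : StepUStmt c) {ω : ℝ → ℝ} (hω : Reg ω) {M R : ℝ}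
    (hR : R < 1) (s : {s : XpartbSt // xpartu_J ω M s}) :
    ∃ t : {s : XpartbSt // xpartu_J ω M s}, s.1.r ≤ t.1.r ∧ R ≤ t.1.r ∧ t.1.η ≤ s.1.η / 2 ∧
      (∀ z : ℂ, ‖z‖ ≤ s.1.r → ‖t.1.f z - s.1.f z‖ ≤ s.1.η / 2) ∧
      xpartu_Key c ω t.1.f t.1.r t.1.η R := by
  obtain ⟨s, hM, hJ⟩ := s
  have hη := s.hη
  obtain ⟨g, G, hgd, hgi, hG0, hG, hclose, hgb, z, hz1, hz2, hGz, hcz⟩ :=
    h ω hω s.f (M - s.η) s.hd s.hi hM hJ (max s.r R) (s.η / 2) (max_lt s.hr hR) (half_pos hη)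
  have h1 : s.r < ‖z‖ := lt_of_le_of_lt (le_max_left _ _) hz1
  have h2 : R < ‖z‖ := lt_of_le_of_lt (le_max_right _ _) hz1
  have hn0 := norm_nonneg z
  have hw : 0 < c * ω ‖z‖ := mul_pos hc (hω.pos ⟨hn0, hz2⟩)
  obtain ⟨η₂, e0, e1, e2, e3⟩ : ∃ η₂ : ℝ, 0 < η₂ ∧ η₂ ≤ 1 ∧ η₂ ≤ c * ω ‖z‖ / 2 ∧ η₂ ≤ s.η / 2 :=
    ⟨min (s.η / 2) (min 1 (c * ω ‖z‖ / 2)), lt_min (half_pos hη) (lt_min one_pos (half_pos hw)),
      (min_le_right _ _).trans (min_le_left _ _), (min_le_right _ _).trans (min_le_right _ _),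
      min_le_left _ _⟩
  refine ⟨⟨⟨g, ‖z‖, η₂, hgd, hgi, hz2, e0⟩, by change 0 ≤ M - η₂; linarith,
    fun x hx => (hgb x hx).trans (by change _ ≤ _ + (M - η₂); linarith)⟩, h1.le, h2.le, e3,
    fun x hx => hclose x (hx.trans (le_max_left _ _)), z, h2, hz2, ?_⟩
  intro f F hF0 hF hb
  have hb' : ∀ x : ℂ, ‖x‖ ≤ ‖z‖ → ‖f x - g x‖ ≤ η₂ := hb
  have hFz : ‖F z‖ ≤ 1 := by
    have := xpartb_prim hz2 hF0 hG0 hF hG hb'
    rw [hGz, sub_zero] at this
    nlinarith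
  have hfz : ‖g z‖ ≤ ‖f z‖ + η₂ := by
    have a1 := hb' z le_rfl
    have a2 := norm_sub_le (f z) (f z - g z)
    rw [sub_sub_cancel] at a2
    linarith
  have hlow : c * ω ‖z‖ / 2 ≤ (1 - ‖z‖) * ‖f z‖ := by
    have a1 : (1 - ‖z‖) * ‖g z‖ ≤ (1 - ‖z‖) * (‖f z‖ + η₂) :=
      mul_le_mul_of_nonneg_left hfz (by linarith)
    have a2 : (1 - ‖z‖) * η₂ ≤ η₂ := by nlinarith
    rw [mul_add] at a1
    linarith
  have hF1 : 1 + ‖F z‖ ^ 2 ≤ 2 := by
    have := norm_nonneg (F z)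
    nlinarith
  have hpos : 0 < 1 + ‖F z‖ ^ 2 := by positivity
  rw [le_div_iff₀ hpos]
  have a4 : c * ω ‖z‖ / 4 * (1 + ‖F z‖ ^ 2) ≤ c * ω ‖z‖ / 4 * 2 :=
    mul_le_mul_of_nonneg_left hF1 (by positivity)
  linarith

theorem partU {c : ℝ} (hc : 0 < c) (h : StepUStmt c) : PartUStmt (c / 4) := by
  intro ω hω f₀ hd hi r η hr hη
  have hhalf : ((1 / 2 : ℝ) : ℂ) ∈ ball (0 : ℂ) 1 := by
    rw [mem_ball_zero_iff, Complex.norm_real, Real.norm_eq_abs, abs_of_pos (by norm_num)]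
    norm_num
  have hzero : (0 : ℂ) ∈ ball (0 : ℂ) 1 := mem_ball_self one_pos
  have hne : f₀ ((1 / 2 : ℝ) : ℂ) ≠ f₀ 0 := by
    intro e
    have := hi hhalf hzero e
    have h2 := congrArg Complex.re this
    simp at h2
  have hδ : 0 < ‖f₀ ((1 / 2 : ℝ) : ℂ) - f₀ 0‖ := norm_pos_iff.2 (sub_ne_zero.2 hne)
  set δ := ‖f₀ ((1 / 2 : ℝ) : ℂ) - f₀ 0‖ with hδdef
  have hr0 : max r (1 / 2) < 1 := max_lt hr (by norm_num)
  have hη0 : 0 < min η (δ / 3) / 2 := half_pos (lt_min hη (by positivity))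
  obtain ⟨ρ, ρ0, ρ1, hρ⟩ := xstep_rho hd hr0 hη0
  have hρc : (ρ : ℂ) ≠ 0 := by exact_mod_cast ρ0.ne'
  have hmap : ∀ z ∈ ball (0 : ℂ) 1, (ρ : ℂ) * z ∈ closedBall (0 : ℂ) ρ := by
    intro z hz
    rw [mem_ball_zero_iff] at hz
    rw [mem_closedBall_zero_iff, norm_mul, norm_real, Real.norm_of_nonneg ρ0.le]
    exact mul_le_of_le_one_right ρ0.le hz.le
  have hmap' : MapsTo (fun z : ℂ => (ρ : ℂ) * z) (ball 0 1) (ball 0 1) := fun z hz =>
    closedBall_subset_ball ρ1 (hmap z hz)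
  obtain ⟨M₀, hM₀⟩ := (isCompact_closedBall (0 : ℂ) ρ).exists_bound_of_continuousOn
    (hd.continuousOn.mono (closedBall_subset_ball ρ1))
  have hM₁ : 0 ≤ M₀ := (norm_nonneg _).trans (hM₀ 0 (mem_closedBall_self ρ0.le))
  let s₀ : XpartbSt := ⟨fun z => f₀ (ρ * z), max r (1 / 2), min η (δ / 3) / 2,
    hd.comp (differentiableOn_id.const_mul _) hmap',
    hi.comp (fun _ _ _ _ e => mul_left_cancel₀ hρc e) hmap', hr0, hη0⟩
  have hJ : xpartu_J ω (M₀ + min η (δ / 3) / 2) s₀ := by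
    refine ⟨by change 0 ≤ _ - min η (δ / 3) / 2; linarith, fun z hz => ?_⟩
    change (1 - ‖z‖) * ‖f₀ (ρ * z)‖ ≤ _ + (_ - min η (δ / 3) / 2)
    have a1 := hM₀ _ (hmap z hz)
    have a2 := hω.pos ⟨norm_nonneg z, mem_ball_zero_iff.1 hz⟩
    have a3 := mul_nonneg (norm_nonneg z) (norm_nonneg (f₀ (ρ * z)))
    linarith
  have hR : ∀ n : ℕ, 1 - 1 / ((n : ℝ) + 1) < 1 := fun n => by
    have : (0 : ℝ) < 1 / ((n : ℝ) + 1) := by positivity
    linarith
  choose T hT using fun (n : ℕ) (s : {s : XpartbSt // xpartu_J ω (M₀ + min η (δ / 3) / 2) s}) =>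
    xpartu_step hc h hω (hR n) s
  obtain ⟨s, hs0, hs⟩ : ∃ s : ℕ → {s : XpartbSt // xpartu_J ω (M₀ + min η (δ / 3) / 2) s},
      s 0 = ⟨s₀, hJ⟩ ∧ ∀ n, s (n + 1) = T n (s n) :=
    ⟨fun n => Nat.rec ⟨s₀, hJ⟩ (fun n s => T n s) n, rfl, fun _ => rfl⟩
  have hs' := fun n => hT n (s n)
  simp only [← hs] at hs'
  obtain ⟨f, hlim, hclose⟩ := xpartb_limit (fun n => (s n).1) (fun n => (hs' n).1)
    (fun n => (hs' n).2.1) (fun n => (hs' n).2.2.1) (fun n => (hs' n).2.2.2.1)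
  have hfd : DifferentiableOn ℂ f (ball 0 1) :=
    hlim.differentiableOn (Eventually.of_forall fun n => (s n).1.hd) isOpen_ball
  have hc0 : ∀ z : ℂ, ‖z‖ ≤ max r (1 / 2) → ‖f z - f₀ z‖ ≤ min η (δ / 3) := by
    intro z hz
    have a0 := hclose 0
    simp only [hs0] at a0
    have a1 : ‖f z - f₀ (ρ * z)‖ ≤ min η (δ / 3) / 2 := a0 z hz
    have a2 := hρ z hz
    have a3 := norm_sub_le_norm_sub_add_norm_sub (f z) (f₀ (ρ * z)) (f₀ z)
    linarith
  have hfne : f ((1 / 2 : ℝ) : ℂ) ≠ f 0 := by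
    intro e
    have a1 := (hc0 ((1 / 2 : ℝ) : ℂ) (by
      rw [Complex.norm_real, Real.norm_eq_abs, abs_of_pos (by norm_num)]
      exact le_max_right _ _)).trans (min_le_right _ _)
    have a2 := (hc0 0 (by
      rw [norm_zero]
      exact le_trans (by norm_num) (le_max_right _ _))).trans (min_le_right _ _)
    have a3 := norm_sub_le_norm_sub_add_norm_sub (f₀ ((1 / 2 : ℝ) : ℂ)) (f 0) (f₀ 0)
    rw [e, norm_sub_rev] at a1
    rw [← hδdef] at a3
    linarith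
  have hfi : InjOn f (ball 0 1) :=
    Pool.Agent.MP_1a2790_an.limit_injOn isOpen_ball (fun n => (s n).1.hd) hlim
      (fun z₀ hz₀ => Pool.Agent.MP_1a2790_an.not_eventually_const isOpen_ball
        (convex_ball (0 : ℂ) 1).isPreconnected hfd hhalf hzero hfne hz₀) (fun n => (s n).1.hi)
  obtain ⟨F, hF0, hF⟩ := hfd.isExactOn_ball.with_val_at 0 0
  refine ⟨f, F, hfd, hfi, hF0, hF,
    fun z hz => (hc0 z (hz.trans (le_max_left _ _))).trans (min_le_left _ _), ?_, ?_⟩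
  · obtain ⟨R, hR1, hR2⟩ := (mem_nhdsLT_iff_exists_Ioo_subset).1
      (hω.2.2.1.eventually_ge_atTop (2 * (M₀ + min η (δ / 3) / 2)))
    refine ⟨R, hR1, fun z h1 h2 => ?_⟩
    have a1 : 2 * (M₀ + min η (δ / 3) / 2) ≤ ω ‖z‖ := hR2 ⟨h1, h2⟩
    have hz := mem_ball_zero_iff.2 h2
    refine le_of_tendsto' ((hlim.tendsto_at hz).norm.const_mul (1 - ‖z‖)) fun n => ?_
    have a2 := (s n).2.2 z hz
    have a3 := (s n).1.hη
    linarith
  · intro R hR
    obtain ⟨n, hn⟩ := exists_nat_one_div_lt (K := ℝ) (sub_pos.2 hR)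
    obtain ⟨z, hz1, hz2, hz3⟩ := (hs' n).2.2.2.2
    exact ⟨z, by linarith, hz2, hz3 f F hF0 hF (hclose (n + 1))⟩

end Pool.Agent.MP_32357e_an.H

end
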