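import Pool.Agent.MP_1a2790_an.Normal

set_option linter.all false

section

/-! Statements of the steps in the proof of the exact growth of the spherical derivative of the
primitive of a univalent function. -/

set_option autoImplicit false

open Complex Set Filter Topology Metric MeasureTheory

namespace Pool.Agent.MP_32357e_an.H

/-- The right half-plane. -/
def HP : Set ℂ := {v | 0 < v.re}

lemma mem_HP {v : ℂ} : v ∈ HP ↔ 0 < v.re := Iff.rfl

lemma isOpen_HP : IsOpen HP := isOpen_lt continuous_const Complex.continuous_re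

lemma convex_HP : Convex ℝ HP := convex_halfSpace_re_gt 0

/-- The power of exponent i - 1 of 1 + (1+i) W. -/
noncomputable def Mf (W : ℂ) : ℂ := exp ((I - 1) * log (1 + (1 + I) * W))

/-- The primitive of `Mf` vanishing at `0`. -/
noncomputable def Pf (W : ℂ) : ℂ := (exp (I * log (1 + (1 + I) * W)) - 1) / (I - 1)

/-- The spiralling map, u squared times the power of exponent i - 1 of 1 + (1+i) b u. -/
noncomputable def Af (b : ℝ) (u : ℂ) : ℂ := u ^ 2 * Mf (b * u)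

/-- Lower bound of the logarithmic area of the image of an annulus. -/
def LogLBStmt : Prop :=
  ∀ (B : ℂ → ℂ) (r : ℝ), DifferentiableOn ℂ B (ball 0 1) → InjOn B (ball 0 1) → B 0 = 0 →
    0 < r → r < 1 →
    ENNReal.ofReal (2 * Real.pi * Real.log (1 / r)) ≤
      ∫⁻ z in {z : ℂ | r < ‖z‖ ∧ ‖z‖ < 1}, ENNReal.ofReal (‖deriv B z / B z‖ ^ 2)

/-- Change of variables for the logarithmic area. -/
def LogCVStmt : Prop :=
  ∀ (φ : ℂ → ℂ) (A : Set ℂ), IsOpen A → DifferentiableOn ℂ φ A → InjOn φ A →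
    ∫⁻ w in φ '' A, ENNReal.ofReal (1 / ‖w‖ ^ 2) =
      ∫⁻ z in A, ENNReal.ofReal (‖deriv φ z / φ z‖ ^ 2)

/-- Logarithmic area of a round annulus. -/
def LogAnnStmt : Prop :=
  ∀ ρ : ℝ, 0 < ρ → ρ ≤ 1 →
    ∫⁻ w in {w : ℂ | ρ ≤ ‖w‖ ∧ ‖w‖ ≤ 1 / ρ}, ENNReal.ofReal (1 / ‖w‖ ^ 2) ≤
      ENNReal.ofReal (4 * Real.pi * Real.log (1 / ρ))

/-- First coefficient of a univalent Bieberbach-Eilenberg function. -/
def BEStmt : Prop :=
  ∀ B : ℂ → ℂ, DifferentiableOn ℂ B (ball 0 1) → InjOn B (ball 0 1) → B 0 = 0 →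
    (∀ z ∈ ball (0 : ℂ) 1, ∀ w ∈ ball (0 : ℂ) 1, B z * B w ≠ 1) → ‖deriv B 0‖ ≤ 1

/-- Sharp Koebe inequality in the half-plane. -/
def KoebeStmt : Prop :=
  ∀ g : ℂ → ℂ, DifferentiableOn ℂ g HP → InjOn g HP → (∀ v ∈ HP, g v ≠ 0) →
    ∀ v ∈ HP, v.re * ‖deriv g v‖ ≤ 2 * ‖g v‖

/-- Monotonicity along horizontal lines and growth along vertical lines. -/
def MonoStmt : Prop :=
  ∀ g : ℂ → ℂ, DifferentiableOn ℂ g HP → (∀ v ∈ HP, v.re * ‖deriv g v‖ ≤ 2 * ‖g v‖) →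
    (∀ x₁ x₂ y : ℝ, 0 < x₁ → x₁ ≤ x₂ →
      x₁ ^ 2 * ‖g (x₁ + y * I)‖ ≤ x₂ ^ 2 * ‖g (x₂ + y * I)‖) ∧
    (∀ x y : ℝ, 0 < x → ‖g (x + y * I)‖ ≤ ‖g x‖ * Real.exp (2 * |y| / x))

/-- Equality case. -/
def RigidStmt : Prop :=
  ∀ (k : ℂ → ℂ) (α : ℝ), DifferentiableOn ℂ k HP → (∀ v ∈ HP, v.re * ‖deriv k v‖ ≤ 2 * ‖k v‖) →
    (∀ x : ℝ, 0 < x → x ^ 2 * ‖k x‖ = α) → ∃ C : ℂ, ‖C‖ = α ∧ ∀ v ∈ HP, k v = C / v ^ 2

/-- Blow-up limit. -/
def LimStmt : Prop :=
  ∀ (g : ℂ → ℂ) (α : ℝ) (s : ℕ → ℝ) (𝒰 : Ultrafilter ℕ), DifferentiableOn ℂ g HP →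
    (∀ v ∈ HP, v.re * ‖deriv g v‖ ≤ 2 * ‖g v‖) →
    Tendsto (fun x : ℝ => x ^ 2 * ‖g x‖) (𝓝[>] 0) (𝓝 α) →
    (∀ n, 0 < s n) → Tendsto s 𝒰 (𝓝 0) →
    ∃ C : ℂ, ‖C‖ = α ∧
      TendstoLocallyUniformlyOn (fun n v => (s n : ℂ) ^ 2 * g (s n * v)) (fun v => C / v ^ 2) 𝒰 HP

/-- The contradiction in the half-plane. -/
def BlowStmt : Prop :=
  ∀ (g F : ℂ → ℂ) (w₀ : ℂ) (c : ℝ) (v : ℕ → ℂ), DifferentiableOn ℂ g HP →
    (∀ u ∈ HP, u.re * ‖deriv g u‖ ≤ 2 * ‖g u‖) →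
    (∀ u ∈ HP, HasDerivAt F (-2 * (g u + w₀) / (1 + u) ^ 2) u) → 0 < c → (∀ n, v n ∈ HP) →
    Tendsto v atTop (𝓝 0) →
    (∀ n, c * (1 + ‖F (v n)‖ ^ 2) ≤ (v n).re ^ 2 * ‖g (v n) + w₀‖) → False

/-- Part A. -/
def PartAStmt : Prop :=
  ∀ f F : ℂ → ℂ, DifferentiableOn ℂ f (ball 0 1) → InjOn f (ball 0 1) →
    (∀ z ∈ ball (0 : ℂ) 1, HasDerivAt F (f z) z) → ∀ c : ℝ, 0 < c → ∃ R : ℝ, R < 1 ∧
      ∀ z : ℂ, R < ‖z‖ → ‖z‖ < 1 → (1 - ‖z‖ ^ 2) ^ 2 * ‖f z‖ / (1 + ‖F z‖ ^ 2) < c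

/-- The spiralling map is univalent in the half-plane. -/
def SpiralStmt : Prop :=
  ∀ b : ℝ, 0 < b → DifferentiableOn ℂ (Af b) HP ∧ InjOn (Af b) HP

/-- The primitive has a zero at scale `b`. -/
def CoreStmt : Prop :=
  ∀ (N : ℂ → ℂ) (R₀ σ : ℝ) (κ c₁ : ℂ), 1 < R₀ → 0 < σ → κ ≠ 0 →
    DifferentiableOn ℂ N (ball 0 R₀) → N 1 = σ →
    (∀ z ∈ ball (0 : ℂ) 1, N z / (1 - z) ∈ HP) →
    ∃ c : ℝ, 0 < c ∧ ∀ R : ℝ, R < 1 → ∀ᶠ b : ℝ in 𝓝[>] 0, ∀ G : ℂ → ℂ, G 0 = 0 →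
      (∀ z ∈ ball (0 : ℂ) 1, HasDerivAt G (κ * Af b (N z / (1 - z)) + c₁) z) →
      ∃ z : ℂ, R < ‖z‖ ∧ ‖z‖ < 1 ∧ G z = 0 ∧
        c ≤ (1 - ‖z‖ ^ 2) ^ 2 * ‖κ * Af b (N z / (1 - z)) + c₁‖

/-- One step, normalised. -/
def StepNStmt : Prop :=
  ∀ (u : ℂ → ℂ) (R₀ : ℝ) (w : ℂ), 1 < R₀ → DifferentiableOn ℂ u (ball 0 R₀) →
    InjOn u (ball 0 R₀) → u 1 = 0 → (∀ z ∈ ball (0 : ℂ) 1, u z ∈ HP) →
    ∀ r η : ℝ, r < 1 → 0 < η → ∃ c : ℝ, 0 < c ∧ ∀ R : ℝ, R < 1 → ∃ g G : ℂ → ℂ,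
      DifferentiableOn ℂ g (ball 0 1) ∧ InjOn g (ball 0 1) ∧ G 0 = 0 ∧
      (∀ z ∈ ball (0 : ℂ) 1, HasDerivAt G (g z) z) ∧
      (∀ z : ℂ, ‖z‖ ≤ r → ‖g z - (w - u z)‖ ≤ η) ∧
      ∃ z : ℂ, R < ‖z‖ ∧ ‖z‖ < 1 ∧ G z = 0 ∧ c ≤ (1 - ‖z‖ ^ 2) ^ 2 * ‖g z‖

/-- One step. -/
def StepStmt : Prop :=
  ∀ f : ℂ → ℂ, DifferentiableOn ℂ f (ball 0 1) → InjOn f (ball 0 1) →
    ∀ r η : ℝ, r < 1 → 0 < η → ∃ c : ℝ, 0 < c ∧ ∀ R : ℝ, R < 1 → ∃ g G : ℂ → ℂ,
      DifferentiableOn ℂ g (ball 0 1) ∧ InjOn g (ball 0 1) ∧ G 0 = 0 ∧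
      (∀ z ∈ ball (0 : ℂ) 1, HasDerivAt G (g z) z) ∧
      (∀ z : ℂ, ‖z‖ ≤ r → ‖g z - f z‖ ≤ η) ∧
      ∃ z : ℂ, R < ‖z‖ ∧ ‖z‖ < 1 ∧ G z = 0 ∧ c ≤ (1 - ‖z‖ ^ 2) ^ 2 * ‖g z‖

/-- Part B. -/
def PartBStmt : Prop :=
  ∀ ε : ℝ → ℝ, Tendsto ε (𝓝[<] 1) (𝓝 0) → ∀ f₀ : ℂ → ℂ, DifferentiableOn ℂ f₀ (ball 0 1) →
    InjOn f₀ (ball 0 1) → ∀ r η : ℝ, r < 1 → 0 < η → ∃ f F : ℂ → ℂ,
      DifferentiableOn ℂ f (ball 0 1) ∧ InjOn f (ball 0 1) ∧ F 0 = 0 ∧
      (∀ z ∈ ball (0 : ℂ) 1, HasDerivAt F (f z) z) ∧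
      (∀ z : ℂ, ‖z‖ ≤ r → ‖f z - f₀ z‖ ≤ η) ∧
      ∀ R : ℝ, R < 1 → ∃ z : ℂ, R < ‖z‖ ∧ ‖z‖ < 1 ∧
        ε ‖z‖ < (1 - ‖z‖ ^ 2) ^ 2 * ‖f z‖ / (1 + ‖F z‖ ^ 2)

lemma slit_of_re_nonneg {W : ℂ} (hW : 0 ≤ W.re) : 1 + (1 + I) * W ∈ slitPlane := by
  rw [mem_slitPlane_iff]
  by_cases h : (1 + (1 + I) * W).im = 0
  · left
    simp at h ⊢
    linarith
  · exact Or.inr h

lemma hasDerivAt_lg {W : ℂ} (hW : 0 ≤ W.re) :
    HasDerivAt (fun W : ℂ => log (1 + (1 + I) * W)) ((1 + I) / (1 + (1 + I) * W)) W := by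
  have h1 : HasDerivAt (fun W : ℂ => 1 + (1 + I) * W) (1 + I) W := by
    simpa using ((hasDerivAt_id W).const_mul (1 + I)).const_add 1
  exact h1.clog (slit_of_re_nonneg hW)

lemma differentiableAt_Mf {W : ℂ} (hW : 0 ≤ W.re) : DifferentiableAt ℂ Mf W :=
  (((hasDerivAt_lg hW).const_mul (I - 1)).cexp).differentiableAt

lemma Mf_zero : Mf 0 = 1 := by simp [Mf]

lemma Mf_ne (W : ℂ) : Mf W ≠ 0 := exp_ne_zero _

lemma Pf_zero : Pf 0 = 0 := by simp [Pf]

lemma hasDerivAt_Pf {W : ℂ} (hW : 0 ≤ W.re) : HasDerivAt Pf (Mf W) W := by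
  have h0 : (I - 1 : ℂ) ≠ 0 := by
    intro h
    have := congrArg Complex.re h
    simp at this
  have hne := slitPlane_ne_zero (slit_of_re_nonneg hW)
  have h := ((((hasDerivAt_lg hW).const_mul I).cexp).sub_const 1).div_const (I - 1)
  refine HasDerivAt.congr_deriv h ?_
  have e : Mf W = exp (I * log (1 + (1 + I) * W)) / (1 + (1 + I) * W) := by
    rw [Mf, sub_mul, one_mul, exp_sub, exp_log hne]
  rw [e]
  have e2 : I * (1 + I) = I - 1 := by
    rw [mul_add, I_mul_I]; ring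
  rw [← mul_div_assoc, e2]
  field_simp

end Pool.Agent.MP_32357e_an.H

end

section

open Complex Set Filter Topology Metric MeasureTheory
open scoped Real

namespace Pool.Agent.MP_32357e_an.H

lemma xloglb_phi {B : ℂ → ℂ} (hB : DifferentiableOn ℂ B (ball 0 1)) (hi : InjOn B (ball 0 1))
    (h0 : B 0 = 0) : ∃ φ : ℂ → ℂ, DifferentiableOn ℂ φ (ball 0 1) ∧ φ 0 = 1 ∧
      ∀ z ∈ ball (0 : ℂ) 1, z ≠ 0 → deriv B z / B z = φ z / z := by
  have h00 : (0 : ℂ) ∈ ball (0 : ℂ) 1 := mem_ball_self one_pos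
  have hb : DifferentiableOn ℂ (dslope B 0) (ball 0 1) :=
    (differentiableOn_dslope (isOpen_ball.mem_nhds h00)).2 hB
  have hne : ∀ z ∈ ball (0 : ℂ) 1, dslope B 0 z ≠ 0 := fun z hz =>
    Pool.Agent.MP_1a2790_an.dslope_ne_zero_of_injOn isOpen_ball hB hi h00 hz
  have e : B = fun z => z * dslope B 0 z := by
    ext z
    have := sub_smul_dslope B 0 z
    simpa [h0] using this.symm
  refine ⟨fun z => 1 + z * deriv (dslope B 0) z / dslope B 0 z,
    (differentiableOn_const _).add ((differentiableOn_id.mul (hb.deriv isOpen_ball)).div hb hne),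
    by simp, fun z hz hz0 => ?_⟩
  have hd := (hasDerivAt_id z).mul (hb.differentiableAt (isOpen_ball.mem_nhds hz)).hasDerivAt
  have h1 : deriv B z = dslope B 0 z + z * deriv (dslope B 0) z := by
    conv_lhs => rw [e]
    have := hd.deriv
    rw [one_mul] at this
    exact this
  have h2 : B z = z * dslope B 0 z := congrFun e z
  have := hne z hz
  rw [h1, h2]
  field_simp

lemma xloglb_circ {φ : ℂ → ℂ} (hφ : DifferentiableOn ℂ φ (ball 0 1)) (h0 : φ 0 = 1) {t : ℝ}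
    (ht0 : 0 < t) (ht : t < 1) :
    ENNReal.ofReal (2 * π) ≤
      ∫⁻ θ in Ioo (-π) π, ENNReal.ofReal (‖φ (circleMap 0 t θ)‖ ^ 2) := by
  have hpi : -π ≤ π := by linarith [Real.pi_pos]
  have hc : Continuous fun θ : ℝ => φ (circleMap 0 t θ) :=
    hφ.continuousOn.comp_continuous (continuous_circleMap 0 t) fun θ => by
      simpa [abs_of_pos ht0] using ht
  have h1 : Real.circleAverage φ 0 t = φ 0 := by
    refine DiffContOnCl.circleAverage ?_
    rw [abs_of_pos ht0]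
    refine DifferentiableOn.diffContOnCl (hφ.mono ?_)
    exact closure_ball_subset_closedBall.trans (closedBall_subset_ball ht)
  rw [Real.circleAverage_eq_integral_add (-π),
    intervalIntegral.integral_comp_add_right (fun θ => φ (circleMap 0 t θ)), h0, zero_add,
    show 2 * π + -π = π by ring] at h1
  have h2 : (∫ θ in (-π)..π, φ (circleMap 0 t θ)) = ((2 * π : ℝ) : ℂ) := by
    have h3 : (2 * π : ℝ) ≠ 0 := by positivity
    rw [inv_smul_eq_iff₀ h3] at h1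
    rw [h1]; simp
  have h4 : ∫ θ in (-π)..π, (φ (circleMap 0 t θ)).re = 2 * π := by
    have := (reCLM.intervalIntegral_comp_comm (hc.intervalIntegrable (-π) π) (μ := volume))
    simp only [reCLM_apply] at this
    rw [this, h2, ofReal_re]
  have hc2 : Continuous fun θ : ℝ => ‖φ (circleMap 0 t θ)‖ ^ 2 := hc.norm.pow 2
  have hc3 : Continuous fun θ : ℝ => (φ (circleMap 0 t θ)).re := continuous_re.comp hc
  have h5 : 2 * π ≤ ∫ θ in (-π)..π, ‖φ (circleMap 0 t θ)‖ ^ 2 := by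
    have h6 : ∫ θ in (-π)..π, (2 * (φ (circleMap 0 t θ)).re - 1) = 2 * π := by
      rw [intervalIntegral.integral_sub ((hc3.intervalIntegrable _ _).const_mul 2)
        (continuous_const.intervalIntegrable _ _), intervalIntegral.integral_const_mul, h4]
      simp; ring
    rw [← h6]
    refine intervalIntegral.integral_mono_on hpi
      (((continuous_const.mul hc3).sub continuous_const).intervalIntegrable _ _)
      (hc2.intervalIntegrable _ _) fun θ _ => ?_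
    nlinarith [re_le_norm (φ (circleMap 0 t θ)), sq_nonneg (‖φ (circleMap 0 t θ)‖ - 1)]
  rw [← ofReal_integral_eq_lintegral_ofReal
    ((hc2.continuousOn.integrableOn_compact isCompact_Icc).mono_set Ioo_subset_Icc_self)
    (Eventually.of_forall fun θ => by positivity), ← integral_Ioc_eq_integral_Ioo,
    ← intervalIntegral.integral_of_le hpi]
  exact ENNReal.ofReal_le_ofReal h5

lemma xloglb_polar (p : ℝ × ℝ) : Complex.polarCoord.symm p = circleMap 0 p.1 p.2 := by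
  rw [Complex.polarCoord_symm_apply, circleMap, exp_mul_I]; simp

theorem logLB : LogLBStmt := by
  intro B r hB hi h0 hr0 hr1
  obtain ⟨φ, hφ, hφ0, hφe⟩ := xloglb_phi hB hi h0
  have Am : MeasurableSet {z : ℂ | r < ‖z‖ ∧ ‖z‖ < 1} :=
    ((isOpen_lt continuous_const continuous_norm).inter
      (isOpen_lt continuous_norm continuous_const)).measurableSet
  have Rm : MeasurableSet (Ioo r 1 ×ˢ Ioo (-π) π) := measurableSet_Ioo.prod measurableSet_Ioo
  have hc : ContinuousOn (fun p : ℝ × ℝ =>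
      ENNReal.ofReal (1 / p.1) * ENNReal.ofReal (‖φ (circleMap 0 p.1 p.2)‖ ^ 2))
      (Ioo r 1 ×ˢ Ioo (-π) π) := by
    have c0 : Continuous fun p : ℝ × ℝ => circleMap 0 p.1 p.2 := by unfold circleMap; fun_prop
    have c1 : ContinuousOn (fun p : ℝ × ℝ => φ (circleMap 0 p.1 p.2)) (Ioo r 1 ×ˢ Ioo (-π) π) :=
      hφ.continuousOn.comp c0.continuousOn fun p hp => by
        simpa [abs_of_pos (hr0.trans hp.1.1)] using hp.1.2
    have c2 : ContinuousOn (fun p : ℝ × ℝ => 1 / p.1 * ‖φ (circleMap 0 p.1 p.2)‖ ^ 2)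
        (Ioo r 1 ×ˢ Ioo (-π) π) :=
      (continuousOn_const.div continuousOn_fst fun p hp => (hr0.trans hp.1.1).ne').mul
        (c1.norm.pow 2)
    refine (ENNReal.continuous_ofReal.comp_continuousOn c2).congr fun p hp => ?_
    have := hr0.trans hp.1.1
    exact (ENNReal.ofReal_mul (by positivity)).symm
  have c3 : ContinuousOn (fun t : ℝ => 1 / t * (2 * π)) (Icc r 1) :=
    (continuousOn_const.div continuousOn_id fun t ht => (hr0.trans_le ht.1).ne').mul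
      continuousOn_const
  calc ENNReal.ofReal (2 * π * Real.log (1 / r))
      = ∫⁻ t in Ioo r 1, ENNReal.ofReal (1 / t * (2 * π)) := by
        rw [← ofReal_integral_eq_lintegral_ofReal
          ((c3.integrableOn_compact isCompact_Icc).mono_set Ioo_subset_Icc_self),
          ← integral_Ioc_eq_integral_Ioo, ← intervalIntegral.integral_of_le hr1.le,
          intervalIntegral.integral_mul_const, integral_one_div_of_pos hr0 one_pos, mul_comm]
        refine (ae_restrict_iff' measurableSet_Ioo).2 (Eventually.of_forall fun t ht => ?_)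
        have := hr0.trans ht.1
        positivity
    _ ≤ ∫⁻ t in Ioo r 1, ∫⁻ θ in Ioo (-π) π,
          ENNReal.ofReal (1 / t) * ENNReal.ofReal (‖φ (circleMap 0 t θ)‖ ^ 2) := by
        refine setLIntegral_mono' measurableSet_Ioo fun t ht => ?_
        have := hr0.trans ht.1
        rw [lintegral_const_mul' _ _ ENNReal.ofReal_ne_top, ENNReal.ofReal_mul (by positivity)]
        exact mul_le_mul_right (xloglb_circ hφ hφ0 this ht.2) _
    _ = ∫⁻ p in Ioo r 1 ×ˢ Ioo (-π) π,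
          ENNReal.ofReal (1 / p.1) * ENNReal.ofReal (‖φ (circleMap 0 p.1 p.2)‖ ^ 2) := by
        rw [Measure.volume_eq_prod, setLIntegral_prod]
        rw [← Measure.volume_eq_prod]
        exact hc.aemeasurable Rm
    _ ≤ _ := by
        rw [← lintegral_indicator Am, ← Complex.lintegral_comp_polarCoord_symm]
        refine le_trans (setLIntegral_mono' Rm fun p hp => ?_)
          (lintegral_mono_set (t := polarCoord.target) fun p hp => ⟨hr0.trans hp.1.1, hp.2⟩)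
        have p1 : 0 < p.1 := hr0.trans hp.1.1
        have hn : ‖circleMap 0 p.1 p.2‖ = p.1 := by simp [abs_of_pos p1]
        rw [xloglb_polar, indicator_of_mem (show circleMap 0 p.1 p.2 ∈ {z : ℂ | r < ‖z‖ ∧ ‖z‖ < 1}
            from by simpa [hn, abs_of_pos p1] using hp.1),
          hφe _ (by simpa [abs_of_pos p1] using hp.1.2) (by rw [← norm_pos_iff, hn]; exact p1),
          smul_eq_mul, ← ENNReal.ofReal_mul p1.le, ← ENNReal.ofReal_mul (by positivity),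
          norm_div, hn]
        apply le_of_eq
        congr 1
        field_simp

end Pool.Agent.MP_32357e_an.H

end

section

/-! The first coefficient of a univalent Bieberbach-Eilenberg function. -/

set_option autoImplicit false

open Complex Set Filter Topology Metric MeasureTheory

namespace Pool.Agent.MP_32357e_an.H

open Pool.Agent.MP_1a2790_an

/-- small values are taken at small points -/
lemma xbe_small {B : ℂ → ℂ} (hd : DifferentiableOn ℂ B (ball 0 1)) (hi : InjOn B (ball 0 1))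
    (h0 : B 0 = 0) {c : ℝ} (hcb : c < ‖deriv B 0‖) :
    ∃ δ : ℝ, 0 < δ ∧ ∀ w : ℂ, ‖w‖ < δ → ∃ z ∈ ball (0 : ℂ) 1, B z = w ∧ c * ‖z‖ ≤ ‖w‖ := by
  have m0 : (0 : ℂ) ∈ ball (0 : ℂ) 1 := mem_ball_self one_pos
  have hB := (hd.differentiableAt (isOpen_ball.mem_nhds m0)).hasDerivAt
  have h1 := hB.isLittleO.bound (c := ‖deriv B 0‖ - c) (by linarith)
  have h2 : {z : ℂ | z ∈ ball (0 : ℂ) 1 ∧ c * ‖z‖ ≤ ‖B z‖} ∈ 𝓝 (0 : ℂ) := by
    filter_upwards [h1, isOpen_ball.mem_nhds m0] with z hz hz1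
    refine ⟨hz1, ?_⟩
    rw [h0, sub_zero, sub_zero, smul_eq_mul] at hz
    have h3 := norm_sub_norm_le (z * deriv B 0) (z * deriv B 0 - B z)
    rw [sub_sub_cancel, norm_sub_rev, norm_mul] at h3
    linarith
  have h3 := nhds_le_map_of_injOn isOpen_ball hd hi m0 (image_mem_map h2)
  rw [h0] at h3
  obtain ⟨δ, hδ, h4⟩ := Metric.mem_nhds_iff.1 h3
  refine ⟨δ, hδ, fun w hw => ?_⟩
  obtain ⟨z, hz, e⟩ := h4 (mem_ball_zero_iff.2 hw)
  exact ⟨z, hz.1, e, e ▸ hz.2⟩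

lemma xbe_core (h1 : LogLBStmt) (h2 : LogCVStmt) (h3 : LogAnnStmt) {B : ℂ → ℂ}
    (hd : DifferentiableOn ℂ B (ball 0 1)) (hi : InjOn B (ball 0 1)) (h0 : B 0 = 0)
    (hn : ∀ z ∈ ball (0 : ℂ) 1, ∀ w ∈ ball (0 : ℂ) 1, B z * B w ≠ 1) {r ρ : ℝ} (hr : 0 < r)
    (hr1 : r < 1) (hρ : 0 < ρ) (hρ1 : ρ ≤ 1)
    (hs : ∀ w : ℂ, ‖w‖ < ρ → ∃ z ∈ ball (0 : ℂ) 1, B z = w ∧ ‖z‖ ≤ r) : ρ ≤ r := by
  set A : Set ℂ := {z : ℂ | r < ‖z‖ ∧ ‖z‖ < 1} with hA
  have m0 : (0 : ℂ) ∈ ball (0 : ℂ) 1 := mem_ball_self one_pos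
  have Ao : IsOpen A :=
    (isOpen_lt continuous_const continuous_norm).inter (isOpen_lt continuous_norm continuous_const)
  have As : A ⊆ ball 0 1 := fun z hz => mem_ball_zero_iff.2 hz.2
  have lo : ∀ z ∈ A, ρ ≤ ‖B z‖ := fun z hz => by
    by_contra h
    obtain ⟨y, hy, e, hy1⟩ := hs _ (not_le.1 h)
    rw [hi hy (As hz) e] at hy1
    exact absurd hz.1 (not_lt.2 hy1)
  have ne : ∀ z ∈ A, B z ≠ 0 := fun z hz => norm_pos_iff.1 (hρ.trans_le (lo z hz))
  have up : ∀ z ∈ A, ρ ≤ ‖(B z)⁻¹‖ := fun z hz => by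
    by_contra h
    obtain ⟨y, hy, e, -⟩ := hs _ (not_le.1 h)
    exact hn z (As hz) y hy (by rw [e, mul_inv_cancel₀ (ne z hz)])
  have inv : ∀ w : ℂ, ρ ≤ ‖w⁻¹‖ → ‖w‖ ≤ 1 / ρ := fun w hw => by
    rw [norm_inv] at hw
    have h4 : 0 < ‖w‖ := inv_pos.1 (hρ.trans_le hw)
    rw [one_div]
    exact (le_inv_comm₀ hρ h4).1 hw
  have d1 : DifferentiableOn ℂ B A := hd.mono As
  have i1 : InjOn B A := hi.mono As
  have d2 : DifferentiableOn ℂ (fun z => (B z)⁻¹) A := d1.inv ne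
  have i2 : InjOn (fun z => (B z)⁻¹) A := fun z hz w hw e => i1 hz hw (inv_injective e)
  have e1 := h2 B A Ao d1 i1
  have e2 := h2 _ A Ao d2 i2
  have e3 : ∫⁻ z in A, ENNReal.ofReal (‖deriv (fun z => (B z)⁻¹) z / (B z)⁻¹‖ ^ 2)
      = ∫⁻ z in A, ENNReal.ofReal (‖deriv B z / B z‖ ^ 2) := by
    refine setLIntegral_congr_fun Ao.measurableSet fun z hz => ?_
    have h4 := ((d1.differentiableAt (Ao.mem_nhds hz)).hasDerivAt.inv (ne z hz)).deriv
    have h5 : deriv (fun z => (B z)⁻¹) z / (B z)⁻¹ = -(deriv B z / B z) := by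
      have h6 := ne z hz
      rw [show deriv (fun z => (B z)⁻¹) z = -deriv B z / B z ^ 2 from h4]
      field_simp
    simp only [h5, norm_neg]
  have dj : Disjoint (B '' A) ((fun z => (B z)⁻¹) '' A) := by
    rw [Set.disjoint_left]
    rintro _ ⟨z, hz, rfl⟩ ⟨w, hw, e⟩
    exact hn w (As hw) z (As hz) (by rw [← e]; exact mul_inv_cancel₀ (ne w hw))
  have sb : B '' A ∪ (fun z => (B z)⁻¹) '' A ⊆ {w : ℂ | ρ ≤ ‖w‖ ∧ ‖w‖ ≤ 1 / ρ} := by
    rintro _ (⟨z, hz, rfl⟩ | ⟨z, hz, rfl⟩)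
    · exact ⟨lo z hz, inv _ (up z hz)⟩
    · exact ⟨up z hz, inv _ (by rw [inv_inv]; exact lo z hz)⟩
  have k1 := (lintegral_mono_set (μ := volume)
    (f := fun w : ℂ => ENNReal.ofReal (1 / ‖w‖ ^ 2)) sb).trans (h3 ρ hρ hρ1)
  rw [lintegral_union (isOpen_image_of_injOn Ao d2 i2).measurableSet dj, e1, e2, e3] at k1
  have k2 := h1 B r hd hi h0 hr hr1
  have l1 : 0 ≤ Real.log (1 / r) := Real.log_nonneg (one_le_one_div hr hr1.le)
  have l2 : 0 ≤ Real.log (1 / ρ) := Real.log_nonneg (one_le_one_div hρ hρ1)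
  have hπ := Real.pi_pos
  have k3 := (add_le_add k2 k2).trans k1
  rw [← ENNReal.ofReal_add (by positivity) (by positivity),
    ENNReal.ofReal_le_ofReal_iff (by positivity)] at k3
  have k4 : Real.log (1 / r) ≤ Real.log (1 / ρ) := by
    by_contra h
    have := mul_lt_mul_of_pos_left (not_le.1 h) hπ
    linarith
  rw [Real.log_le_log_iff (by positivity) (by positivity)] at k4
  exact (one_div_le_one_div hr hρ).1 k4

theorem be (h1 : LogLBStmt) (h2 : LogCVStmt) (h3 : LogAnnStmt) : BEStmt := by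
  intro B hd hi h0 hn
  by_contra h
  obtain ⟨c, c1, c2⟩ := exists_between (not_le.1 h)
  have c0 : 0 < c := by linarith
  obtain ⟨δ, hδ, hs⟩ := xbe_small hd hi h0 c2
  have hρ : 0 < min δ 1 := lt_min hδ one_pos
  have hr1 : min δ 1 / c < min δ 1 := div_lt_self hρ c1
  refine absurd (xbe_core h1 h2 h3 hd hi h0 hn (div_pos hρ c0) (hr1.trans_le (min_le_right _ _))
    hρ (min_le_right _ _) fun w hw => ?_) (not_le.2 hr1)
  obtain ⟨z, hz, e, hz1⟩ := hs w (hw.trans_le (min_le_left _ _))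
  refine ⟨z, hz, e, ?_⟩
  rw [le_div_iff₀ c0]
  linarith

end Pool.Agent.MP_32357e_an.H

end

section

set_option autoImplicit false

open Complex Set Filter Topology Metric MeasureTheory

namespace Pool.Agent.MP_32357e_an.H

/-- Holomorphic square root of a nonvanishing function on the unit disc. -/
lemma xkoebe_root {G : ℂ → ℂ} (hG : DifferentiableOn ℂ G (ball 0 1))
    (h0 : ∀ z ∈ ball (0 : ℂ) 1, G z ≠ 0) :
    ∃ h : ℂ → ℂ, DifferentiableOn ℂ h (ball 0 1) ∧ ∀ z ∈ ball (0 : ℂ) 1, h z ^ 2 = G z := by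
  have hd : DifferentiableOn ℂ (fun z => deriv G z / G z) (ball 0 1) :=
    (hG.deriv isOpen_ball).div hG h0
  obtain ⟨L, hL0, hL⟩ := hd.isExactOn_ball.with_val_at 0 (log (G 0))
  have hz0 : (0 : ℂ) ∈ ball (0 : ℂ) 1 := mem_ball_self one_pos
  have hK : ∀ z ∈ ball (0 : ℂ) 1, HasDerivAt (fun w => G w * exp (- L w)) 0 z := by
    intro z hz
    have h1 := (hG.differentiableAt (isOpen_ball.mem_nhds hz)).hasDerivAt
    have h2 := h1.mul ((hL z hz).neg.cexp)
    refine HasDerivAt.congr_deriv h2 ?_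
    have := h0 z hz
    simp only [Pi.neg_apply]
    field_simp
    ring
  have hc : ∀ z ∈ ball (0 : ℂ) 1, G z * exp (- L z) = G 0 * exp (- L 0) := by
    intro z hz
    exact isOpen_ball.is_const_of_deriv_eq_zero (convex_ball (0 : ℂ) 1).isPreconnected
      (f := fun w => G w * exp (- L w))
      (fun w hw => (hK w hw).differentiableAt.differentiableWithinAt)
      (fun w hw => (hK w hw).deriv) hz hz0
  refine ⟨fun z => exp (L z / 2), fun z hz =>
    ((hL z hz).div_const 2).cexp.differentiableAt.differentiableWithinAt, fun z hz => ?_⟩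
  have h1 := hc z hz
  rw [hL0, exp_neg (log (G 0)), exp_log (h0 0 hz0), mul_inv_cancel₀ (h0 0 hz0), exp_neg] at h1
  have h2 : exp (L z) ≠ 0 := exp_ne_zero _
  have h3 : G z = exp (L z) := by
    rw [← div_eq_mul_inv, div_eq_one_iff_eq h2] at h1
    exact h1
  show exp (L z / 2) ^ 2 = G z
  rw [h3, sq, ← exp_add]
  congr 1
  ring

/-- Koebe inequality at the centre of the disc. -/
lemma xkoebe_disc (hBE : BEStmt) {G : ℂ → ℂ} (hG : DifferentiableOn ℂ G (ball 0 1))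
    (hi : InjOn G (ball 0 1)) (h0 : ∀ z ∈ ball (0 : ℂ) 1, G z ≠ 0) :
    ‖deriv G 0‖ ≤ 4 * ‖G 0‖ := by
  obtain ⟨h, hd, hsq⟩ := xkoebe_root hG h0
  have hz0 : (0 : ℂ) ∈ ball (0 : ℂ) 1 := mem_ball_self one_pos
  have hne : ∀ z ∈ ball (0 : ℂ) 1, h z ≠ 0 := by
    intro z hz e
    apply h0 z hz
    rw [← hsq z hz, e]; ring
  have hadd : ∀ z ∈ ball (0 : ℂ) 1, ∀ w ∈ ball (0 : ℂ) 1, h z + h w ≠ 0 := by
    intro z hz w hw e
    have e1 : h z = - h w := eq_neg_of_add_eq_zero_left e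
    have e2 : G z = G w := by rw [← hsq z hz, ← hsq w hw, e1]; ring
    have e3 : z = w := hi hz hw e2
    subst e3
    apply hne z hz
    linear_combination (1 / 2 : ℂ) * e
  have hinj : InjOn h (ball 0 1) := by
    intro z hz w hw e
    apply hi hz hw
    rw [← hsq z hz, ← hsq w hw, e]
  have h00 := hne 0 hz0
  have hB := hBE (fun z => (h z - h 0) / (h z + h 0))
    ((hd.sub_const _).div (hd.add_const _) fun z hz => hadd z hz 0 hz0)
    (by
      intro z hz w hw e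
      apply hinj hz hw
      simp only at e
      rw [div_eq_div_iff (hadd z hz 0 hz0) (hadd w hw 0 hz0)] at e
      have e1 : 2 * h 0 * (h z - h w) = 0 := by linear_combination e
      rcases mul_eq_zero.1 e1 with e2 | e2
      · exact absurd e2 (mul_ne_zero two_ne_zero h00)
      · exact sub_eq_zero.1 e2)
    (by simp)
    (by
      intro z hz w hw e
      rw [div_mul_div_comm, div_eq_one_iff_eq
        (mul_ne_zero (hadd z hz 0 hz0) (hadd w hw 0 hz0))] at e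
      have e1 : 2 * h 0 * (h z + h w) = 0 := by linear_combination (-1 : ℂ) * e
      rcases mul_eq_zero.1 e1 with e2 | e2
      · exact absurd e2 (mul_ne_zero two_ne_zero h00)
      · exact hadd z hz w hw e2)
  have hh := (hd.differentiableAt (isOpen_ball.mem_nhds hz0)).hasDerivAt
  have hBd : HasDerivAt (fun z => (h z - h 0) / (h z + h 0)) (deriv h 0 / (2 * h 0)) 0 := by
    have h1 := (hh.sub_const (h 0)).div (hh.add_const (h 0)) (hadd 0 hz0 0 hz0)
    refine HasDerivAt.congr_deriv h1 ?_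
    have e : h 0 + h 0 = 2 * h 0 := by ring
    rw [e]
    field_simp
    ring
  have hGd : HasDerivAt G (2 * h 0 * deriv h 0) 0 := by
    have h1 := hh.mul hh
    have h2 : G =ᶠ[𝓝 0] h * h := by
      filter_upwards [isOpen_ball.mem_nhds hz0] with z hz
      rw [← hsq z hz, sq]; rfl
    refine HasDerivAt.congr_of_eventuallyEq (HasDerivAt.congr_deriv h1 ?_) h2
    ring
  rw [hBd.deriv, norm_div, div_le_one (norm_pos_iff.2 (mul_ne_zero two_ne_zero h00))] at hB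
  rw [hGd.deriv, ← hsq 0 hz0, norm_mul, norm_pow]
  rw [norm_mul, Complex.norm_two] at hB ⊢
  have hp : 0 ≤ ‖h 0‖ := norm_nonneg _
  nlinarith [mul_le_mul_of_nonneg_left hB hp]

lemma xkoebe_ne {z : ℂ} (hz : z ∈ ball (0 : ℂ) 1) : 1 - z ≠ 0 := by
  intro e
  have : z = 1 := (sub_eq_zero.1 e).symm
  rw [this] at hz
  simp at hz

lemma xkoebe_re {z : ℂ} (hz : z ∈ ball (0 : ℂ) 1) : 0 < ((1 + z) / (1 - z)).re := by
  have h1 := xkoebe_ne hz
  have h2 : 0 < normSq (1 - z) := normSq_pos.2 h1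
  have h3 : ‖z‖ < 1 := mem_ball_zero_iff.1 hz
  have h4 : normSq z < 1 := by
    rw [normSq_eq_norm_sq]
    nlinarith [norm_nonneg z]
  rw [normSq_apply] at h4
  rw [div_re, ← add_div]
  apply div_pos _ h2
  simp only [add_re, one_re, sub_re, add_im, one_im, sub_im]
  nlinarith

theorem koebe (h : BEStmt) : KoebeStmt := by
  intro g hg hi h0 v hv
  have hvr : 0 < v.re := hv
  have hvc : (v.re : ℂ) ≠ 0 := ofReal_ne_zero.2 hvr.ne'
  set ψ : ℂ → ℂ := fun z => I * v.im + v.re * ((1 + z) / (1 - z)) with hψ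
  have hmaps : MapsTo ψ (ball 0 1) HP := by
    intro z hz
    have h1 := xkoebe_re hz
    rw [mem_HP]
    have : (ψ z).re = v.re * ((1 + z) / (1 - z)).re := by
      simp only [hψ, add_re, mul_re, I_re, I_im, ofReal_re, ofReal_im]
      ring
    rw [this]
    exact mul_pos hvr h1
  have hψd : ∀ z ∈ ball (0 : ℂ) 1, HasDerivAt ψ (v.re * (2 / (1 - z) ^ 2)) z := by
    intro z hz
    have h1 := xkoebe_ne hz
    have h2 := ((hasDerivAt_id z).const_add 1).div ((hasDerivAt_id z).const_sub 1) h1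
    have h3 := (h2.const_mul (v.re : ℂ)).const_add (I * v.im)
    refine HasDerivAt.congr_deriv h3 ?_
    simp only [id]
    field_simp
    ring
  have hψi : InjOn ψ (ball 0 1) := by
    intro z hz w hw e
    simp only [hψ, add_right_inj] at e
    have e1 := mul_left_cancel₀ hvc e
    rw [div_eq_div_iff (xkoebe_ne hz) (xkoebe_ne hw)] at e1
    linear_combination (1 / 2 : ℂ) * e1
  have hψ0 : ψ 0 = v := by
    simp only [hψ]
    apply Complex.ext <;> simp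
  have hz0 : (0 : ℂ) ∈ ball (0 : ℂ) 1 := mem_ball_self one_pos
  have hG : DifferentiableOn ℂ (g ∘ ψ) (ball 0 1) :=
    hg.comp (fun z hz => (hψd z hz).differentiableAt.differentiableWithinAt) hmaps
  have hK := xkoebe_disc h hG (hi.comp hψi hmaps) (fun z hz => h0 _ (hmaps hz))
  have hgd : HasDerivAt g (deriv g v) (ψ 0) := by
    rw [hψ0]
    exact (hg.differentiableAt (isOpen_HP.mem_nhds hv)).hasDerivAt
  have hD := (hgd.comp 0 (hψd 0 hz0)).deriv
  rw [hD, Function.comp_apply, hψ0, norm_mul, norm_mul] at hK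
  have e1 : ‖(v.re : ℂ)‖ = v.re := by
    rw [Complex.norm_real, Real.norm_eq_abs, abs_of_pos hvr]
  have e2 : ‖(2 / (1 - 0) ^ 2 : ℂ)‖ = 2 := by simp
  rw [e1, e2] at hK
  linarith

end Pool.Agent.MP_32357e_an.H

end

section

set_option autoImplicit false

open Complex Set Filter Topology Metric

namespace Pool.Agent.MP_32357e_an.H

lemma xlim_mem {s : ℝ} (hs : 0 < s) {v : ℂ} (hv : v ∈ HP) : (s : ℂ) * v ∈ HP := by
  rw [mem_HP] at hv ⊢
  simpa using mul_pos hs hv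

lemma xlim_deriv {g : ℂ → ℂ} (hg : DifferentiableOn ℂ g HP) {s : ℝ} (hs : 0 < s) {v : ℂ}
    (hv : v ∈ HP) : HasDerivAt (fun v => (s : ℂ) ^ 2 * g (s * v))
      ((s : ℂ) ^ 2 * (deriv g (s * v) * s)) v := by
  have h := (hg.differentiableAt (isOpen_HP.mem_nhds (xlim_mem hs hv))).hasDerivAt
  have h' : HasDerivAt (fun v : ℂ => (s : ℂ) * v) s v := by
    simpa using (hasDerivAt_id v).const_mul (s : ℂ)
  exact (h.comp v h').const_mul _

theorem lim (h1 : MonoStmt) (h2 : RigidStmt) : LimStmt := by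
  intro g α s 𝒰 hg hi hα s0 hs
  obtain ⟨m1, m2⟩ := h1 g hg hi
  have hd : ∀ n, DifferentiableOn ℂ (fun v => (s n : ℂ) ^ 2 * g (s n * v)) HP := fun n v hv =>
    (xlim_deriv hg (s0 n) hv).differentiableAt.differentiableWithinAt
  have nm : ∀ n v, ‖(s n : ℂ) ^ 2 * g (s n * v)‖ = s n ^ 2 * ‖g (s n * v)‖ := fun n v => by
    rw [norm_mul, norm_pow, Complex.norm_real, Real.norm_of_nonneg (s0 n).le]
  obtain ⟨k, hk⟩ := Pool.Agent.MP_1a2790_an.montel 𝒰 hd fun z hz => by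
    have z0 : 0 < z.re := hz
    have re : ∀ w ∈ ball z (z.re / 2), z.re / 2 ≤ w.re ∧ w.re ≤ 2 * z.re ∧
        |w.im| ≤ |z.im| + z.re := fun w hw => by
      rw [mem_ball, dist_eq_norm] at hw
      have a := abs_le.1 (abs_re_le_norm (w - z))
      have b := abs_im_le_norm (w - z)
      rw [sub_re] at a
      rw [sub_im] at b
      have c := abs_sub_abs_le_abs_sub w.im z.im
      exact ⟨by linarith, by linarith, by linarith⟩
    refine ⟨z.re / 2, by positivity, ‖g 1‖ / (z.re / 2) ^ 2 *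
      Real.exp (2 * (|z.im| + z.re) / (z.re / 2)), fun w hw => ?_, ?_⟩
    · exact lt_of_lt_of_le (by positivity) (re w hw).1
    filter_upwards [hs.eventually (gt_mem_nhds (show 0 < 1 / (2 * z.re) by positivity))]
      with n hn w hw
    obtain ⟨a, b, c⟩ := re w hw
    have w0 : 0 < w.re := lt_of_lt_of_le (by positivity) a
    have sn := s0 n
    have x0 : 0 < s n * w.re := by positivity
    have x1 : s n * w.re ≤ 1 := by
      rw [lt_div_iff₀ (by positivity)] at hn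
      nlinarith
    have e : (s n : ℂ) * w = ((s n * w.re : ℝ) : ℂ) + ((s n * w.im : ℝ) : ℂ) * I := by
      conv_lhs => rw [← re_add_im w]
      push_cast
      ring
    have b1 := m2 (s n * w.re) (s n * w.im) x0
    have b2 := m1 (s n * w.re) 1 0 x0 x1
    simp only [ofReal_zero, zero_mul, add_zero, one_pow, one_mul, ofReal_one] at b2
    have b3 : s n ^ 2 * ‖g ((s n * w.re : ℝ) : ℂ)‖ ≤ ‖g 1‖ / (z.re / 2) ^ 2 := by
      rw [le_div_iff₀ (by positivity)]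
      refine le_trans ?_ b2
      rw [mul_pow, mul_right_comm]
      gcongr
    have b4 : 2 * |s n * w.im| / (s n * w.re) ≤ 2 * (|z.im| + z.re) / (z.re / 2) := by
      rw [abs_mul, abs_of_pos sn, mul_left_comm, mul_div_mul_left _ _ sn.ne']
      gcongr
    rw [nm, e]
    calc _ ≤ s n ^ 2 * (‖g ((s n * w.re : ℝ) : ℂ)‖ *
          Real.exp (2 * |s n * w.im| / (s n * w.re))) := by gcongr
      _ ≤ _ := by rw [← mul_assoc]; gcongr
  have kd := hk.differentiableOn (Eventually.of_forall hd) isOpen_HP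
  have kd' := hk.deriv (Eventually.of_forall hd) isOpen_HP
  obtain ⟨C, hC, hkC⟩ := h2 k α kd (fun v hv => by
    refine le_of_tendsto_of_tendsto' ((kd'.tendsto_at hv).norm.const_mul _)
      ((hk.tendsto_at hv).norm.const_mul _) fun n => ?_
    have a := hi _ (xlim_mem (s0 n) hv)
    have sn := s0 n
    simp only [Function.comp_apply]
    rw [(xlim_deriv hg sn hv).deriv, nm, norm_mul, norm_mul, norm_pow, Complex.norm_real,
      Real.norm_of_nonneg sn.le]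
    rw [re_ofReal_mul] at a
    nlinarith [mul_le_mul_of_nonneg_left a (sq_nonneg (s n))]) fun x hx => by
    have hv : (x : ℂ) ∈ HP := by simpa [mem_HP] using hx
    refine tendsto_nhds_unique ((hk.tendsto_at hv).norm.const_mul _) ?_
    have t : Tendsto (fun n => s n * x) 𝒰 (𝓝[>] 0) :=
      tendsto_nhdsWithin_iff.2 ⟨by simpa using hs.mul_const x,
        Eventually.of_forall fun n => mul_pos (s0 n) hx⟩
    refine (hα.comp t).congr fun n => ?_
    simp only [Function.comp_apply]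
    rw [nm]
    push_cast
    ring
  exact ⟨C, hC, hk.congr_right hkC⟩

end Pool.Agent.MP_32357e_an.H

end

section

/-! The contradiction in the half-plane. -/

set_option autoImplicit false

open Complex Set Filter Topology Metric MeasureTheory

namespace Pool.Agent.MP_32357e_an.H

lemma xblow_one_le {w : ℂ} (hw : 0 ≤ w.re) : 1 ≤ ‖1 + w‖ := by
  have h := Complex.re_le_norm (1 + w)
  simp only [add_re, one_re] at h
  linarith

/-- Growth of the primitive along the real axis. -/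
lemma xblow_axis {g F : ℂ → ℂ} {w₀ : ℂ} {Q : ℝ}
    (hF : ∀ u ∈ HP, HasDerivAt F (-2 * (g u + w₀) / (1 + u) ^ 2) u)
    (hQ : ∀ t : ℝ, 0 < t → t ≤ 1 → t ^ 2 * ‖g t‖ ≤ Q) {x : ℝ} (hx : 0 < x) (hx1 : x ≤ 1) :
    ‖F x‖ ≤ ‖F 1‖ + 2 * ‖w₀‖ + 2 * Q / x := by
  have hQ0 : 0 ≤ Q := le_trans (by positivity) (hQ 1 one_pos le_rfl)
  have hd : ∀ t : ℝ, 0 < t → HasDerivAt (fun t : ℝ => F t - F x)
      (-2 * (g t + w₀) / (1 + t) ^ 2) t := fun t ht =>
    ((hF t (by simpa [mem_HP] using ht)).comp_ofReal).sub_const _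
  have hB : ∀ t : ℝ, 0 < t → HasDerivAt (fun t : ℝ => 2 * Q * (x⁻¹ - t⁻¹) + 2 * ‖w₀‖ * (t - x))
      (2 * Q * (t ^ 2)⁻¹ + 2 * ‖w₀‖) t := by
    intro t ht
    have h1 := ((hasDerivAt_inv ht.ne').const_sub x⁻¹).const_mul (2 * Q)
    have h2 := ((hasDerivAt_id t).sub_const x).const_mul (2 * ‖w₀‖)
    refine (h1.add h2).congr_deriv ?_
    simp
  have key := image_norm_le_of_norm_deriv_right_le_deriv_boundary' (a := x) (b := 1)
    (f := fun t : ℝ => F t - F x) (f' := fun t : ℝ => -2 * (g t + w₀) / (1 + t) ^ 2)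
    (fun t ht => (hd t (hx.trans_le ht.1)).continuousAt.continuousWithinAt)
    (fun t ht => (hd t (hx.trans_le ht.1)).hasDerivWithinAt)
    (B := fun t : ℝ => 2 * Q * (x⁻¹ - t⁻¹) + 2 * ‖w₀‖ * (t - x))
    (B' := fun t : ℝ => 2 * Q * (t ^ 2)⁻¹ + 2 * ‖w₀‖) (by simp)
    (fun t ht => (hB t (hx.trans_le ht.1)).continuousAt.continuousWithinAt)
    (fun t ht => (hB t (hx.trans_le ht.1)).hasDerivWithinAt)
    (by
      intro t ht
      have ht0 : 0 < t := hx.trans_le ht.1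
      have h1 : 1 ≤ ‖(1 + t : ℂ)‖ := xblow_one_le (by simpa using ht0.le)
      have h2 : ‖g t‖ ≤ Q * (t ^ 2)⁻¹ := by
        rw [← div_eq_mul_inv, le_div_iff₀ (by positivity), mul_comm]
        exact hQ t ht0 ht.2.le
      rw [norm_div, norm_mul, norm_pow, norm_neg]
      have h3 : ‖g t + w₀‖ ≤ ‖g t‖ + ‖w₀‖ := norm_add_le _ _
      have h4 : (1 : ℝ) ≤ ‖(1 + t : ℂ)‖ ^ 2 := one_le_pow₀ h1
      have h5 : ‖(2 : ℂ)‖ = 2 := by simp
      rw [h5]
      refine (div_le_self (by positivity) h4).trans ?_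
      linarith)
    (x := 1) ⟨hx1, le_rfl⟩
  simp only [ofReal_one, inv_one] at key
  have h6 : ‖F x‖ ≤ ‖F 1‖ + ‖F 1 - F x‖ := by
    have := norm_sub_le (F 1) (F 1 - F x)
    simpa using this
  have h7 : 2 * ‖w₀‖ * (1 - x) ≤ 2 * ‖w₀‖ := by nlinarith [norm_nonneg w₀]
  have h8 : 2 * Q * (x⁻¹ - 1) ≤ 2 * Q / x := by
    rw [div_eq_mul_inv]; nlinarith
  linarith

/-- Pointwise bound of the derivative of the rescaled primitive minus its limit. -/
lemma xblow_der {k C w w₀ : ℂ} {s δ R ε : ℝ} (hs : 0 < s) (hδ : 0 < δ) (hw : δ ≤ w.re)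
    (hR : ‖w‖ ≤ R) (hk : ‖k - C / w ^ 2‖ ≤ ε) :
    ‖-2 * (k + (s : ℂ) ^ 2 * w₀) / (1 + s * w) ^ 2 + 2 * C / w ^ 2‖ ≤
      2 * ε + 2 * s ^ 2 * ‖w₀‖ + 2 * (‖C‖ / δ ^ 2) * (s * R * (2 + s * R)) := by
  have hre : 0 ≤ ((s : ℂ) * w).re := by
    simp only [re_ofReal_mul]; exact mul_nonneg hs.le (hδ.le.trans hw)
  have h1 : 1 ≤ ‖1 + s * w‖ := xblow_one_le hre
  have h0 : (1 + s * w : ℂ) ≠ 0 := by
    intro h; rw [h, norm_zero] at h1; linarith
  have hwn : δ ≤ ‖w‖ := hw.trans (Complex.re_le_norm w)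
  have hw0 : w ≠ 0 := by
    intro h; rw [h, norm_zero] at hwn; linarith
  have e : -2 * (k + (s : ℂ) ^ 2 * w₀) / (1 + s * w) ^ 2 + 2 * C / w ^ 2 =
      (-2 * (k - C / w ^ 2) + -2 * ((s : ℂ) ^ 2 * w₀) +
        2 * (C / w ^ 2) * (s * w * (2 + s * w))) / (1 + s * w) ^ 2 := by
    field_simp
    ring
  rw [e, norm_div, norm_pow]
  refine (div_le_self (norm_nonneg _) (one_le_pow₀ h1)).trans ?_
  have h5 : ‖(2 : ℂ)‖ = 2 := by simp
  have hsw : ‖(s : ℂ) * w‖ ≤ s * R := by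
    rw [norm_mul, Complex.norm_real, Real.norm_of_nonneg hs.le]
    exact mul_le_mul_of_nonneg_left hR hs.le
  have hsR : 0 ≤ s * R := (norm_nonneg _).trans hsw
  have a1 : ‖-2 * (k - C / w ^ 2)‖ ≤ 2 * ε := by
    rw [norm_mul, norm_neg, h5]; linarith
  have a2 : ‖-2 * ((s : ℂ) ^ 2 * w₀)‖ = 2 * s ^ 2 * ‖w₀‖ := by
    rw [norm_mul, norm_neg, h5, norm_mul, norm_pow, Complex.norm_real, Real.norm_of_nonneg hs.le]
    ring
  have a3 : ‖2 * (C / w ^ 2) * (s * w * (2 + s * w))‖ ≤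
      2 * (‖C‖ / δ ^ 2) * (s * R * (2 + s * R)) := by
    rw [norm_mul, norm_mul, h5, norm_div, norm_pow, norm_mul]
    have b1 : ‖C‖ / ‖w‖ ^ 2 ≤ ‖C‖ / δ ^ 2 := by gcongr
    have b2 : ‖(2 + s * w : ℂ)‖ ≤ 2 + s * R := by
      refine (norm_add_le _ _).trans ?_
      rw [h5]; linarith
    gcongr
  refine (norm_add₃_le).trans ?_
  linarith

theorem blow (h1 : MonoStmt) (h2 : LimStmt) : BlowStmt := by
  intro g F w₀ c v hg hK hF hc hv hv0 hineq
  obtain ⟨hm, -⟩ := h1 g hg hK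
  have hm0 : ∀ x₁ x₂ : ℝ, 0 < x₁ → x₁ ≤ x₂ → x₁ ^ 2 * ‖g x₁‖ ≤ x₂ ^ 2 * ‖g x₂‖ := by
    intro x₁ x₂ a b
    simpa using hm x₁ x₂ 0 a b
  obtain ⟨α, hα⟩ : ∃ α : ℝ, Tendsto (fun x : ℝ => x ^ 2 * ‖g x‖) (𝓝[>] 0) (𝓝 α) :=
    ⟨_, MonotoneOn.tendsto_nhdsGT (fun a ha b _ hab => hm0 a b ha hab)
      ⟨0, by rintro _ ⟨x, -, rfl⟩; positivity⟩⟩
  set 𝒰 : Ultrafilter ℕ := hyperfilter ℕ
  have hvU : Tendsto v 𝒰 (𝓝 0) := hv0.mono_left Nat.hyperfilter_le_atTop
  set s : ℕ → ℝ := fun n => ‖v n‖ with hsdef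
  have hre : ∀ n, (v n).re ≤ s n := fun n => Complex.re_le_norm _
  have hs : ∀ n, 0 < s n := fun n => (hv n).trans_le (hre n)
  have hs0 : Tendsto s 𝒰 (𝓝 0) := by simpa using hvU.norm
  have hsC : ∀ n, (s n : ℂ) ≠ 0 := fun n => ofReal_ne_zero.2 (hs n).ne'
  set u : ℕ → ℂ := fun n => v n / s n with hudef
  have hsu : ∀ n, (s n : ℂ) * u n = v n := fun n => mul_div_cancel₀ _ (hsC n)
  have hun : ∀ n, ‖u n‖ = 1 := by
    intro n
    simp only [hudef, norm_div, Complex.norm_real, Real.norm_of_nonneg (hs n).le]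
    exact div_self (hs n).ne'
  have hure : ∀ n, (v n).re = s n * (u n).re := by
    intro n; rw [← hsu n, re_ofReal_mul]
  have huim : ∀ n, (v n).im = s n * (u n).im := by
    intro n; rw [← hsu n, im_ofReal_mul]
  have hupos : ∀ n, 0 < (u n).re := by
    intro n
    have := hv n
    rw [mem_HP, hure] at this
    exact (pos_iff_pos_of_mul_pos this).1 (hs n)
  obtain ⟨a, ha⟩ := Pool.Agent.MP_1a2790_an.exists_tendsto_of_bounded 𝒰 (a := u) (M := 1)
    (Eventually.of_forall fun n => (hun n).le)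
  have han : ‖a‖ = 1 := tendsto_nhds_unique ha.norm (by simp [hun])
  have hare : Tendsto (fun n => (u n).re) 𝒰 (𝓝 a.re) := (continuous_re.tendsto a).comp ha
  have haim : Tendsto (fun n => (u n).im) 𝒰 (𝓝 a.im) := (continuous_im.tendsto a).comp ha
  have ha0 : 0 ≤ a.re := ge_of_tendsto' hare fun n => (hupos n).le
  obtain ⟨C, hC, hk⟩ := h2 g α s 𝒰 hg hK hα hs hs0
  have hcont : ∀ w ∈ HP, ContinuousWithinAt (fun v : ℂ => C / v ^ 2) HP w := by
    intro w hw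
    have hw0 : w ≠ 0 := by rintro rfl; simp [mem_HP] at hw
    exact (continuousAt_const.div (continuousAt_id.pow 2) (pow_ne_zero 2 hw0)).continuousWithinAt
  have hsw : Tendsto (fun n => s n ^ 2 * ‖w₀‖) 𝒰 (𝓝 0) := by
    simpa using (hs0.pow 2).mul_const ‖w₀‖
  have hsplit : ∀ n, c * (1 + ‖F (v n)‖ ^ 2) ≤ (v n).re ^ 2 * ‖g (v n)‖ + s n ^ 2 * ‖w₀‖ := by
    intro n
    have b1 : (v n).re ^ 2 ≤ s n ^ 2 := pow_le_pow_left₀ (hv n).le (hre n) 2
    have b2 := mul_le_mul_of_nonneg_left (norm_add_le (g (v n)) w₀) (sq_nonneg (v n).re)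
    have b3 := mul_le_mul_of_nonneg_right b1 (norm_nonneg w₀)
    linarith [hineq n]
  have hB : ∀ x : ℝ, a.re < x → c ≤ x ^ 2 * ‖C / ((x : ℂ) + a.im * I) ^ 2‖ := by
    intro x hx
    have hx0 : 0 < x := ha0.trans_lt hx
    have hmem : ∀ y : ℝ, (x : ℂ) + y * I ∈ HP := fun y => by simpa [mem_HP] using hx0
    have ht : Tendsto (fun n => (x : ℂ) + (u n).im * I) 𝒰 (𝓝[HP] ((x : ℂ) + a.im * I)) :=
      tendsto_nhdsWithin_iff.2 ⟨(((continuous_ofReal.tendsto _).comp haim).mul_const I).const_add _,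
        Eventually.of_forall fun n => hmem _⟩
    have h3 := ((hk.tendsto_comp (hcont _ (hmem _)) (hmem _) ht).norm.const_mul (x ^ 2)).add hsw
    rw [add_zero] at h3
    refine ge_of_tendsto h3 ?_
    filter_upwards [hare.eventually (gt_mem_nhds hx)] with n hn
    have b1 := hm (v n).re (s n * x) (v n).im (hv n)
      (by rw [hure]; exact mul_le_mul_of_nonneg_left hn.le (hs n).le)
    rw [re_add_im] at b1
    have e : (s n : ℂ) * ((x : ℂ) + (u n).im * I) = ((s n * x : ℝ) : ℂ) + (v n).im * I := by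
      rw [huim]; push_cast; ring
    rw [e, norm_mul, norm_pow, Complex.norm_real, Real.norm_of_nonneg (hs n).le]
    have b2 := hsplit n
    have b3 : 0 ≤ c * ‖F (v n)‖ ^ 2 := by positivity
    nlinarith
  have hα0 : 0 < α := by
    have b := hB (a.re + 1) (by linarith)
    rw [← hC]
    by_contra hne
    have : C = 0 := norm_eq_zero.1 (le_antisymm (not_lt.1 hne) (norm_nonneg _))
    rw [this] at b
    simp at b
    linarith
  have hapos : 0 < a.re := by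
    refine lt_of_le_of_ne ha0 fun h0 => ?_
    have him : |a.im| = 1 := by
      rw [← han, ← re_add_im a, ← h0]; simp
    have b : ∀ x : ℝ, 0 < x → c ≤ x ^ 2 * α := by
      intro x hx
      refine (hB x (h0 ▸ hx)).trans (mul_le_mul_of_nonneg_left ?_ (sq_nonneg x))
      rw [norm_div, norm_pow, hC]
      refine div_le_self hα0.le (one_le_pow₀ ?_)
      have := Complex.abs_im_le_norm ((x : ℂ) + a.im * I)
      simpa [him] using this
    have ht : Tendsto (fun x : ℝ => x ^ 2 * α) (𝓝[>] 0) (𝓝 (0 ^ 2 * α)) :=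
      (((continuous_pow 2).mul continuous_const).tendsto 0).mono_left nhdsWithin_le_nhds
    have := ge_of_tendsto ht (eventually_mem_nhdsWithin.mono fun x hx => b x hx)
    simp at this
    linarith
  have haU : Tendsto u 𝒰 (𝓝[HP] a) :=
    tendsto_nhdsWithin_iff.2 ⟨ha, Eventually.of_forall hupos⟩
  have hku := (hk.tendsto_comp (hcont a hapos) hapos haU).norm
  have hsF : Tendsto (fun n => s n * ‖F (v n)‖) 𝒰 (𝓝 0) := by
    have b1 : Tendsto (fun n => s n ^ 2 * ((‖(s n : ℂ) ^ 2 * g (s n * u n)‖ + s n ^ 2 * ‖w₀‖) / c))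
        𝒰 (𝓝 0) := by
      simpa using (hs0.pow 2).mul ((hku.add hsw).div_const c)
    have b2 : Tendsto (fun n => (s n * ‖F (v n)‖) ^ 2) 𝒰 (𝓝 0) := by
      refine squeeze_zero (fun n => sq_nonneg _) (fun n => ?_) b1
      rw [mul_pow]
      refine mul_le_mul_of_nonneg_left ?_ (sq_nonneg _)
      rw [le_div_iff₀ hc, hsu, norm_mul, norm_pow, Complex.norm_real,
        Real.norm_of_nonneg (hs n).le]
      have b3 : (v n).re ^ 2 ≤ s n ^ 2 := pow_le_pow_left₀ (hv n).le (hre n) 2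
      have b4 := mul_le_mul_of_nonneg_right b3 (norm_nonneg (g (v n)))
      nlinarith [hsplit n]
    have b5 := b2.sqrt
    rw [Real.sqrt_zero] at b5
    refine b5.congr fun n => Real.sqrt_sq ?_
    exact mul_nonneg (hs n).le (norm_nonneg _)
  set Q : ℝ := ‖g 1‖ with hQdef
  have hQ : ∀ t : ℝ, 0 < t → t ≤ 1 → t ^ 2 * ‖g t‖ ≤ Q := by
    intro t a b
    simpa using hm0 t 1 a b
  have hQ0 : 0 ≤ Q := norm_nonneg _
  have hfin : ∀ X : ℝ, 1 ≤ X → 2 * α ≤ 2 * α / X + 2 * Q / X := by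
    intro X hX
    have hX0 : 0 < X := by linarith
    set δ : ℝ := a.re / 2 with hδdef
    have hδ : 0 < δ := by positivity
    have hδ1 : δ ≤ 1 := by
      have := Complex.re_le_norm a
      linarith
    set K : Set ℂ := {w | δ ≤ w.re} ∩ closedBall 0 X with hKdef
    have hKc : IsCompact K :=
      (isCompact_closedBall 0 X).inter_left (isClosed_le continuous_const continuous_re)
    have hKv : Convex ℝ K := (convex_halfSpace_re_ge δ).inter (convex_closedBall 0 X)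
    have hKs : K ⊆ HP := fun w hw => hδ.trans_le hw.1
    have hXK : (X : ℂ) ∈ K := ⟨by simpa using hδ1.trans hX, by simp [abs_of_pos hX0]⟩
    have hunif := (tendstoLocallyUniformlyOn_iff_forall_isCompact isOpen_HP).1 hk K hKs hKc
    refine le_of_forall_pos_le_add fun ε hε => ?_
    have hε' : 0 < ε / (4 * X) := by positivity
    have ht : Tendsto (fun n => (2 * (ε / (4 * X)) + 2 * s n ^ 2 * ‖w₀‖ +
        2 * (‖C‖ / δ ^ 2) * (s n * X * (2 + s n * X))) * (2 * X) + s n * ‖F (v n)‖ +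
        s n * (‖F 1‖ + 2 * ‖w₀‖) + (2 * α / X + 2 * Q / X)) 𝒰
        (𝓝 ((2 * (ε / (4 * X)) + 2 * 0 ^ 2 * ‖w₀‖ +
        2 * (‖C‖ / δ ^ 2) * (0 * X * (2 + 0 * X))) * (2 * X) + 0 +
        0 * (‖F 1‖ + 2 * ‖w₀‖) + (2 * α / X + 2 * Q / X))) :=
      (((((((hs0.pow 2).const_mul 2).mul_const _).const_add _).add
        (((hs0.mul_const X).mul ((hs0.mul_const X).const_add 2)).const_mul _)).mul_const _).add
        hsF).add (hs0.mul_const _) |>.add_const _
    have e : (2 * (ε / (4 * X)) + 2 * 0 ^ 2 * ‖w₀‖ +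
        2 * (‖C‖ / δ ^ 2) * (0 * X * (2 + 0 * X))) * (2 * X) + 0 +
        0 * (‖F 1‖ + 2 * ‖w₀‖) + (2 * α / X + 2 * Q / X) = 2 * α / X + 2 * Q / X + ε := by
      field_simp
      ring
    rw [e] at ht
    refine ge_of_tendsto ht ?_
    have hsX : ∀ᶠ n in 𝒰, s n * X < 1 := by
      have := hs0.mul_const X
      rw [zero_mul] at this
      exact this.eventually (gt_mem_nhds one_pos)
    filter_upwards [Metric.tendstoUniformlyOn_iff.1 hunif _ hε', hsX,
      hare.eventually (lt_mem_nhds (show δ < a.re by linarith))] with n hn1 hn2 hn3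
    have huK : u n ∈ K := ⟨hn3.le, by simpa [hun] using hX⟩
    have hder : ∀ w ∈ K, HasDerivWithinAt (fun w : ℂ => (s n : ℂ) * F (s n * w) - 2 * C / w)
        (-2 * ((s n : ℂ) ^ 2 * g (s n * w) + (s n : ℂ) ^ 2 * w₀) / (1 + s n * w) ^ 2 +
          2 * C / w ^ 2) K w := by
      intro w hw
      have hw0 : w ≠ 0 := by
        have := hKs hw
        rintro rfl; simp [mem_HP] at this
      have hsw' : (s n : ℂ) * w ∈ HP := by
        rw [mem_HP, re_ofReal_mul]; exact mul_pos (hs n) (hKs hw)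
      have d1 := ((hF _ hsw').comp w ((hasDerivAt_id w).const_mul (s n : ℂ))).const_mul (s n : ℂ)
      have d2 := (hasDerivAt_inv hw0).const_mul (2 * C)
      refine ((d1.sub d2).congr_deriv ?_).hasDerivWithinAt.congr (fun y _ => ?_) ?_
      · ring
      · simp [div_eq_mul_inv]
      · simp [div_eq_mul_inv]
    have hmv := hKv.norm_image_sub_le_of_norm_hasDerivWithin_le hder
      (fun w hw => xblow_der (hs n) hδ hw.1 (by simpa using hw.2)
        (by rw [← dist_eq_norm, dist_comm]; exact (hn1 w hw).le)) hXK huK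
    have hdist : ‖u n - X‖ ≤ 2 * X := by
      refine (norm_sub_le _ _).trans ?_
      rw [hun, Complex.norm_real, Real.norm_of_nonneg hX0.le]; linarith
    have hnn : 0 ≤ 2 * (ε / (4 * X)) + 2 * s n ^ 2 * ‖w₀‖ +
        2 * (‖C‖ / δ ^ 2) * (s n * X * (2 + s n * X)) := by
      have := hs n
      positivity
    have hmv2 := hmv.trans (mul_le_mul_of_nonneg_left hdist hnn)
    have hax := xblow_axis hF hQ (mul_pos (hs n) hX0) hn2.le
    have c1 : ‖2 * C / u n‖ = 2 * α := by simp [hun, hC]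
    have c2 : ‖2 * C / (X : ℂ)‖ = 2 * α / X := by simp [hC, abs_of_pos hX0]
    have c3 : ‖(s n : ℂ) * F (s n * u n)‖ = s n * ‖F (v n)‖ := by
      rw [hsu, norm_mul, Complex.norm_real, Real.norm_of_nonneg (hs n).le]
    have c4 : ‖(s n : ℂ) * F (s n * X)‖ ≤ s n * (‖F 1‖ + 2 * ‖w₀‖) + 2 * Q / X := by
      rw [norm_mul, Complex.norm_real, Real.norm_of_nonneg (hs n).le, ← ofReal_mul]
      refine (mul_le_mul_of_nonneg_left hax (hs n).le).trans (le_of_eq ?_)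
      have := (hs n).ne'
      field_simp
    have c5 : 2 * C / u n = (s n : ℂ) * F (s n * u n) - (s n : ℂ) * F (s n * X) + 2 * C / X -
        (((s n : ℂ) * F (s n * u n) - 2 * C / u n) - ((s n : ℂ) * F (s n * X) - 2 * C / X)) := by
      ring
    have c6 := congrArg norm c5
    have c7 := norm_sub_le ((s n : ℂ) * F (s n * u n) - (s n : ℂ) * F (s n * X) + 2 * C / X)
      (((s n : ℂ) * F (s n * u n) - 2 * C / u n) - ((s n : ℂ) * F (s n * X) - 2 * C / X))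
    have c8 := norm_add_le ((s n : ℂ) * F (s n * u n) - (s n : ℂ) * F (s n * X)) (2 * C / X)
    have c9 := norm_sub_le ((s n : ℂ) * F (s n * u n)) ((s n : ℂ) * F (s n * X))
    linarith
  have hX : 1 ≤ (2 * α + 2 * Q) / α := by
    rw [le_div_iff₀ hα0]; linarith
  have := hfin _ hX
  rw [← add_div, div_div_cancel₀ (by linarith : 2 * α + 2 * Q ≠ 0)] at this
  linarith

end Pool.Agent.MP_32357e_an.H

end

section

/-! Auxiliary estimates for the zero of the primitive. -/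

set_option autoImplicit false

open Complex Set Filter Topology Metric

namespace Pool.Agent.MP_32357e_an.H

/-- A zero of `Pf` in the half-plane. -/
noncomputable def W0 : ℂ := ((Real.exp (2 * Real.pi) - 1 : ℝ) : ℂ) / (1 + I)

lemma xcore_oneI : (1 + I : ℂ) ≠ 0 := by
  intro h
  have := congrArg Complex.re h
  simp at this

lemma xcore_W0_re : 0 < W0.re := by
  have h : 0 < Real.exp (2 * Real.pi) - 1 := by
    have := Real.add_one_lt_exp (x := 2 * Real.pi) (by positivity)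
    have := Real.pi_pos
    linarith
  have e : W0.re = (Real.exp (2 * Real.pi) - 1) / 2 := by
    rw [W0, div_re]
    simp only [ofReal_re, ofReal_im, add_re, one_re, I_re, add_im, one_im, I_im, normSq_apply]
    ring
  rw [e]
  linarith

lemma xcore_Pf_W0 : Pf W0 = 0 := by
  have e : 1 + (1 + I) * W0 = ((Real.exp (2 * Real.pi) : ℝ) : ℂ) := by
    rw [W0, mul_div_cancel₀ _ xcore_oneI]
    push_cast
    ring
  have e2 : log (1 + (1 + I) * W0) = ((2 * Real.pi : ℝ) : ℂ) := by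
    rw [e, ← ofReal_log (Real.exp_pos _).le, Real.log_exp]
  rw [Pf, e2]
  have : I * ((2 * Real.pi : ℝ) : ℂ) = 2 * Real.pi * I := by
    push_cast
    ring
  rw [this, exp_two_pi_mul_I]
  simp

lemma xcore_norm_Mf {W : ℂ} (hW : 0 ≤ W.re) : ‖Mf W‖ ≤ 2 * Real.exp Real.pi := by
  set x : ℂ := 1 + (1 + I) * W with hx
  have h1 : (1 / 2 : ℝ) ≤ ‖x‖ := by
    have a1 := Complex.abs_re_le_norm x
    have a2 := Complex.abs_im_le_norm x
    have a3 : x.re + x.im = 1 + 2 * W.re := by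
      simp [hx]
      ring
    have a4 := le_abs_self x.re
    have a5 := le_abs_self x.im
    linarith
  have h2 : ((I - 1) * log x).re = -arg x - Real.log ‖x‖ := by
    simp [log_re, log_im]
    ring
  rw [Mf, norm_exp, ← hx, h2, Real.exp_sub, Real.exp_log (by linarith)]
  have h3 : Real.exp (-arg x) ≤ Real.exp Real.pi :=
    Real.exp_le_exp.2 (by linarith [neg_pi_lt_arg x])
  rw [div_le_iff₀ (by linarith)]
  have := Real.exp_pos Real.pi
  nlinarith

lemma xcore_lip {W V : ℂ} (hW : 0 ≤ W.re) (hV : 0 ≤ V.re) :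
    ‖Pf W - Pf V‖ ≤ 2 * Real.exp Real.pi * ‖W - V‖ :=
  (convex_halfSpace_re_ge 0).norm_image_sub_le_of_norm_hasDerivWithin_le (f := Pf) (f' := Mf)
    (fun _ hx => (hasDerivAt_Pf hx).hasDerivWithinAt) (fun _ hx => xcore_norm_Mf hx) hV hW

lemma xcore_re_ge {W : ℂ} {t : ℝ} (h : W ∈ closedBall W0 t) : W0.re - t ≤ W.re := by
  rw [mem_closedBall, dist_eq_norm] at h
  have := (abs_le.1 ((Complex.abs_re_le_norm (W - W0)).trans h)).1
  rw [sub_re] at this
  linarith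

lemma xcore_sphere : ∃ δ m : ℝ, 0 < δ ∧ 0 < m ∧ δ ≤ W0.re / 4 ∧
    ∀ W ∈ sphere W0 δ, m ≤ ‖Pf W‖ := by
  have hp := xcore_W0_re
  have hd := hasDerivAt_Pf hp.le
  have h1 : ∀ᶠ W in 𝓝[≠] W0, Pf W ≠ Pf W0 := hd.eventually_ne (Mf_ne _)
  rw [eventually_nhdsWithin_iff, Metric.eventually_nhds_iff] at h1
  obtain ⟨ε, hε, h1⟩ := h1
  set δ : ℝ := min (ε / 2) (W0.re / 4) with hδ
  have hδ0 : 0 < δ := lt_min (by linarith) (by linarith)
  have hδ1 : δ ≤ W0.re / 4 := min_le_right _ _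
  have hδ2 : δ < ε := (min_le_left _ _).trans_lt (by linarith)
  have hc : ContinuousOn (fun W => ‖Pf W‖) (sphere W0 δ) := by
    intro W hW
    have := xcore_re_ge (sphere_subset_closedBall hW)
    exact (hasDerivAt_Pf (W := W) (by linarith)).continuousAt.norm.continuousWithinAt
  obtain ⟨V, hV, hmin⟩ := (isCompact_sphere W0 δ).exists_isMinOn
    (NormedSpace.sphere_nonempty.2 hδ0.le) hc
  refine ⟨δ, ‖Pf V‖, hδ0, ?_, hδ1, fun W hW => hmin hW⟩
  rw [norm_pos_iff, ← xcore_Pf_W0]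
  rw [mem_sphere] at hV
  refine h1 (hV ▸ hδ2) ?_
  rintro rfl
  simp at hV
  exact hδ0.ne hV

lemma xcore_zero {δ m : ℝ} (hδ : 0 < δ) (hm : 0 < m) (hs : ∀ W ∈ sphere W0 δ, m ≤ ‖Pf W‖)
    {h : ℂ → ℂ} (hd : DifferentiableOn ℂ h (closedBall W0 δ))
    (hc : ∀ W ∈ closedBall W0 δ, ‖h W - Pf W‖ ≤ m / 5) : ∃ W ∈ closedBall W0 δ, h W = 0 := by
  by_contra hn
  push Not at hn
  have h1 : DiffContOnCl ℂ (fun W => (h W)⁻¹) (ball W0 δ) := by
    apply DifferentiableOn.diffContOnCl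
    rw [closure_ball _ hδ.ne']
    exact hd.inv hn
  have h2 : ∀ W ∈ frontier (ball W0 δ), ‖(h W)⁻¹‖ ≤ (4 * m / 5)⁻¹ := by
    intro W hW
    rw [frontier_ball _ hδ.ne'] at hW
    have a1 := hs W hW
    have a2 := hc W (sphere_subset_closedBall hW)
    have a3 := norm_sub_norm_le (Pf W) (h W)
    rw [norm_sub_rev] at a3
    rw [norm_inv]
    exact inv_anti₀ (by linarith) (by linarith)
  have h3 := Complex.norm_le_of_forall_mem_frontier_norm_le isBounded_ball h1 h2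
    (subset_closure (mem_ball_self hδ))
  have h4 := hc W0 (mem_closedBall_self hδ.le)
  rw [xcore_Pf_W0, sub_zero] at h4
  have h5 : 0 < ‖h W0‖ := norm_pos_iff.2 (hn W0 (mem_closedBall_self hδ.le))
  rw [norm_inv, inv_le_inv₀ h5 (by linarith)] at h3
  linarith

lemma xcore_mu {δ : ℝ} (hδ : 0 < δ) (hδ1 : δ ≤ W0.re / 4) :
    ∃ μ : ℝ, 0 < μ ∧ ∀ W ∈ closedBall W0 (2 * δ), μ ≤ ‖W ^ 2 * Mf W‖ := by
  have hp := xcore_W0_re
  have hc : ContinuousOn (fun W => ‖W ^ 2 * Mf W‖) (closedBall W0 (2 * δ)) := by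
    intro W hW
    have := xcore_re_ge hW
    exact ((continuousAt_id.pow 2).mul
      (differentiableAt_Mf (W := W) (by linarith)).continuousAt).norm.continuousWithinAt
  obtain ⟨V, hV, hmin⟩ := (isCompact_closedBall W0 (2 * δ)).exists_isMinOn
    (nonempty_closedBall.2 (by linarith)) hc
  refine ⟨_, ?_, fun W hW => hmin hW⟩
  have := xcore_re_ge hV
  have hV0 : V ≠ 0 := by
    rintro rfl
    simp at this
    linarith
  exact norm_pos_iff.2 (mul_ne_zero (pow_ne_zero _ hV0) (Mf_ne _))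

lemma xcore_log {h h' : ℂ → ℂ} {C : ℝ} (hd : ∀ z ∈ ball (0 : ℂ) 1, HasDerivAt h (h' z) z)
    (hb : ∀ z ∈ ball (0 : ℂ) 1, ‖h' z‖ ≤ C / (1 - ‖z‖)) {z : ℂ} (hz : ‖z‖ < 1) :
    ‖h z - h 0‖ ≤ C * -Real.log (1 - ‖z‖) := by
  have hn := norm_nonneg z
  have hmem : ∀ t ∈ Icc (0 : ℝ) 1, ‖(t : ℂ) * z‖ = t * ‖z‖ ∧ t * ‖z‖ < 1 := by
    intro t ht
    refine ⟨by rw [norm_mul, norm_real, Real.norm_of_nonneg ht.1], ?_⟩
    nlinarith [ht.1, ht.2]
  have hf : ∀ t ∈ Icc (0 : ℝ) 1,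
      HasDerivAt (fun t : ℝ => h (t * z) - h 0) (h' (t * z) * z) t := by
    intro t ht
    have a1 : HasDerivAt (fun w : ℂ => w * z) z (t : ℂ) := by
      simpa using (hasDerivAt_id (t : ℂ)).mul_const z
    have a2 := (hd (t * z) (by
      rw [mem_ball_zero_iff, (hmem t ht).1]; exact (hmem t ht).2)).comp (t : ℂ) a1
    exact (a2.comp_ofReal).sub_const _
  have hB : ∀ t ∈ Icc (0 : ℝ) 1,
      HasDerivAt (fun t : ℝ => C * -Real.log (1 - t * ‖z‖)) (C / (1 - t * ‖z‖) * ‖z‖) t := by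
    intro t ht
    have a1 : HasDerivAt (fun t : ℝ => 1 - t * ‖z‖) (-‖z‖) t := by
      simpa using ((hasDerivAt_id t).mul_const ‖z‖).const_sub 1
    have a2 := ((a1.log (by linarith [(hmem t ht).2])).neg).const_mul C
    refine HasDerivAt.congr_deriv a2 ?_
    ring
  have := image_norm_le_of_norm_deriv_right_le_deriv_boundary'
    (f := fun t : ℝ => h (t * z) - h 0) (f' := fun t : ℝ => h' (t * z) * z) (a := 0) (b := 1)
    (fun t ht => (hf t ht).continuousAt.continuousWithinAt)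
    (fun t ht => (hf t (Ico_subset_Icc_self ht)).hasDerivWithinAt)
    (B := fun t : ℝ => C * -Real.log (1 - t * ‖z‖)) (B' := fun t => C / (1 - t * ‖z‖) * ‖z‖)
    (by simp)
    (fun t ht => (hB t ht).continuousAt.continuousWithinAt)
    (fun t ht => (hB t (Ico_subset_Icc_self ht)).hasDerivWithinAt)
    (fun t ht => by
      have ht' := hmem t (Ico_subset_Icc_self ht)
      have a1 := hb (t * z) (by rw [mem_ball_zero_iff, ht'.1]; exact ht'.2)
      rw [ht'.1] at a1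
      rw [norm_mul]
      exact mul_le_mul_of_nonneg_right a1 hn)
    (right_mem_Icc.2 zero_le_one)
  simpa using this

lemma xcore_bounds {N : ℂ → ℂ} {R₀ : ℝ} (hR : 1 < R₀) (hN : DifferentiableOn ℂ N (ball 0 R₀)) :
    ∃ L : ℝ, 0 < L ∧ ∀ z ∈ closedBall (0 : ℂ) 1,
      ‖N z‖ ≤ L ∧ ‖deriv N z‖ ≤ L ∧ ‖N z - N 1‖ ≤ L * ‖1 - z‖ := by
  have hsub : closedBall (0 : ℂ) 1 ⊆ ball 0 R₀ := closedBall_subset_ball hR
  obtain ⟨L1, h1⟩ := (isCompact_closedBall (0 : ℂ) 1).exists_bound_of_continuousOn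
    (hN.continuousOn.mono hsub)
  obtain ⟨L2, h2⟩ := (isCompact_closedBall (0 : ℂ) 1).exists_bound_of_continuousOn
    ((hN.deriv isOpen_ball).continuousOn.mono hsub)
  set L : ℝ := max 1 (max L1 L2) with hL
  have a1 : L1 ≤ L := (le_max_left _ _).trans (le_max_right _ _)
  have a2 : L2 ≤ L := (le_max_right _ _).trans (le_max_right _ _)
  refine ⟨L, lt_of_lt_of_le one_pos (le_max_left _ _), fun z hz =>
    ⟨(h1 z hz).trans a1, (h2 z hz).trans a2, ?_⟩⟩
  rw [norm_sub_rev 1 z]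
  exact (convex_closedBall (0 : ℂ) 1).norm_image_sub_le_of_norm_deriv_le
    (fun x hx => hN.differentiableAt (isOpen_ball.mem_nhds (hsub hx)))
    (fun x hx => (h2 x hx).trans a2) (by simp) hz

end Pool.Agent.MP_32357e_an.H

end

section

/-! The primitive has a zero at scale `b`. -/

set_option autoImplicit false

open Complex Set Filter Topology Metric

namespace Pool.Agent.MP_32357e_an.H

lemma xcore_one_sub (z : ℂ) : 1 - ‖z‖ ≤ ‖1 - z‖ := by
  simpa using norm_sub_norm_le (1 : ℂ) z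

lemma xcore_approx {N G : ℂ → ℂ} {R₀ σ L b : ℝ} {κ c₁ : ℂ} (hR : 1 < R₀) (hσ : 0 < σ)
    (hb : 0 < b) (hL : 0 < L) (hN : DifferentiableOn ℂ N (ball 0 R₀))
    (hB : ∀ z ∈ ball (0 : ℂ) 1, N z / (1 - z) ∈ HP)
    (hbd : ∀ z ∈ closedBall (0 : ℂ) 1, ‖N z‖ ≤ L ∧ ‖deriv N z‖ ≤ L ∧ ‖N z - σ‖ ≤ L * ‖1 - z‖)
    (hG0 : G 0 = 0)
    (hG : ∀ z ∈ ball (0 : ℂ) 1, HasDerivAt G (κ * Af b (N z / (1 - z)) + c₁) z)
    {z : ℂ} (hz : ‖z‖ < 1) :
    ‖b * G z - κ * σ * (Pf (b * (N z / (1 - z))) - Pf (b * N 0))‖ ≤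
      b * ((‖κ‖ * (2 * Real.exp Real.pi) * (L * L + σ * L) + ‖c₁‖) * -Real.log (1 - ‖z‖)) := by
  have hbc : (b : ℂ) ≠ 0 := by exact_mod_cast hb.ne'
  have key := xcore_log (h := fun z => G z - κ * σ * Pf (b * (N z / (1 - z))) / b)
    (h' := fun z => κ * Mf (b * (N z / (1 - z))) *
      (N z * (N z - σ) / (1 - z) ^ 2 - σ * deriv N z / (1 - z)) + c₁)
    (C := ‖κ‖ * (2 * Real.exp Real.pi) * (L * L + σ * L) + ‖c₁‖) ?_ ?_ hz
  · have e : b * G z - κ * σ * (Pf (b * (N z / (1 - z))) - Pf (b * N 0)) =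
        b * ((G z - κ * σ * Pf (b * (N z / (1 - z))) / b) -
          (G 0 - κ * σ * Pf (b * (N 0 / (1 - 0))) / b)) := by
      rw [hG0, sub_zero, div_one]
      field_simp
      ring
    rw [e, norm_mul, norm_real, Real.norm_of_nonneg hb.le]
    exact mul_le_mul_of_nonneg_left key hb.le
  · intro x hx
    have hx1 : ‖x‖ < 1 := mem_ball_zero_iff.1 hx
    have hne : (1 - x) ≠ 0 := norm_pos_iff.1 (by linarith [xcore_one_sub x])
    have a1 : HasDerivAt N (deriv N x) x :=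
      (hN.differentiableAt (isOpen_ball.mem_nhds (ball_subset_ball hR.le hx))).hasDerivAt
    have a2 : HasDerivAt (fun z : ℂ => 1 - z) (-1) x := by
      simpa using (hasDerivAt_id x).const_sub 1
    have a3 := (a1.div a2 hne).const_mul (b : ℂ)
    have hre : 0 ≤ ((b : ℂ) * (N x / (1 - x))).re := by
      rw [re_ofReal_mul]
      exact mul_nonneg hb.le (le_of_lt (hB x hx))
    have a4 := (hasDerivAt_Pf hre).comp x a3
    have a5 := (hG x hx).sub ((a4.const_mul (κ * σ)).div_const (b : ℂ))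
    refine HasDerivAt.congr_deriv a5 ?_
    rw [Af]
    field_simp
    ring
  · intro x hx
    have hx1 : ‖x‖ < 1 := mem_ball_zero_iff.1 hx
    have h1 := xcore_one_sub x
    have h2 : 0 < 1 - ‖x‖ := by linarith
    have h3 : 0 < ‖1 - x‖ := by linarith
    obtain ⟨b1, b2, b3⟩ := hbd x (ball_subset_closedBall hx)
    have hre : 0 ≤ ((b : ℂ) * (N x / (1 - x))).re := by
      rw [re_ofReal_mul]
      exact mul_nonneg hb.le (le_of_lt (hB x hx))
    have c1 : ‖N x * (N x - σ) / (1 - x) ^ 2‖ ≤ L * L / (1 - ‖x‖) := by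
      rw [norm_div, norm_mul, norm_pow]
      calc ‖N x‖ * ‖N x - σ‖ / ‖1 - x‖ ^ 2 ≤ L * (L * ‖1 - x‖) / ‖1 - x‖ ^ 2 := by gcongr
        _ = L * L / ‖1 - x‖ := by field_simp
        _ ≤ L * L / (1 - ‖x‖) := by gcongr
    have c2 : ‖σ * deriv N x / (1 - x)‖ ≤ σ * L / (1 - ‖x‖) := by
      rw [norm_div, norm_mul, norm_real, Real.norm_of_nonneg hσ.le]
      gcongr
    have c3 : ‖c₁‖ ≤ ‖c₁‖ / (1 - ‖x‖) :=
      le_div_self (norm_nonneg _) h2 (by linarith [norm_nonneg x])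
    have c4 : ‖N x * (N x - σ) / (1 - x) ^ 2 - σ * deriv N x / (1 - x)‖ ≤
        (L * L + σ * L) / (1 - ‖x‖) := by
      rw [add_div]
      exact (norm_sub_le _ _).trans (add_le_add c1 c2)
    refine (norm_add_le _ _).trans ?_
    rw [add_div]
    refine add_le_add ?_ c3
    rw [norm_mul, norm_mul, mul_div_assoc (‖κ‖ * (2 * Real.exp Real.pi))]
    have := xcore_norm_Mf hre
    gcongr

lemma xcore_pt {σ b p T : ℝ} (hσ : 0 < σ) (hb : 0 < b) (hp : 0 < p) (hbp : b * σ ≤ p / 2)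
    {W : ℂ} (h1 : p / 2 ≤ W.re) (h2 : ‖W‖ ≤ T) :
    b * (σ * p / (2 * T ^ 2)) ≤ 1 - ‖1 - b * σ / W‖ ^ 2 := by
  have h3 : 0 < ‖W‖ := by linarith [Complex.re_le_norm W]
  have hW : W ≠ 0 := norm_pos_iff.1 h3
  have e : 1 - b * σ / W = (W - ((b * σ : ℝ) : ℂ)) / W := by
    push_cast
    field_simp
  have e2 : ‖W - ((b * σ : ℝ) : ℂ)‖ ^ 2 = ‖W‖ ^ 2 - b * σ * (2 * W.re - b * σ) := by
    rw [Complex.sq_norm, Complex.sq_norm, normSq_apply, normSq_apply]
    simp only [sub_re, sub_im, ofReal_re, ofReal_im]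
    ring
  have e3 : 1 - ‖1 - b * σ / W‖ ^ 2 = b * σ * (2 * W.re - b * σ) / ‖W‖ ^ 2 := by
    rw [e, norm_div, div_pow, e2]
    field_simp
    ring
  rw [e3]
  calc b * (σ * p / (2 * T ^ 2)) = b * σ * (p / 2) / T ^ 2 := by ring
    _ ≤ b * σ * (2 * W.re - b * σ) / ‖W‖ ^ 2 := by
      gcongr
      · exact mul_nonneg (mul_pos hb hσ).le (by linarith)
      · linarith

lemma xcore_ev {φ : ℝ → ℝ} {t : ℝ} (hφ : Continuous φ) (h : φ 0 < t) :
    ∀ᶠ b in 𝓝[>] (0 : ℝ), φ b < t :=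
  nhdsWithin_le_nhds (hφ.continuousAt.eventually_lt continuousAt_const h)

theorem core : CoreStmt := by
  intro N R₀ σ κ c₁ hR hσ hκ hN hN1 hB
  obtain ⟨δ, m, hδ, hm, hδ1, hs⟩ := xcore_sphere
  obtain ⟨μ, hμ, hμ1⟩ := xcore_mu hδ hδ1
  obtain ⟨L, hL, hbd⟩ := xcore_bounds hR hN
  rw [hN1] at hbd
  have hp := xcore_W0_re
  set p : ℝ := W0.re with hpd
  set T : ℝ := ‖W0‖ + δ with hT
  have hT0 : 0 < T := by positivity
  set m1 : ℝ := σ * p / (2 * T ^ 2) with hm1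
  have hm10 : 0 < m1 := by positivity
  have hκ0 : 0 < ‖κ‖ := norm_pos_iff.2 hκ
  set K : ℝ := 2 * Real.exp Real.pi with hK
  have hK0 : 0 < K := by positivity
  set C : ℝ := ‖κ‖ * K * (L * L + σ * L) + ‖c₁‖ with hC
  have hC0 : 0 < C := by positivity
  refine ⟨m1 ^ 2 * (‖κ‖ * μ / 2), by positivity, fun R hR1 => ?_⟩
  have e1 : ∀ᶠ b in 𝓝[>] (0 : ℝ), b * σ < p / 2 := xcore_ev (by fun_prop) (by simpa using hp)
  have e2 : ∀ᶠ b in 𝓝[>] (0 : ℝ), b * σ / (p / 2) < 1 - R :=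
    xcore_ev (by fun_prop) (by simpa using hR1)
  have e3 : ∀ᶠ b in 𝓝[>] (0 : ℝ), L * b < δ := xcore_ev (by fun_prop) (by simpa using hδ)
  have e4 : ∀ᶠ b in 𝓝[>] (0 : ℝ), b ^ 2 * ‖c₁‖ < ‖κ‖ * μ / 2 :=
    xcore_ev (by fun_prop) (by simpa using by positivity)
  have e5 : ∀ᶠ b in 𝓝[>] (0 : ℝ), K * (L * b) + K * (b * L) +
      C * (-(b * m1 / 2 * Real.log (b * m1 / 2)) * (2 / m1)) / (‖κ‖ * σ) < m / 5 := by
    refine xcore_ev ?_ (by simpa using hm)
    have : Continuous fun b : ℝ => b * m1 / 2 * Real.log (b * m1 / 2) :=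
      Real.continuous_mul_log.comp (by fun_prop : Continuous fun b : ℝ => b * m1 / 2)
    fun_prop
  filter_upwards [e1, e2, e3, e4, e5, self_mem_nhdsWithin] with b e1 e2 e3 e4 e5 hb G hG0 hG
  have hb : 0 < b := hb
  have hσc : (σ : ℂ) ≠ 0 := by exact_mod_cast hσ.ne'
  have hbc : (b : ℂ) ≠ 0 := by exact_mod_cast hb.ne'
  have main : ∀ W ∈ closedBall W0 δ, W ≠ 0 ∧ b * m1 ≤ 1 - ‖1 - b * σ / W‖ ^ 2 ∧
      ‖1 - b * σ / W‖ < 1 ∧ R < ‖1 - b * σ / W‖ ∧
      ‖b * (N (1 - b * σ / W) / (1 - (1 - b * σ / W))) - W‖ ≤ L * b := by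
    intro W hW
    have a1 : p / 2 ≤ W.re := by linarith [xcore_re_ge hW]
    have a2 : ‖W‖ ≤ T := by
      have := norm_sub_norm_le W W0
      rw [mem_closedBall, dist_eq_norm] at hW
      linarith
    have a3 : p / 2 ≤ ‖W‖ := a1.trans (Complex.re_le_norm W)
    have a4 : W ≠ 0 := norm_pos_iff.1 (by linarith)
    have a5 := xcore_pt hσ hb hp e1.le a1 a2
    have a6 : ‖1 - b * σ / W‖ < 1 := by
      have : 0 < b * m1 := mul_pos hb hm10
      have h0 := norm_nonneg (1 - b * σ / W)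
      nlinarith
    have a7 : ‖(b * σ / W : ℂ)‖ = b * σ / ‖W‖ := by
      rw [norm_div, norm_mul, norm_real, norm_real, Real.norm_of_nonneg hb.le,
        Real.norm_of_nonneg hσ.le]
    refine ⟨a4, a5, a6, ?_, ?_⟩
    · have := norm_sub_norm_le (1 : ℂ) (b * σ / W)
      rw [a7, norm_one] at this
      have a8 : b * σ / ‖W‖ ≤ b * σ / (p / 2) := by gcongr
      linarith
    · have a8 := (hbd _ (mem_closedBall_zero_iff.2 a6.le)).2.2
      rw [sub_sub_cancel, a7] at a8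
      have e : b * (N (1 - b * σ / W) / (1 - (1 - b * σ / W))) - W =
          (N (1 - b * σ / W) - σ) * W / σ := by
        rw [sub_sub_cancel]
        field_simp
      have a9 : 0 < ‖W‖ := by linarith
      rw [e, norm_div, norm_mul, norm_real, Real.norm_of_nonneg hσ.le]
      calc ‖N (1 - b * σ / W) - σ‖ * ‖W‖ / σ ≤ L * (b * σ / ‖W‖) * ‖W‖ / σ := by gcongr
        _ = L * b := by field_simp
  have hre : ∀ z ∈ ball (0 : ℂ) 1, 0 ≤ ((b : ℂ) * (N z / (1 - z))).re := by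
    intro z hz
    rw [re_ofReal_mul]
    exact mul_nonneg hb.le (le_of_lt (hB z hz))
  obtain ⟨W, hW, hz⟩ := xcore_zero hδ hm hs (h := fun W => b * G (1 - b * σ / W) / (κ * σ))
    (by
      intro W hW
      obtain ⟨a1, -, a3, -, -⟩ := main W hW
      have a4 := (hG _ (mem_ball_zero_iff.2 a3)).differentiableAt
      have a5 : DifferentiableAt ℂ (fun W : ℂ => 1 - b * σ / W) W := by
        fun_prop (disch := exact a1)
      exact (((a4.comp W a5).const_mul (b : ℂ)).div_const _).differentiableWithinAt)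
    (by
      intro W hW
      obtain ⟨a1, a2, a3, -, a5⟩ := main W hW
      set z : ℂ := 1 - b * σ / W with hzd
      have k1 := xcore_approx hR hσ hb hL hN hB hbd hG0 hG a3
      rw [← hK, ← hC] at k1
      have k2 : b * m1 / 2 ≤ 1 - ‖z‖ := by nlinarith [norm_nonneg z]
      have k3 : -Real.log (1 - ‖z‖) ≤ -Real.log (b * m1 / 2) :=
        neg_le_neg (Real.log_le_log (by positivity) k2)
      have k4 : b * (C * -Real.log (1 - ‖z‖)) ≤
          C * (-(b * m1 / 2 * Real.log (b * m1 / 2)) * (2 / m1)) := by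
        calc b * (C * -Real.log (1 - ‖z‖)) ≤ b * (C * -Real.log (b * m1 / 2)) := by gcongr
          _ = _ := by field_simp
      have k5 := xcore_lip (hre z (mem_ball_zero_iff.2 a3)) (V := W)
        (by linarith [xcore_re_ge hW])
      have k6 := xcore_lip (hre 0 (mem_ball_self one_pos)) (V := 0) (by simp)
      rw [Pf_zero, sub_zero, sub_zero, sub_zero, div_one, norm_mul, norm_real,
        Real.norm_of_nonneg hb.le] at k6
      have k7 := (hbd 0 (mem_closedBall_self zero_le_one)).1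
      have e : b * G z / (κ * σ) - Pf W =
          (Pf (b * (N z / (1 - z))) - Pf W) - Pf (b * N 0) +
          (b * G z - κ * σ * (Pf (b * (N z / (1 - z))) - Pf (b * N 0))) / (κ * σ) := by
        field_simp
        ring
      rw [e]
      refine le_trans ((norm_add_le _ _).trans (add_le_add ((norm_sub_le _ _).trans
        (add_le_add ?_ ?_)) ?_)) e5.le
      · exact k5.trans (by gcongr)
      · exact k6.trans (by gcongr)
      · rw [norm_div, norm_mul, norm_real, Real.norm_of_nonneg hσ.le]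
        gcongr
        exact k1.trans k4)
  obtain ⟨a1, a2, a3, a4, a5⟩ := main W hW
  set z : ℂ := 1 - b * σ / W with hzd
  refine ⟨z, a4, a3, ?_, ?_⟩
  · simpa [hκ, hσc, hbc] using hz
  · set V : ℂ := b * (N z / (1 - z)) with hV
    have k1 : V ∈ closedBall W0 (2 * δ) := by
      rw [mem_closedBall, dist_eq_norm] at hW ⊢
      have := norm_sub_le_norm_sub_add_norm_sub V W W0
      linarith
    have k2 := hμ1 V k1
    have k3 : (b : ℂ) ^ 2 * (κ * Af b (N z / (1 - z)) + c₁) =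
        κ * (V ^ 2 * Mf V) + (b : ℂ) ^ 2 * c₁ := by
      rw [Af, hV]
      ring
    have k4 : ‖κ‖ * μ / 2 ≤ b ^ 2 * ‖κ * Af b (N z / (1 - z)) + c₁‖ := by
      have k5 := congrArg norm k3
      rw [norm_mul, norm_pow, norm_real, Real.norm_of_nonneg hb.le] at k5
      have k6 := norm_sub_norm_le (κ * (V ^ 2 * Mf V)) (-((b : ℂ) ^ 2 * c₁))
      rw [sub_neg_eq_add, norm_neg, norm_mul κ, norm_mul ((b : ℂ) ^ 2), norm_pow, norm_real,
        Real.norm_of_nonneg hb.le] at k6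
      have k7 : ‖κ‖ * μ ≤ ‖κ‖ * ‖V ^ 2 * Mf V‖ := by gcongr
      linarith
    calc m1 ^ 2 * (‖κ‖ * μ / 2) ≤ m1 ^ 2 * (b ^ 2 * ‖κ * Af b (N z / (1 - z)) + c₁‖) := by gcongr
      _ = (b * m1) ^ 2 * ‖κ * Af b (N z / (1 - z)) + c₁‖ := by ring
      _ ≤ _ := by gcongr

end Pool.Agent.MP_32357e_an.H

end

section

/-! One step of the construction, normalised. -/

set_option autoImplicit false

open Complex Set Filter Topology Metric MeasureTheory

namespace Pool.Agent.MP_32357e_an.H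

lemma xstepn_cone {U : ℂ → ℂ} (hU : ContinuousAt U 1)
    (h : ∀ z ∈ ball (0 : ℂ) 1, 0 < ((1 - z) * U z).re) {d : ℂ} (hd : 0 < d.re) :
    0 ≤ (d * U 1).re := by
  have h1 : Tendsto (fun t : ℝ => (1 : ℂ) - t * d) (𝓝[>] 0) (𝓝 1) := by
    have : Continuous fun t : ℝ => (1 : ℂ) - t * d := by fun_prop
    simpa using (this.tendsto 0).mono_left (nhdsWithin_le_nhds (s := Ioi 0))
  have h2 : Tendsto (fun t : ℝ => (d * U (1 - t * d)).re) (𝓝[>] 0) (𝓝 (d * U 1).re) :=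
    (continuous_re.tendsto _).comp ((hU.tendsto.comp h1).const_mul d)
  refine ge_of_tendsto h2 ?_
  have h3 : Tendsto (fun t : ℝ => t * (d.re ^ 2 + d.im ^ 2)) (𝓝[>] 0) (𝓝 0) := by
    have : Continuous fun t : ℝ => t * (d.re ^ 2 + d.im ^ 2) := by fun_prop
    simpa using (this.tendsto 0).mono_left (nhdsWithin_le_nhds (s := Ioi 0))
  filter_upwards [self_mem_nhdsWithin, h3.eventually (gt_mem_nhds hd)] with t ht ht2
  have ht0 : 0 < t := ht
  have hz : (1 : ℂ) - t * d ∈ ball (0 : ℂ) 1 := by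
    rw [mem_ball_zero_iff, ← sq_lt_one_iff₀ (norm_nonneg _), Complex.sq_norm, normSq_apply]
    simp only [sub_re, one_re, re_ofReal_mul, sub_im, one_im, im_ofReal_mul]
    nlinarith
  have h4 := h _ hz
  rw [sub_sub_cancel, mul_assoc, re_ofReal_mul] at h4
  exact ((pos_iff_pos_of_mul_pos h4).1 ht0).le

lemma xstepn_real {l : ℂ} (h0 : l ≠ 0) (h : ∀ d : ℂ, 0 < d.re → 0 ≤ (d * l).re) :
    ∃ x : ℝ, 0 < x ∧ l = x := by
  have h1 : 0 ≤ l.re := by simpa using h 1 (by simp)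
  have h2 : ∀ e : ℝ, 0 < e → |l.im| ≤ e * l.re := by
    intro e he
    have a := h (e + I) (by simpa using he)
    have b := h (e - I) (by simpa using he)
    simp at a b
    rw [abs_le]; constructor <;> linarith
  have h3 : l.im = 0 := by
    rw [← abs_nonpos_iff]
    refine le_of_forall_pos_le_add fun ε hε => ?_
    refine (h2 (ε / (l.re + 1)) (by positivity)).trans ?_
    rw [div_mul_eq_mul_div, div_le_iff₀ (by linarith)]
    nlinarith
  have h4 : l = l.re := by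
    apply Complex.ext <;> simp [h3]
  refine ⟨l.re, lt_of_le_of_ne h1 fun e => h0 ?_, h4⟩
  rw [h4, ← e]; simp

lemma xstepn_inv_re {u : ℂ} (hu : 0 < u.re) : 0 < (u⁻¹).re := by
  have h0 : u ≠ 0 := by rintro rfl; simp at hu
  rw [inv_re]
  exact div_pos hu (normSq_pos.2 h0)

lemma xstepn_inj {a : ℝ} (ha : 0 < a) {p q : ℂ} (hp : 0 < p.re) (hq : 0 < q.re)
    (e : 1 - a * p + a ^ 2 / p = 1 - a * q + a ^ 2 / q) : p = q := by
  have p0 : p ≠ 0 := by rintro rfl; simp at hp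
  have q0 : q ≠ 0 := by rintro rfl; simp at hq
  have a0 : (a : ℂ) ≠ 0 := ofReal_ne_zero.2 ha.ne'
  have h1 : (a : ℂ) * ((p - q) * (p + a * q⁻¹)) = 0 := by
    have e2 : (a : ℂ) * ((p - q) * (p + a * q⁻¹)) =
        p * ((1 - a * q + a ^ 2 / q) - (1 - a * p + a ^ 2 / p)) := by
      field_simp
      ring
    rw [e2, e, sub_self, mul_zero]
  rcases mul_eq_zero.1 ((mul_eq_zero.1 h1).resolve_left a0) with h | h
  · exact sub_eq_zero.1 h
  · have := congrArg Complex.re h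
    rw [add_re, re_ofReal_mul, zero_re] at this
    have := mul_pos ha (xstepn_inv_re hq)
    linarith

theorem stepN (h1 : SpiralStmt) (h2 : CoreStmt) : StepNStmt := by
  intro u R₀ w hR₀ hu hi hu1 hHP r η hr hη
  have h1m : (1 : ℂ) ∈ ball (0 : ℂ) R₀ := by simpa using hR₀
  have hsub : ball (0 : ℂ) 1 ⊆ ball 0 R₀ := ball_subset_ball hR₀.le
  set U : ℂ → ℂ := fun z => -dslope u 1 z with hUdef
  have hUd : DifferentiableOn ℂ U (ball 0 R₀) :=
    ((differentiableOn_dslope (isOpen_ball.mem_nhds h1m)).2 hu).neg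
  have hU0 : ∀ z ∈ ball (0 : ℂ) R₀, U z ≠ 0 := fun z hz =>
    neg_ne_zero.2 (Pool.Agent.MP_1a2790_an.dslope_ne_zero_of_injOn isOpen_ball hu hi h1m hz)
  have huU : ∀ z, u z = (1 - z) * U z := by
    intro z
    have := sub_smul_dslope u 1 z
    rw [hu1, sub_zero, smul_eq_mul] at this
    rw [← this, hUdef]; ring
  obtain ⟨l, hl, hUl⟩ := xstepn_real (hU0 1 h1m) fun d hd =>
    xstepn_cone (hUd.differentiableAt (isOpen_ball.mem_nhds h1m)).continuousAt
      (fun z hz => by rw [← huU]; exact hHP z hz) hd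
  have hu0 : ∀ z ∈ ball (0 : ℂ) 1, u z ≠ 0 := by
    intro z hz h
    have := hHP z hz
    rw [h] at this
    simp [mem_HP] at this
  obtain ⟨M, hM⟩ := (isCompact_closedBall (0 : ℂ) 1).exists_bound_of_continuousOn
    (hu.continuousOn.mono (closedBall_subset_ball hR₀))
  have hM0 : 0 ≤ M := (norm_nonneg _).trans (hM 0 (by simp))
  obtain ⟨μ, hμ, hμ'⟩ := (isCompact_closedBall (0 : ℂ) r).exists_forall_le'
    (f := fun z => ‖u z‖) (a := 0)
    (hu.continuousOn.mono (closedBall_subset_ball (hr.trans hR₀))).norm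
    (fun z hz => norm_pos_iff.2 (hu0 z (closedBall_subset_ball hr hz)))
  obtain ⟨a, ha, ha1, haM, haη⟩ : ∃ a : ℝ, 0 < a ∧ a < 1 ∧ a * M < 1 ∧
      a * (1 / μ + (M + 1 / μ) ^ 2 / 2) < η / 2 := by
    have t0 : Tendsto (fun a : ℝ => a) (𝓝[>] 0) (𝓝 0) := nhdsWithin_le_nhds
    have t1 := t0.mul_const M
    have t2 := t0.mul_const (1 / μ + (M + 1 / μ) ^ 2 / 2)
    rw [zero_mul] at t1 t2
    have hev : ∀ᶠ a : ℝ in 𝓝[>] 0, 0 < a ∧ a < 1 ∧ a * M < 1 ∧
        a * (1 / μ + (M + 1 / μ) ^ 2 / 2) < η / 2 := by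
      filter_upwards [self_mem_nhdsWithin, t0.eventually (gt_mem_nhds one_pos),
        t1.eventually (gt_mem_nhds one_pos), t2.eventually (gt_mem_nhds (half_pos hη))]
        with a b1 b2 b3 b4
      exact ⟨b1, b2, b3, b4⟩
    exact hev.exists
  have a0 : (a : ℂ) ≠ 0 := ofReal_ne_zero.2 ha.ne'
  set N : ℂ → ℂ := fun z => (1 - z) * (1 - a * u z) + a ^ 2 / U z with hNdef
  have hNd : DifferentiableOn ℂ N (ball 0 R₀) :=
    (((differentiableOn_const _).sub differentiableOn_id).mul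
      ((differentiableOn_const _).sub (hu.const_mul _))).add
      ((differentiableOn_const _).div hUd hU0)
  have hN1 : N 1 = ((a ^ 2 / l : ℝ) : ℂ) := by
    simp [hNdef, hUl]
  have hz1 : ∀ z ∈ ball (0 : ℂ) 1, (1 : ℂ) - z ≠ 0 := by
    intro z hz h
    rw [← sub_eq_zero.1 h] at hz
    simp at hz
  have hNB : ∀ z ∈ ball (0 : ℂ) 1, N z / (1 - z) = 1 - a * u z + a ^ 2 / u z := by
    intro z hz
    have b1 := hz1 z hz
    have b2 := hU0 z (hsub hz)
    rw [hNdef]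
    simp only
    rw [add_div, mul_div_cancel_left₀ _ b1, div_div, mul_comm (U z), ← huU]
  have hBHP : ∀ z ∈ ball (0 : ℂ) 1, N z / (1 - z) ∈ HP := by
    intro z hz
    rw [hNB z hz, mem_HP, add_re, sub_re, one_re, re_ofReal_mul, div_eq_mul_inv, ← ofReal_pow,
      re_ofReal_mul]
    have b1 := mul_pos (pow_pos ha 2) (xstepn_inv_re (hHP z hz))
    have b2 : (u z).re ≤ M := (Complex.re_le_norm _).trans (hM z (ball_subset_closedBall hz))
    nlinarith
  have hBd : DifferentiableOn ℂ (fun z => N z / (1 - z)) (ball 0 1) :=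
    (hNd.mono hsub).div ((differentiableOn_const _).sub differentiableOn_id) hz1
  have hκ : (1 / (2 * a) : ℂ) ≠ 0 := one_div_ne_zero (mul_ne_zero two_ne_zero a0)
  obtain ⟨c, hc, hcore⟩ := h2 N R₀ (a ^ 2 / l) (1 / (2 * a)) (w - 1 / (2 * a)) hR₀ (by positivity)
    hκ hNd hN1 hBHP
  refine ⟨c, hc, fun R hR => ?_⟩
  set β : ℝ := 1 + (M + 1 / μ) with hβ
  have hβ0 : 0 < β := by positivity
  obtain ⟨δ, hδ, hδ'⟩ := Metric.continuousAt_iff.1
    (differentiableAt_Mf (W := 0) (by simp)).continuousAt (η * a / β ^ 2) (by positivity)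
  have hbβ : ∀ᶠ b : ℝ in 𝓝[>] 0, b * β < δ := by
    have t0 : Tendsto (fun a : ℝ => a) (𝓝[>] 0) (𝓝 0) := nhdsWithin_le_nhds
    have t1 := t0.mul_const β
    rw [zero_mul] at t1
    exact t1.eventually (gt_mem_nhds hδ)
  obtain ⟨b, hb1, hb2, hb⟩ := ((hcore R hR).and (hbβ.and self_mem_nhdsWithin)).exists
  have hb0 : 0 < b := hb
  obtain ⟨hAd, hAi⟩ := h1 b hb0
  have hgd : DifferentiableOn ℂ
      (fun z => 1 / (2 * a) * Af b (N z / (1 - z)) + (w - 1 / (2 * a))) (ball 0 1) :=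
    ((hAd.comp hBd hBHP).const_mul _).add_const _
  obtain ⟨G, hG0, hG⟩ := hgd.isExactOn_ball.with_val_at 0 0
  refine ⟨_, G, hgd, ?_, hG0, hG, ?_, hb1 G hG0 hG⟩
  · intro z hz y hy e
    have e1 := hAi (hBHP z hz) (hBHP y hy) (mul_left_cancel₀ hκ (add_right_cancel e))
    rw [hNB z hz, hNB y hy] at e1
    exact hi (hsub hz) (hsub hy) (xstepn_inj ha (hHP z hz) (hHP y hy) e1)
  · intro z hzr
    have hz : z ∈ ball (0 : ℂ) 1 := mem_ball_zero_iff.2 (hzr.trans_lt hr)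
    have b0 := hu0 z hz
    have b1 : μ ≤ ‖u z‖ := hμ' z (mem_closedBall_zero_iff.2 hzr)
    have b2 : ‖u z‖ ≤ M := hM z (ball_subset_closedBall hz)
    have an : ‖(a : ℂ)‖ = a := by rw [Complex.norm_real, Real.norm_of_nonneg ha.le]
    have b3 : ‖(a : ℂ) / u z‖ ≤ a * (1 / μ) := by
      rw [norm_div, an, mul_one_div]; gcongr
    have hμ1 : 0 < 1 / μ := by positivity
    set t : ℂ := -u z + a / u z with htdef
    have b4 : ‖t‖ ≤ M + 1 / μ := by
      refine (norm_add_le _ _).trans ?_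
      rw [norm_neg]
      nlinarith
    have hBt : N z / (1 - z) = 1 + a * t := by
      rw [hNB z hz, htdef]; ring
    have b5 : ‖1 + a * t‖ ≤ β := by
      refine (norm_add_le _ _).trans ?_
      rw [norm_one, norm_mul, an, hβ]
      nlinarith [norm_nonneg t]
    have b6 : ‖Mf (b * (1 + a * t)) - 1‖ ≤ η * a / β ^ 2 := by
      have := hδ' (x := b * (1 + a * t)) (by
        rw [dist_zero_right, norm_mul, Complex.norm_real, Real.norm_of_nonneg hb0.le]
        exact (mul_le_mul_of_nonneg_left b5 hb0.le).trans_lt hb2)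
      rw [Mf_zero, dist_eq_norm] at this
      exact this.le
    have e : 1 / (2 * a) * Af b (N z / (1 - z)) + (w - 1 / (2 * a)) - (w - u z) =
        a / u z + a * t ^ 2 / 2 +
          1 / (2 * a) * ((1 + a * t) ^ 2 * (Mf (b * (1 + a * t)) - 1)) := by
      have e1 : u z = a / u z - t := by rw [htdef]; ring
      rw [hBt, Af]
      generalize Mf (b * (1 + a * t)) = m
      generalize (a : ℂ) / u z = s at e1 ⊢
      rw [e1]
      field_simp
      ring
    rw [e]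
    refine norm_add₃_le.trans ?_
    have c1 : ‖(a : ℂ) * t ^ 2 / 2‖ ≤ a * ((M + 1 / μ) ^ 2 / 2) := by
      rw [norm_div, norm_mul, norm_pow, an, mul_div_assoc]
      have : ‖(2 : ℂ)‖ = 2 := by simp
      rw [this]
      gcongr
    have c2 : ‖1 / (2 * (a : ℂ)) * ((1 + a * t) ^ 2 * (Mf (b * (1 + a * t)) - 1))‖ ≤ η / 2 := by
      rw [norm_mul, norm_mul, norm_pow, norm_div, norm_mul, an, norm_one]
      have : ‖(2 : ℂ)‖ = 2 := by simp
      rw [this]
      calc 1 / (2 * a) * (‖1 + (a : ℂ) * t‖ ^ 2 * ‖Mf (b * (1 + a * t)) - 1‖)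
          ≤ 1 / (2 * a) * (β ^ 2 * (η * a / β ^ 2)) := by gcongr
        _ = η / 2 := by field_simp
    linarith

end Pool.Agent.MP_32357e_an.H

end

section

/-! One step, reduction to the normalised case. -/

set_option autoImplicit false

open Complex Set Filter Topology Metric

namespace Pool.Agent.MP_32357e_an.H

lemma xstep_rho {f : ℂ → ℂ} (hf : DifferentiableOn ℂ f (ball 0 1)) {r η : ℝ} (hr : r < 1)
    (hη : 0 < η) : ∃ ρ : ℝ, 0 < ρ ∧ ρ < 1 ∧ ∀ z : ℂ, ‖z‖ ≤ r → ‖f (ρ * z) - f z‖ ≤ η := by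
  have hu := (isCompact_closedBall (0 : ℂ) r).uniformContinuousOn_of_continuous
    (hf.continuousOn.mono (closedBall_subset_ball hr))
  rw [Metric.uniformContinuousOn_iff] at hu
  obtain ⟨δ, hδ, hu⟩ := hu η hη
  set t : ℝ := min (δ / 2) (1 / 2) with ht
  have t0 : 0 < t := lt_min (by linarith) (by norm_num)
  have t1 : t ≤ 1 / 2 := min_le_right _ _
  have t2 : t ≤ δ / 2 := min_le_left _ _
  refine ⟨1 - t, by linarith, by linarith, fun z hz => ?_⟩
  have hn := norm_nonneg z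
  have h1 : ‖((1 - t : ℝ) : ℂ) * z‖ ≤ r := by
    rw [norm_mul, norm_real, Real.norm_of_nonneg (by linarith)]
    nlinarith
  have h2 : dist (((1 - t : ℝ) : ℂ) * z) z < δ := by
    have e : ((1 - t : ℝ) : ℂ) * z - z = -((t : ℂ) * z) := by
      push_cast
      ring
    rw [dist_eq_norm, e, norm_neg, norm_mul, norm_real, Real.norm_of_nonneg t0.le]
    nlinarith
  have := hu _ (mem_closedBall_zero_iff.2 h1) z (mem_closedBall_zero_iff.2 hz) h2
  rw [dist_eq_norm] at this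
  exact this.le

lemma xstep_max {f : ℂ → ℂ} {R : ℝ} (hR : 1 < R) (hf : DifferentiableOn ℂ f (ball 0 R))
    (hi : InjOn f (ball 0 R)) :
    ∃ ξ : ℂ, ‖ξ‖ = 1 ∧ ∀ z ∈ ball (0 : ℂ) 1, (f z).re < (f ξ).re := by
  have hsub : closedBall (0 : ℂ) 1 ⊆ ball 0 R := closedBall_subset_ball hR
  obtain ⟨ξ, hξ, hmax⟩ := (isCompact_closedBall (0 : ℂ) 1).exists_isMaxOn
    (nonempty_closedBall.2 zero_le_one) (f := fun z => (f z).re)
    (Complex.continuous_re.comp_continuousOn (hf.continuousOn.mono hsub))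
  have ho := MP_1a2790_an.isOpen_image_of_injOn isOpen_ball
    (hf.mono (ball_subset_ball hR.le)) (hi.mono (ball_subset_ball hR.le))
  have key : ∀ z ∈ ball (0 : ℂ) 1, (f z).re < (f ξ).re := by
    intro z hz
    obtain ⟨ε, hε, h1⟩ := Metric.isOpen_iff.1 ho _ (mem_image_of_mem f hz)
    have h2 : f z + ((ε / 2 : ℝ) : ℂ) ∈ ball (f z) ε := by
      rw [mem_ball, dist_eq_norm, add_sub_cancel_left, norm_real,
        Real.norm_of_nonneg (by linarith)]
      linarith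
    obtain ⟨y, hy, e⟩ := h1 h2
    have h3 : (f y).re ≤ (f ξ).re := hmax (ball_subset_closedBall hy)
    rw [e, add_re, ofReal_re] at h3
    linarith
  refine ⟨ξ, ?_, key⟩
  by_contra hne
  exact lt_irrefl _ (key ξ (mem_ball_zero_iff.2
    (lt_of_le_of_ne (mem_closedBall_zero_iff.1 hξ) hne)))

theorem step (h : StepNStmt) : StepStmt := by
  intro f hf hi r η hr hη
  obtain ⟨ρ, ρ0, ρ1, hρ⟩ := xstep_rho hf hr (half_pos hη)
  have hR : 1 < 1 / ρ := one_lt_one_div ρ0 ρ1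
  have hρc : (ρ : ℂ) ≠ 0 := by exact_mod_cast ρ0.ne'
  have hmap : MapsTo (fun z : ℂ => (ρ : ℂ) * z) (ball 0 (1 / ρ)) (ball 0 1) := by
    intro z hz
    rw [mem_ball_zero_iff] at hz ⊢
    rw [norm_mul, norm_real, Real.norm_of_nonneg ρ0.le]
    rwa [lt_div_iff₀' ρ0] at hz
  have hf1 : DifferentiableOn ℂ (fun z : ℂ => f (ρ * z)) (ball 0 (1 / ρ)) :=
    hf.comp (by fun_prop) hmap
  have hi1 : InjOn (fun z : ℂ => f (ρ * z)) (ball 0 (1 / ρ)) := fun x hx y hy e =>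
    mul_left_cancel₀ hρc (hi (hmap hx) (hmap hy) e)
  obtain ⟨ξ, hξ, hmax⟩ := xstep_max hR hf1 hi1
  have hξ0 : ξ ≠ 0 := norm_pos_iff.1 (by rw [hξ]; exact one_pos)
  have hrot : ∀ R : ℝ, MapsTo (fun z : ℂ => ξ * z) (ball 0 R) (ball 0 R) := by
    intro R z hz
    rw [mem_ball_zero_iff] at hz ⊢
    rwa [norm_mul, hξ, one_mul]
  have hdiv : ∀ z : ℂ, ‖z / ξ‖ = ‖z‖ := fun z => by rw [norm_div, hξ, div_one]
  have hrot' : MapsTo (fun z : ℂ => z / ξ) (ball 0 1) (ball 0 1) := by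
    intro z hz
    rw [mem_ball_zero_iff] at hz ⊢
    rwa [hdiv]
  obtain ⟨c, hc, H⟩ := h (fun z => f (ρ * ξ) - f (ρ * (ξ * z))) (1 / ρ) (f (ρ * ξ)) hR
    ((hf1.comp (by fun_prop) (hrot _)).const_sub _)
    (fun x hx y hy e => mul_left_cancel₀ hξ0 (hi1 (hrot _ hx) (hrot _ hy) (sub_right_injective e)))
    (by simp)
    (fun z hz => by
      rw [mem_HP, sub_re, sub_pos]
      exact hmax _ (hrot 1 hz))
    r (η / 2) hr (half_pos hη)
  refine ⟨c, hc, fun R hR1 => ?_⟩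
  obtain ⟨g, G, hg, hgi, hG0, hG, happ, z, hz1, hz2, hz3, hz4⟩ := H R hR1
  have ez : ξ * z / ξ = z := mul_div_cancel_left₀ z hξ0
  have en : ‖ξ * z‖ = ‖z‖ := by rw [norm_mul, hξ, one_mul]
  refine ⟨fun z => g (z / ξ), fun z => ξ * G (z / ξ), hg.comp (by fun_prop) hrot',
    fun x hx y hy e => (div_left_inj' hξ0).1 (hgi (hrot' hx) (hrot' hy) e), by simp [hG0],
    fun x hx => ?_, fun x hx => ?_, ξ * z, by rwa [en], by rwa [en], by simp only [ez, hz3, mul_zero],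
    by simpa only [ez, en] using hz4⟩
  · have a1 := ((hG _ (hrot' hx)).comp x ((hasDerivAt_id x).div_const ξ)).const_mul ξ
    refine HasDerivAt.congr_deriv a1 ?_
    field_simp
  · have a1 := happ (x / ξ) (by rwa [hdiv])
    rw [sub_sub_cancel, mul_div_cancel₀ _ hξ0] at a1
    have a2 := hρ x hx
    have a3 := norm_sub_le_norm_sub_add_norm_sub (g (x / ξ)) (f (ρ * x)) (f x)
    linarith

end Pool.Agent.MP_32357e_an.H

end

section

/-! Iteration of the one step construction. -/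

set_option autoImplicit false

open Complex Set Filter Topology Metric MeasureTheory

namespace Pool.Agent.MP_32357e_an.H

/-- A state of the iteration. -/
structure XpartbSt where
  f : ℂ → ℂ
  r : ℝ
  η : ℝ
  hd : DifferentiableOn ℂ f (ball 0 1)
  hi : InjOn f (ball 0 1)
  hr : r < 1
  hη : 0 < η

/-- Every function close to `g` has a large spherical derivative of its primitive at one point. -/
def xpartb_Key (ε : ℝ → ℝ) (g : ℂ → ℂ) (r η R : ℝ) : Prop :=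
  ∃ z : ℂ, R < ‖z‖ ∧ ‖z‖ < 1 ∧ ∀ f F : ℂ → ℂ, F 0 = 0 →
    (∀ x ∈ ball (0 : ℂ) 1, HasDerivAt F (f x) x) → (∀ x : ℂ, ‖x‖ ≤ r → ‖f x - g x‖ ≤ η) →
    ε ‖z‖ < (1 - ‖z‖ ^ 2) ^ 2 * ‖f z‖ / (1 + ‖F z‖ ^ 2)

lemma xpartb_prim {f F g G : ℂ → ℂ} {z : ℂ} {η : ℝ} (hz : ‖z‖ < 1) (hF0 : F 0 = 0)
    (hG0 : G 0 = 0) (hF : ∀ x ∈ ball (0 : ℂ) 1, HasDerivAt F (f x) x)
    (hG : ∀ x ∈ ball (0 : ℂ) 1, HasDerivAt G (g x) x)
    (hb : ∀ x : ℂ, ‖x‖ ≤ ‖z‖ → ‖f x - g x‖ ≤ η) : ‖F z - G z‖ ≤ η * ‖z‖ := by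
  have hsub : closedBall (0 : ℂ) ‖z‖ ⊆ ball 0 1 := closedBall_subset_ball hz
  have key := Convex.norm_image_sub_le_of_norm_hasDerivWithin_le (𝕜 := ℂ)
    (f := fun x => F x - G x) (f' := fun x => f x - g x) (s := closedBall (0 : ℂ) ‖z‖) (C := η)
    (x := 0) (y := z)
    (fun x hx => ((hF x (hsub hx)).sub (hG x (hsub hx))).hasDerivWithinAt)
    (fun x hx => hb x (by simpa using hx)) (convex_closedBall _ _)
    (mem_closedBall_self (norm_nonneg _)) (by simp)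
  simpa [hF0, hG0] using key

lemma xpartb_step (h : StepStmt) {ε : ℝ → ℝ} (hε : Tendsto ε (𝓝[<] 1) (𝓝 0)) {R : ℝ}
    (hR : R < 1) (s : XpartbSt) : ∃ t : XpartbSt, s.r ≤ t.r ∧ R ≤ t.r ∧ t.η ≤ s.η / 2 ∧
      (∀ z : ℂ, ‖z‖ ≤ s.r → ‖t.f z - s.f z‖ ≤ s.η / 2) ∧ xpartb_Key ε t.f t.r t.η R := by
  obtain ⟨c, hc, hstep⟩ := h s.f s.hd s.hi s.r (s.η / 2) s.hr (half_pos s.hη)
  have hev : ∀ᶠ t in 𝓝[<] (1 : ℝ), ε t < c / 4 :=
    hε.eventually (gt_mem_nhds (by positivity))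
  obtain ⟨R₁, hR₁, hR₁'⟩ := (mem_nhdsLT_iff_exists_Ioo_subset).1 hev
  have hR₁lt : R₁ < 1 := hR₁
  obtain ⟨g, G, hgd, hgi, hG0, hG, hclose, z, hz1, hz2, hGz, hcz⟩ :=
    hstep (max (max s.r R) R₁) (max_lt (max_lt s.hr hR) hR₁lt)
  have h1 : s.r < ‖z‖ := lt_of_le_of_lt ((le_max_left _ _).trans (le_max_left _ _)) hz1
  have h2 : R < ‖z‖ := lt_of_le_of_lt ((le_max_right _ _).trans (le_max_left _ _)) hz1
  have h3 : R₁ < ‖z‖ := lt_of_le_of_lt (le_max_right _ _) hz1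
  have hη := s.hη
  refine ⟨⟨g, ‖z‖, min (s.η / 2) (min 1 (c / 2)), hgd, hgi, hz2,
    lt_min (half_pos hη) (lt_min one_pos (half_pos hc))⟩, h1.le, h2.le, min_le_left _ _,
    hclose, z, h2, hz2, ?_⟩
  intro f F hF0 hF hb
  have hb' : ∀ x : ℂ, ‖x‖ ≤ ‖z‖ → ‖f x - g x‖ ≤ min (s.η / 2) (min 1 (c / 2)) := hb
  set η₂ := min (s.η / 2) (min 1 (c / 2)) with hη₂
  have e1 : η₂ ≤ 1 := (min_le_right _ _).trans (min_le_left _ _)
  have e2 : η₂ ≤ c / 2 := (min_le_right _ _).trans (min_le_right _ _)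
  have e0 : 0 < η₂ := lt_min (half_pos hη) (lt_min one_pos (half_pos hc))
  have hFz : ‖F z‖ ≤ 1 := by
    have := xpartb_prim hz2 hF0 hG0 hF hG hb'
    rw [hGz, sub_zero] at this
    have h0 := norm_nonneg z
    nlinarith
  have hεz : ε ‖z‖ < c / 4 := hR₁' ⟨h3, hz2⟩
  have hn0 := norm_nonneg z
  have hq0 : 0 ≤ 1 - ‖z‖ ^ 2 := by nlinarith
  have hq1 : 1 - ‖z‖ ^ 2 ≤ 1 := by nlinarith
  have hq : (1 - ‖z‖ ^ 2) ^ 2 ≤ 1 := by nlinarith
  have hq' : 0 ≤ (1 - ‖z‖ ^ 2) ^ 2 := sq_nonneg _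
  have hfz : ‖g z‖ ≤ ‖f z‖ + η₂ := by
    have a1 := hb' z le_rfl
    have a2 : ‖g z‖ ≤ ‖f z‖ + ‖f z - g z‖ := by
      have := norm_sub_le (f z) (f z - g z)
      simpa using this
    linarith
  have hlow : c / 2 ≤ (1 - ‖z‖ ^ 2) ^ 2 * ‖f z‖ := by
    have a1 : (1 - ‖z‖ ^ 2) ^ 2 * ‖g z‖ ≤ (1 - ‖z‖ ^ 2) ^ 2 * (‖f z‖ + η₂) :=
      mul_le_mul_of_nonneg_left hfz hq'
    have a2 : (1 - ‖z‖ ^ 2) ^ 2 * η₂ ≤ η₂ := by nlinarith
    rw [mul_add] at a1
    linarith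
  have hF1 : 1 + ‖F z‖ ^ 2 ≤ 2 := by
    have := norm_nonneg (F z)
    nlinarith
  have hpos : 0 < 1 + ‖F z‖ ^ 2 := by positivity
  rw [lt_div_iff₀ hpos]
  have a3 : ε ‖z‖ * (1 + ‖F z‖ ^ 2) < c / 4 * (1 + ‖F z‖ ^ 2) :=
    mul_lt_mul_of_pos_right hεz hpos
  have a4 : c / 4 * (1 + ‖F z‖ ^ 2) ≤ c / 4 * 2 :=
    mul_le_mul_of_nonneg_left hF1 (by positivity)
  linarith

lemma xpartb_seq (h : StepStmt) {ε : ℝ → ℝ} (hε : Tendsto ε (𝓝[<] 1) (𝓝 0)) (s₀ : XpartbSt) :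
    ∃ s : ℕ → XpartbSt, s 0 = s₀ ∧ ∀ n : ℕ, (s n).r ≤ (s (n + 1)).r ∧
      1 - 1 / ((n : ℝ) + 1) ≤ (s (n + 1)).r ∧ (s (n + 1)).η ≤ (s n).η / 2 ∧
      (∀ z : ℂ, ‖z‖ ≤ (s n).r → ‖(s (n + 1)).f z - (s n).f z‖ ≤ (s n).η / 2) ∧
      xpartb_Key ε (s (n + 1)).f (s (n + 1)).r (s (n + 1)).η (1 - 1 / ((n : ℝ) + 1)) := by
  have hR : ∀ n : ℕ, 1 - 1 / ((n : ℝ) + 1) < 1 := fun n => by
    have : (0 : ℝ) < 1 / ((n : ℝ) + 1) := by positivity
    linarith
  choose T hT using fun (n : ℕ) (s : XpartbSt) => xpartb_step h hε (hR n) s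
  refine ⟨fun n => Nat.rec s₀ (fun n s => T n s) n, rfl, fun n => ?_⟩
  exact hT n _

lemma xpartb_limit (s : ℕ → XpartbSt) (h1 : ∀ n, (s n).r ≤ (s (n + 1)).r)
    (h2 : ∀ n : ℕ, 1 - 1 / ((n : ℝ) + 1) ≤ (s (n + 1)).r)
    (h3 : ∀ n, (s (n + 1)).η ≤ (s n).η / 2)
    (h4 : ∀ n, ∀ z : ℂ, ‖z‖ ≤ (s n).r → ‖(s (n + 1)).f z - (s n).f z‖ ≤ (s n).η / 2) :
    ∃ f : ℂ → ℂ, TendstoLocallyUniformlyOn (fun n => (s n).f) f atTop (ball 0 1) ∧
      ∀ k, ∀ z : ℂ, ‖z‖ ≤ (s k).r → ‖f z - (s k).f z‖ ≤ (s k).η := by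
  have hmono : Monotone fun n => (s n).r := monotone_nat_of_le_succ h1
  have hdiff : ∀ k, ∀ z : ℂ, ‖z‖ ≤ (s k).r → ∀ m, k ≤ m →
      ‖(s m).f z - (s k).f z‖ ≤ (s k).η - (s m).η := by
    intro k z hz m hm
    induction m, hm using Nat.le_induction with
    | base => simp
    | succ m hm ih =>
      have a1 := h4 m z (hz.trans (hmono hm))
      have a2 := h3 m
      have a3 := norm_sub_le_norm_sub_add_norm_sub ((s (m + 1)).f z) ((s m).f z) ((s k).f z)
      linarith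
  have hηle : ∀ n, (s n).η ≤ (s 0).η * (1 / 2) ^ n := by
    intro n
    induction n with
    | zero => simp
    | succ n ih =>
      have := h3 n
      rw [pow_succ]
      linarith
  have hη0 : Tendsto (fun n => (s n).η) atTop (𝓝 0) := by
    have t1 : Tendsto (fun n : ℕ => (s 0).η * (1 / 2 : ℝ) ^ n) atTop (𝓝 0) := by
      have := (tendsto_pow_atTop_nhds_zero_of_lt_one (r := (1 / 2 : ℝ)) (by norm_num)
        (by norm_num)).const_mul (s 0).η
      simpa using this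
    exact squeeze_zero (fun n => (s n).hη.le) hηle t1
  have hrk : ∀ ρ : ℝ, ρ < 1 → ∀ᶠ k in atTop, ρ ≤ (s k).r := by
    intro ρ hρ
    obtain ⟨n, hn⟩ := exists_nat_one_div_lt (K := ℝ) (sub_pos.2 hρ)
    filter_upwards [eventually_ge_atTop (n + 1)] with k hk
    have a1 := h2 n
    have a2 : (s (n + 1)).r ≤ (s k).r := hmono hk
    linarith
  have hpt : ∀ z : ℂ, ∃ b : ℂ, ‖z‖ < 1 → Tendsto (fun n => (s n).f z) atTop (𝓝 b) := by
    intro z
    by_cases hz : ‖z‖ < 1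
    · have hc : CauchySeq fun n => (s n).f z := by
        rw [Metric.cauchySeq_iff']
        intro e he
        obtain ⟨N, hN1, hN2⟩ := ((hrk _ hz).and (hη0.eventually (gt_mem_nhds he))).exists
        refine ⟨N, fun n hn => ?_⟩
        rw [dist_eq_norm]
        have a1 := hdiff N z hN1 n hn
        have a2 := (s n).hη
        linarith
      obtain ⟨b, hb⟩ := cauchySeq_tendsto_of_complete hc
      exact ⟨b, fun _ => hb⟩
    · exact ⟨0, fun h => absurd h hz⟩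
  choose f hf using hpt
  have hclose : ∀ k, ∀ z : ℂ, ‖z‖ ≤ (s k).r → ‖f z - (s k).f z‖ ≤ (s k).η := by
    intro k z hz
    have t1 : Tendsto (fun m => ‖(s m).f z - (s k).f z‖) atTop (𝓝 ‖f z - (s k).f z‖) :=
      ((hf z (hz.trans_lt (s k).hr)).sub_const _).norm
    refine le_of_tendsto t1 ?_
    filter_upwards [eventually_ge_atTop k] with m hm
    have a1 := hdiff k z hz m hm
    have a2 := (s m).hη
    linarith
  refine ⟨f, ?_, hclose⟩
  rw [Metric.tendstoLocallyUniformlyOn_iff]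
  intro e he x hx
  have hx1 : ‖x‖ < 1 := by simpa using hx
  refine ⟨ball 0 ((‖x‖ + 1) / 2), mem_nhdsWithin_of_mem_nhds (isOpen_ball.mem_nhds ?_), ?_⟩
  · rw [mem_ball_zero_iff]
    linarith
  · filter_upwards [hrk ((‖x‖ + 1) / 2) (by linarith), hη0.eventually (gt_mem_nhds he)]
      with k hk1 hk2 y hy
    rw [mem_ball_zero_iff] at hy
    rw [dist_eq_norm]
    exact (hclose k y (hy.le.trans hk1)).trans_lt hk2

theorem partB (h : StepStmt) : PartBStmt := by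
  intro ε hε f₀ hd hi r η hr hη
  have hhalf : ((1 / 2 : ℝ) : ℂ) ∈ ball (0 : ℂ) 1 := by
    rw [mem_ball_zero_iff, Complex.norm_real, Real.norm_eq_abs, abs_of_pos (by norm_num)]
    norm_num
  have hzero : (0 : ℂ) ∈ ball (0 : ℂ) 1 := mem_ball_self one_pos
  have hne : f₀ ((1 / 2 : ℝ) : ℂ) ≠ f₀ 0 := by
    intro e
    have := hi hhalf hzero e
    have h2 := congrArg Complex.re this
    simp at h2
  have hδ : 0 < ‖f₀ ((1 / 2 : ℝ) : ℂ) - f₀ 0‖ := norm_pos_iff.2 (sub_ne_zero.2 hne)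
  set δ := ‖f₀ ((1 / 2 : ℝ) : ℂ) - f₀ 0‖ with hδdef
  let s₀ : XpartbSt := ⟨f₀, max r (1 / 2), min η (δ / 3), hd, hi, max_lt hr (by norm_num),
    lt_min hη (by positivity)⟩
  obtain ⟨s, hs0, hs⟩ := xpartb_seq h hε s₀
  obtain ⟨f, hlim, hclose⟩ := xpartb_limit s (fun n => (hs n).1) (fun n => (hs n).2.1)
    (fun n => (hs n).2.2.1) (fun n => (hs n).2.2.2.1)
  have hfd : DifferentiableOn ℂ f (ball 0 1) :=
    hlim.differentiableOn (Eventually.of_forall fun n => (s n).hd) isOpen_ball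
  have hc0 : ∀ z : ℂ, ‖z‖ ≤ max r (1 / 2) → ‖f z - f₀ z‖ ≤ min η (δ / 3) := by
    have := hclose 0
    rw [hs0] at this
    exact this
  have hfne : f ((1 / 2 : ℝ) : ℂ) ≠ f 0 := by
    intro e
    have a1 := (hc0 ((1 / 2 : ℝ) : ℂ) (by
      rw [Complex.norm_real, Real.norm_eq_abs, abs_of_pos (by norm_num)]
      exact le_max_right _ _)).trans (min_le_right _ _)
    have a2 := (hc0 0 (by
      rw [norm_zero]
      exact le_trans (by norm_num) (le_max_right _ _))).trans (min_le_right _ _)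
    have a3 := norm_sub_le_norm_sub_add_norm_sub (f₀ ((1 / 2 : ℝ) : ℂ)) (f 0) (f₀ 0)
    rw [e, norm_sub_rev] at a1
    rw [← hδdef] at a3
    linarith
  have hfi : InjOn f (ball 0 1) :=
    Pool.Agent.MP_1a2790_an.limit_injOn isOpen_ball (fun n => (s n).hd) hlim
      (fun z₀ hz₀ => Pool.Agent.MP_1a2790_an.not_eventually_const isOpen_ball
        (convex_ball (0 : ℂ) 1).isPreconnected hfd hhalf hzero hfne hz₀) (fun n => (s n).hi)
  obtain ⟨F, hF0, hF⟩ := hfd.isExactOn_ball.with_val_at 0 0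
  refine ⟨f, F, hfd, hfi, hF0, hF,
    fun z hz => (hc0 z (hz.trans (le_max_left _ _))).trans (min_le_left _ _), ?_⟩
  intro R hR
  obtain ⟨n, hn⟩ := exists_nat_one_div_lt (K := ℝ) (sub_pos.2 hR)
  obtain ⟨z, hz1, hz2, hz3⟩ := (hs n).2.2.2.2
  exact ⟨z, by linarith, hz2, hz3 f F hF0 hF (hclose (n + 1))⟩

end Pool.Agent.MP_32357e_an.H

end
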